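import Pool.Agent.MP_2c73ad_mp.H42.Groups

/-! From groups to an exactly orthonormal unit vector field. -/

set_option linter.unusedSectionVars false

open Finset MeasureTheory

namespace Pool.Agent.MP_2c73ad_mp.H42

variable {X : Type*} [PseudoMetricSpace X] [MeasurableSpace X] [BorelSpace X]

theorem sqrt_one_sub_lip {k t t' : ℝ} (hk0 : 0 ≤ k) (hk : k ≤ 1 / 2) (h0 : 0 ≤ t) (h1 : t ≤ 1)
    (h0' : 0 ≤ t') (h1' : t' ≤ 1) : |√(1 - k * t ^ 2) - √(1 - k * t' ^ 2)| ≤ |t - t'| := by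
  have hA : ∀ s : ℝ, 0 ≤ s → s ≤ 1 → 1 / 2 ≤ 1 - k * s ^ 2 := fun s a b => by
    have : s ^ 2 ≤ 1 := by nlinarith
    nlinarith
  have hB : ∀ s : ℝ, 0 ≤ s → s ≤ 1 → 1 / 2 ≤ √(1 - k * s ^ 2) := fun s a b =>
    Real.le_sqrt_of_sq_le (by linarith [hA s a b])
  set A := √(1 - k * t ^ 2)
  set B := √(1 - k * t' ^ 2)
  have eA : A ^ 2 = 1 - k * t ^ 2 := Real.sq_sqrt (by linarith [hA t h0 h1])
  have eB : B ^ 2 = 1 - k * t' ^ 2 := Real.sq_sqrt (by linarith [hA t' h0' h1'])
  have hAB : 1 ≤ A + B := by linarith [hB t h0 h1, hB t' h0' h1']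
  have e : (A - B) * (A + B) = (t - t') * (-(k * (t + t'))) := by nlinarith
  have e' : |A - B| * (A + B) = |t - t'| * (k * (t + t')) := by
    have := congrArg abs e
    rwa [abs_mul, abs_mul, abs_neg, abs_of_nonneg (by linarith : 0 ≤ A + B),
      abs_of_nonneg (by positivity : 0 ≤ k * (t + t'))] at this
  have hk' : k * (t + t') ≤ 1 := by nlinarith
  nlinarith [abs_nonneg (A - B), abs_nonneg (t - t')]

theorem le_of_sq_le_sq' {a b : ℝ} (hb : 0 ≤ b) (h : a ^ 2 ≤ b ^ 2) : a ≤ b :=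
  le_trans (le_abs_self a) (abs_le_of_sq_le_sq' h hb |> abs_le.2)

namespace Groups

variable {μ : Measure X} [IsFiniteMeasure μ] {N : ℕ} {L : X → ℝ} {ι : Type} [Fintype ι]
  {β : ι → X → ℝ} {χ : Fin N → X → ℝ} {U : Fin N → Finset ι} {B : Fin N → Set X}

theorem χ_sq_le (g : Groups μ N L β χ U B) (a : Fin N) (x : X) : χ a x ^ 2 ≤ 1 := by
  rw [← g.χ1 x]
  exact Finset.single_le_sum (f := fun i => χ i x ^ 2) (fun _ _ => sq_nonneg _) (Finset.mem_univ a)

theorem χ_le (g : Groups μ N L β χ U B) (a : Fin N) (x : X) : χ a x ≤ 1 := by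
  nlinarith [g.χ_sq_le a x, g.χ0 a x]

theorem int_mul (g : Groups μ N L β χ U B) (a b : Fin N) :
    Integrable (fun x => χ a x * χ b x) μ :=
  int_bdd ((g.cχ a).mul (g.cχ b)) 1 fun x => by
    rw [Real.norm_of_nonneg (mul_nonneg (g.χ0 a x) (g.χ0 b x))]
    nlinarith [g.χ_le a x, g.χ_le b x, g.χ0 a x, g.χ0 b x]

theorem form_bound (g : Groups μ N L β χ U B) (v : Fin N → ℝ) :
    |∑ a, ∑ b, v a * (∫ x, χ a x * χ b x ∂μ) * v b - ∑ a, v a ^ 2| ≤ 1 / 4 * ∑ a, v a ^ 2 := by
  classical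
  have e : ∑ a, ∑ b, v a * (∫ x, χ a x * χ b x ∂μ) * v b - ∑ a, v a ^ 2 =
      ∫ x, ((∑ a, v a * χ a x) ^ 2 - ∑ a, v a ^ 2 * χ a x ^ 2) ∂μ := by
    have i1 : ∀ a, Integrable (fun x => v a ^ 2 * χ a x ^ 2) μ := fun a => by
      simpa only [sq] using (g.int_mul a a).const_mul (v a * v a)
    have i2 : ∀ a b, Integrable (fun x => v a * (χ a x * χ b x) * v b) μ := fun a b =>
      ((g.int_mul a b).const_mul _).mul_const _
    have e1 : ∀ x, (∑ a, v a * χ a x) ^ 2 = ∑ a, ∑ b, v a * (χ a x * χ b x) * v b := fun x => by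
      rw [sq, Finset.sum_mul_sum]
      exact Finset.sum_congr rfl fun a _ => Finset.sum_congr rfl fun b _ => by ring
    simp only [e1]
    rw [integral_sub (integrable_finsetSum _ fun a _ => integrable_finsetSum _ fun b _ => i2 a b)
      (integrable_finsetSum _ fun a _ => i1 a), integral_finsetSum _ fun a _ => i1 a,
      integral_finsetSum _ fun a _ => integrable_finsetSum _ fun b _ => i2 a b]
    congr 1
    · refine Finset.sum_congr rfl fun a _ => ?_
      rw [integral_finsetSum _ fun b _ => i2 a b]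
      exact Finset.sum_congr rfl fun b _ => by rw [integral_mul_const, integral_const_mul]
    · exact Finset.sum_congr rfl fun a _ => by rw [integral_const_mul, g.mass, mul_one]
  rw [e]
  have iB : ∀ a, Integrable (fun x => v a ^ 2 * (B a).indicator (1 : X → ℝ) x) μ := fun a =>
    ((integrable_const (1 : ℝ)).indicator (g.mB a)).const_mul _
  have hb : ∀ x, ‖(∑ a, v a * χ a x) ^ 2 - ∑ a, v a ^ 2 * χ a x ^ 2‖ ≤
      ∑ a, v a ^ 2 * (B a).indicator (1 : X → ℝ) x := by
    intro x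
    have hnn : ∀ a, 0 ≤ v a ^ 2 * (B a).indicator (1 : X → ℝ) x := fun a =>
      mul_nonneg (sq_nonneg _) (Set.indicator_nonneg (fun _ _ => zero_le_one) _)
    by_cases hx : ∀ a, x ∉ B a → χ a x = 0
    · set w : Fin N → ℝ := fun a => v a * (B a).indicator (1 : X → ℝ) x with hw
      have e1 : ∀ a, v a * χ a x = w a * χ a x := fun a => by
        by_cases ha : x ∈ B a
        · simp [hw, ha]
        · simp [hx a ha]
      have e2 : ∀ a, v a ^ 2 * (B a).indicator (1 : X → ℝ) x = w a ^ 2 := fun a => by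
        by_cases ha : x ∈ B a <;> simp [hw, ha]
      have e3 : ∀ a, v a ^ 2 * χ a x ^ 2 = w a ^ 2 * χ a x ^ 2 := fun a => by
        rw [← mul_pow, ← mul_pow, e1]
      simp only [e1, e2, e3]
      have c1 := Finset.sum_mul_sq_le_sq_mul_sq univ w (fun a => χ a x)
      rw [g.χ1 x, mul_one] at c1
      have c2 : ∑ a, w a ^ 2 * χ a x ^ 2 ≤ ∑ a, w a ^ 2 :=
        Finset.sum_le_sum fun a _ => by nlinarith [g.χ_sq_le a x, sq_nonneg (w a)]
      have c3 : 0 ≤ ∑ a, w a ^ 2 * χ a x ^ 2 := Finset.sum_nonneg fun a _ => by positivity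
      rw [Real.norm_eq_abs, abs_le]
      constructor <;> nlinarith [sq_nonneg (∑ a, w a * χ a x)]
    · push Not at hx
      obtain ⟨a, ha, hχ⟩ := hx
      obtain ⟨i, hi, hβ⟩ := (g.good a x ha).resolve_left hχ
      have hc := g.core a i hi x (by rw [hβ]; exact one_ne_zero)
      simp only [hc]
      simp only [mul_ite, mul_one, mul_zero, Finset.sum_ite_eq', Finset.mem_univ, if_true, ite_pow,
        one_pow, ne_eq, OfNat.ofNat_ne_zero, not_false_eq_true, zero_pow, sub_self, norm_zero]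
      exact Finset.sum_nonneg fun a _ => hnn a
  refine (norm_integral_le_of_norm_le (integrable_finsetSum _ fun a _ => iB a)
    (Filter.Eventually.of_forall hb)).trans ?_
  rw [integral_finsetSum _ fun a _ => iB a, Finset.mul_sum]
  refine Finset.sum_le_sum fun a _ => ?_
  rw [integral_const_mul, integral_indicator_one (g.mB a)]
  nlinarith [g.bad a, sq_nonneg (v a)]

theorem exists_Y (g : Groups μ N L β χ U B) :
    ∃ Y : Fin N → Fin N → ℝ, (∀ b c, ∑ a, Y a b * Y a c =
      5 * (if b = c then 1 else 0) - 4 * ∫ x, χ b x * χ c x ∂μ) ∧ (∀ a, ∑ b, Y a b ^ 2 = 1) ∧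
      ∀ a, 5 / 8 ≤ Y a a := by
  have e : ∀ v : Fin N → ℝ, ∑ a, ∑ b, v a * (5 * (if a = b then 1 else 0) -
      4 * ∫ x, χ a x * χ b x ∂μ) * v b =
      5 * ∑ a, v a ^ 2 - 4 * ∑ a, ∑ b, v a * (∫ x, χ a x * χ b x ∂μ) * v b := by
    intro v
    rw [Finset.mul_sum, Finset.mul_sum, ← Finset.sum_sub_distrib]
    refine Finset.sum_congr rfl fun a _ => ?_
    have : ∀ b, v a * (5 * (if a = b then 1 else 0) - 4 * ∫ x, χ a x * χ b x ∂μ) * v b =
        (if a = b then 5 * v a * v b else 0) - 4 * (v a * (∫ x, χ a x * χ b x ∂μ) * v b) := by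
      intro b; split_ifs <;> ring
    simp only [this, Finset.sum_sub_distrib, Finset.sum_ite_eq, Finset.mem_univ, if_true,
      Finset.mul_sum]
    ring
  refine matrix_sqrt (Matrix.of fun b c => 5 * (if b = c then 1 else 0) - 4 * ∫ x, χ b x * χ c x ∂μ)
    ?_ ?_ ?_ ?_
  · intro a b
    simp only [Matrix.of_apply, eq_comm (a := a), mul_comm (χ a _)]
  · intro a
    have := g.mass a
    simp only [sq] at this
    simp only [Matrix.of_apply, if_true, this]; norm_num
  · intro v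
    simp only [Matrix.of_apply]
    rw [e]
    linarith [(abs_le.1 (g.form_bound v)).2]
  · intro v
    simp only [Matrix.of_apply]
    rw [e]
    linarith [(abs_le.1 (g.form_bound v)).1]

end Groups

theorem core_mass {μ : Measure X} [IsFiniteMeasure μ] {N : ℕ} {L : X → ℝ} {ι : Type} [Fintype ι]
    {ψ β : ι → X → ℝ} {χ : Fin N → X → ℝ} {U : Fin N → Finset ι} {B : Fin N → Set X}
    (h : Atoms μ N L ψ β) (g : Groups μ N L β χ U B) (a : Fin N) :
    3 / 4 ≤ ∑ i ∈ U a, ∫ x, β i x ^ 2 ∂μ := by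
  have iβ : ∀ i, Integrable (fun x => β i x ^ 2) μ := fun i =>
    int_bdd ((h.cβ i).pow 2) 1 fun x => by
      rw [Real.norm_of_nonneg (sq_nonneg _)]; nlinarith [h.β0 i x, h.β1 i x]
  have iχ : Integrable (fun x => χ a x ^ 2) μ := by simpa only [sq] using g.int_mul a a
  have := integral_le_of_indicator (μ := μ) (f := fun x => χ a x ^ 2 - ∑ i ∈ U a, β i x ^ 2)
    (iχ.sub (integrable_finsetSum _ fun i _ => iβ i)) (g.mB a)
    (fun x => by
      have : 0 ≤ ∑ i ∈ U a, β i x ^ 2 := Finset.sum_nonneg fun i _ => sq_nonneg _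
      linarith [g.χ_sq_le a x])
    (fun x hx => by
      rcases g.good a x hx with h0 | ⟨i, hi, h1⟩
      · have : 0 ≤ ∑ i ∈ U a, β i x ^ 2 := Finset.sum_nonneg fun i _ => sq_nonneg _
        rw [h0]; linarith
      · have := Finset.single_le_sum (f := fun i => β i x ^ 2) (fun _ _ => sq_nonneg _) hi
        simp only [h1] at this
        linarith [g.χ_sq_le a x])
  rw [integral_sub iχ (integrable_finsetSum _ fun i _ => iβ i), g.mass,
    integral_finsetSum _ fun i _ => iβ i] at this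
  linarith [g.bad a]

/-- amplitude and phases inside one group -/
theorem group_phases {μ : Measure X} [IsFiniteMeasure μ] {N : ℕ} {L : X → ℝ} {ι : Type} [Fintype ι]
    [DecidableEq ι]
    {ψ β : ι → X → ℝ} {χ : Fin N → X → ℝ} {U : Fin N → Finset ι} {B : Fin N → Set X}
    (h : Atoms μ N L ψ β) (g : Groups μ N L β χ U B) (a : Fin N) (c : ℝ) (hc : 5 / 8 ≤ c)
    (hc1 : c ≤ 1) :
    ∃ (γ : ℝ) (ζ : ι → ℂ), 0 ≤ γ ∧ γ ^ 2 ≤ 1 / 2 ∧ (∀ i, ‖ζ i‖ = 1) ∧
      ∑ i ∈ U a, ∫ x, γ ^ 2 * β i x ^ 2 ∂μ = 1 / 4 ∧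
      ∑ i ∈ U a, ((∫ x, √(1 - γ ^ 2 * (1 - c ^ 2) * β i x ^ 2) * (γ * β i x) ∂μ : ℝ) : ℂ) * ζ i =
        (c / 4 : ℝ) := by
  set M := ∑ i ∈ U a, ∫ x, β i x ^ 2 ∂μ with hM
  have hM2 : 3 / 4 ≤ M := core_mass h g a
  set γ : ℝ := √(1 / (4 * M)) with hγ
  have hγ0 : 0 ≤ γ := Real.sqrt_nonneg _
  have hγ2 : γ ^ 2 = 1 / (4 * M) := Real.sq_sqrt (by positivity)
  have hγM : γ ^ 2 * M = 1 / 4 := by rw [hγ2]; field_simp
  have hγ3 : γ ^ 2 ≤ 1 / 2 := by nlinarith [sq_nonneg γ]
  have hγ1 : γ ≤ 1 := by nlinarith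
  set k := γ ^ 2 * (1 - c ^ 2) with hk
  have hk0 : 0 ≤ k := mul_nonneg (sq_nonneg _) (by nlinarith)
  have hk1 : k ≤ 1 / 2 := by nlinarith [sq_nonneg γ, sq_nonneg c]
  have hs1 : ∀ i x, √(1 - k * β i x ^ 2) ≤ 1 := fun i x =>
    Real.sqrt_le_one.2 (by nlinarith [sq_nonneg (β i x)])
  have hs2 : ∀ i x, 7 / 10 ≤ √(1 - k * β i x ^ 2) := fun i x => by
    apply Real.le_sqrt_of_sq_le
    have : β i x ^ 2 ≤ 1 := by nlinarith [h.β0 i x, h.β1 i x]
    nlinarith
  have hf0 : ∀ i x, 0 ≤ √(1 - k * β i x ^ 2) * (γ * β i x) := fun i x =>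
    mul_nonneg (Real.sqrt_nonneg _) (mul_nonneg hγ0 (h.β0 i x))
  have hf1 : ∀ i x, √(1 - k * β i x ^ 2) * (γ * β i x) ≤ 1 := fun i x =>
    mul_le_one₀ (hs1 i x) (mul_nonneg hγ0 (h.β0 i x)) (mul_le_one₀ hγ1 (h.β0 i x) (h.β1 i x))
  have iw : ∀ i, Integrable (fun x => √(1 - k * β i x ^ 2) * (γ * β i x)) μ := fun i =>
    int_bdd (by have := h.cβ i; fun_prop) 1 fun x => by
      rw [Real.norm_of_nonneg (hf0 i x)]; exact hf1 i x
  have iβ : ∀ i, Integrable (fun x => β i x ^ 2) μ := fun i =>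
    int_bdd ((h.cβ i).pow 2) 1 fun x => by
      rw [Real.norm_of_nonneg (sq_nonneg _)]; nlinarith [h.β0 i x, h.β1 i x]
  obtain ⟨ζ, hζ, hsum⟩ := phases (fun i => ∫ x, √(1 - k * β i x ^ 2) * (γ * β i x) ∂μ) (1 / 20) (c / 4)
    (by linarith) (by norm_num)
    (fun i => ⟨integral_nonneg (hf0 i), le_trans (integral_le_of_indicator (iw i)
      (isOpen_ne_fun (h.cψ i) continuous_const).measurableSet (hf1 i) fun x hx => by
        have h0 : β i x = 0 := by
          by_contra hcon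
          have h1 := h.ψ_one hcon
          have h2 : ψ i x = 0 := by simpa using hx
          rw [h2] at h1
          simp at h1
        simp [h0]) (h.small i)⟩) (U a) (by linarith)
    (by
      have e1 : 7 / 10 * γ * M ≤ ∑ i ∈ U a, ∫ x, √(1 - k * β i x ^ 2) * (γ * β i x) ∂μ := by
        rw [hM, Finset.mul_sum]
        refine Finset.sum_le_sum fun i _ => ?_
        rw [← integral_const_mul]
        refine integral_mono ((iβ i).const_mul _) (iw i) fun x => ?_
        have a1 := h.β0 i x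
        have a2 : β i x ^ 2 ≤ β i x := by nlinarith [h.β1 i x]
        have a3 : 7 / 10 * (γ * β i x) ≤ √(1 - k * β i x ^ 2) * (γ * β i x) :=
          mul_le_mul_of_nonneg_right (hs2 i x) (mul_nonneg hγ0 a1)
        have a4 : γ * β i x ^ 2 ≤ γ * β i x := mul_le_mul_of_nonneg_left a2 hγ0
        dsimp only
        linarith
      have e2 : 1 / 4 ≤ 7 / 10 * γ * M := by
        apply le_of_sq_le_sq' 
        · positivity
        · have : (7 / 10 * γ * M) ^ 2 = 49 / 100 * (γ ^ 2 * M) * M := by ring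
          rw [this, hγM]; linarith
      linarith)
  refine ⟨γ, ζ, hγ0, hγ3, hζ, ?_, hsum⟩
  simp only [integral_const_mul]
  rw [← Finset.mul_sum, hγM]

open EuclideanSpace in
theorem frame {μ : Measure X} [IsFiniteMeasure μ] {N : ℕ} {L : X → ℝ} {ι : Type} [Fintype ι]
    [DecidableEq ι] {ψ β : ι → X → ℝ} (h : Atoms μ N L ψ β) (hN : 0 < N)
    (hμ : μ.real Set.univ = N) (hL : ∀ x, 0 ≤ L x) :
    ∃ u : X → EuclideanSpace ℂ (Fin N), Continuous u ∧ (∀ x, ‖u x‖ = 1) ∧
      (∀ b c, ∫ x, (starRingEnd ℂ) (u x b) * u x c ∂μ = if b = c then 1 else 0) ∧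
      ∀ x y, ‖u y - u x‖ ≤ 5 * L x * dist y x := by
  obtain ⟨χ, U, B, g⟩ := h.groups hN hμ
  obtain ⟨Y, hY, hY1, hY5⟩ := g.exists_Y
  have hYle : ∀ a, Y a a ^ 2 ≤ 1 := fun a => by
    rw [← hY1 a]
    exact Finset.single_le_sum (f := fun b => Y a b ^ 2) (fun _ _ => sq_nonneg _) (Finset.mem_univ a)
  choose γ ζ hγ0 hγ2 hζ hA hB using fun a => group_phases h g a (Y a a) (hY5 a)
    (by nlinarith [hYle a, hY5 a])
  set k : Fin N → ℝ := fun a => γ a ^ 2 * (1 - Y a a ^ 2) with hk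
  have hk0 : ∀ a, 0 ≤ k a := fun a => mul_nonneg (sq_nonneg _) (by linarith [hYle a])
  have hk1 : ∀ a, k a ≤ 1 / 2 := fun a => by
    simp only [hk]; nlinarith [hγ2 a, sq_nonneg (γ a), sq_nonneg (Y a a)]
  set z : Fin N → Fin N → ℝ := fun a b => if b = a then 0 else Y a b with hz
  have hz2 : ∀ a, ∑ b, z a b ^ 2 = 1 - Y a a ^ 2 := fun a => by
    rw [← hY1 a, ← Finset.add_sum_erase _ _ (Finset.mem_univ a),
      ← Finset.add_sum_erase _ (fun b => Y a b ^ 2) (Finset.mem_univ a)]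
    simp only [hz, if_true]
    rw [Finset.sum_congr rfl (g := fun b => Y a b ^ 2)]
    · ring
    · intro b hb; rw [if_neg (Finset.ne_of_mem_erase hb)]
  set Z : Fin N → EuclideanSpace ℂ (Fin N) := fun a => WithLp.toLp 2 fun b => (z a b : ℂ) with hZ
  have hZn : ∀ a, ‖Z a‖ ≤ 1 := fun a => by
    apply le_of_sq_le_sq' zero_le_one
    rw [EuclideanSpace.norm_sq_eq]
    simp only [hZ, Complex.norm_real, Real.norm_eq_abs, sq_abs, hz2]
    nlinarith [sq_nonneg (Y a a)]
  set P : Fin N → ι → ℝ → EuclideanSpace ℂ (Fin N) := fun a i t =>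
    ((√(1 - k a * t ^ 2) - 1 : ℝ) : ℂ) • EuclideanSpace.single a (1 : ℂ) +
      (((γ a * t : ℝ) : ℂ) * ζ a i) • Z a with hP
  have hP0 : ∀ a i, P a i 0 = 0 := fun a i => by simp [hP]
  have hPl : ∀ a i t t', 0 ≤ t → t ≤ 1 → 0 ≤ t' → t' ≤ 1 → ‖P a i t - P a i t'‖ ≤ 2 * |t - t'| := by
    intro a i t t' a0 a1 b0 b1
    have e : P a i t - P a i t' =
        ((√(1 - k a * t ^ 2) - √(1 - k a * t' ^ 2) : ℝ) : ℂ) • EuclideanSpace.single a (1 : ℂ) +
        (((γ a * (t - t') : ℝ) : ℂ) * ζ a i) • Z a := by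
      simp only [hP]
      push_cast
      module
    rw [e]
    refine (norm_add_le _ _).trans ?_
    rw [norm_smul, norm_smul, norm_mul, hζ, Complex.norm_real, Complex.norm_real,
      PiLp.norm_single, norm_one, mul_one, mul_one, Real.norm_eq_abs, Real.norm_eq_abs,
      abs_mul, abs_of_nonneg (hγ0 a)]
    have c1 := sqrt_one_sub_lip (hk0 a) (hk1 a) a0 a1 b0 b1
    have c2 : γ a ≤ 1 := by nlinarith [hγ2 a, hγ0 a]
    have c3 : γ a * |t - t'| * ‖Z a‖ ≤ 1 * |t - t'| * 1 := by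
      gcongr
      exact hZn a
    linarith
  set I : Finset (Σ _ : Fin N, ι) := univ.sigma U with hI
  set u : X → EuclideanSpace ℂ (Fin N) := fun x =>
    WithLp.toLp 2 (fun a => (χ a x : ℂ)) + ∑ p ∈ I, P p.1 p.2 (β p.2 x) with hu
  have huniq : ∀ x, ∀ p ∈ I, ∀ q ∈ I, β p.2 x ≠ 0 → β q.2 x ≠ 0 → q = p := by
    rintro x ⟨a, i⟩ hp ⟨b, j⟩ hq h1 h2
    simp only [hI, Finset.mem_sigma, Finset.mem_univ, true_and] at hp hq
    have e := h.β_unique h1 h2
    simp only at e h1 h2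
    subst e
    have c1 := g.core a j hp x h1 a
    have c2 := g.core b j hq x h1 a
    rw [if_pos rfl] at c1
    have : a = b := by
      by_contra hcon
      rw [if_neg hcon] at c2
      rw [c1] at c2
      exact one_ne_zero c2
    subst this
    rfl
  set Q : Fin N → ι → ℝ → Fin N → Fin N → ℂ := fun a i t b c =>
    ((γ a ^ 2 * t ^ 2 : ℝ) : ℂ) * ((z a b * z a c - (1 - Y a a ^ 2) *
      ((if b = a then 1 else 0) * (if c = a then 1 else 0)) : ℝ) : ℂ) +
    ((√(1 - k a * t ^ 2) * (γ a * t) : ℝ) : ℂ) *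
      (ζ a i * (((if b = a then 1 else 0) * z a c : ℝ) : ℂ) +
        (starRingEnd ℂ) (ζ a i) * ((z a b * (if c = a then 1 else 0) : ℝ) : ℂ)) with hQ
  have hQ0 : ∀ a i b c, Q a i 0 b c = 0 := fun a i b c => by simp [hQ]
  have hgram : ∀ x b c, (starRingEnd ℂ) (u x b) * u x c =
      ((χ b x * χ c x : ℝ) : ℂ) + ∑ p ∈ I, Q p.1 p.2 (β p.2 x) b c := by
    intro x b c
    by_cases hx : ∃ p ∈ I, β p.2 x ≠ 0
    · obtain ⟨p, hp, hpx⟩ := hx
      have hz0 : ∀ q ∈ I, q ≠ p → β q.2 x = 0 := fun q hq hne => by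
        by_contra hcon
        exact hne (huniq x p hp q hq hpx hcon)
      have e1 : ∑ q ∈ I, P q.1 q.2 (β q.2 x) = P p.1 p.2 (β p.2 x) :=
        Finset.sum_eq_single_of_mem p hp fun q hq hne => by rw [hz0 q hq hne, hP0]
      have e2 : ∑ q ∈ I, Q q.1 q.2 (β q.2 x) b c = Q p.1 p.2 (β p.2 x) b c :=
        Finset.sum_eq_single_of_mem p hp fun q hq hne => by rw [hz0 q hq hne, hQ0]
      obtain ⟨a, i⟩ := p
      have hc := g.core a i (by simpa [hI] using hp) x hpx
      simp only at e1 e2 hpx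
      set t := β i x
      have ht : t ^ 2 ≤ 1 := by nlinarith [h.β0 i x, h.β1 i x]
      have hsq : √(1 - k a * t ^ 2) ^ 2 = 1 - k a * t ^ 2 :=
        Real.sq_sqrt (by nlinarith [hk1 a, hk0 a, sq_nonneg t])
      have hsq' : ((√(1 - k a * t ^ 2) : ℝ) : ℂ) ^ 2 =
          1 - (γ a : ℂ) ^ 2 * (1 - (Y a a : ℂ) ^ 2) * (t : ℂ) ^ 2 := by
        have := congrArg (fun r : ℝ => (r : ℂ)) hsq
        simp only [hk] at this ⊢
        push_cast at this
        exact this
      have hζ' : (starRingEnd ℂ) (ζ a i) * ζ a i = 1 := by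
        rw [Complex.conj_mul', hζ]; simp
      have hv : ∀ b, u x b = (if b = a then ((√(1 - k a * t ^ 2) : ℝ) : ℂ) else 0) +
          ((γ a * t : ℝ) : ℂ) * ζ a i * z a b := by
        intro b
        have e3 : u x = WithLp.toLp 2 (fun a => (χ a x : ℂ)) + P a i t := by
          simp only [hu]; rw [e1]
        rw [e3]
        simp only [hP, hZ, PiLp.add_apply, PiLp.smul_apply, hc, smul_eq_mul,
          PiLp.single_apply]
        split_ifs <;> push_cast <;> ring
      rw [e2, hv, hv, hc, hc]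
      simp only [hQ, map_add, map_mul, Complex.conj_ofReal]
      have hza : z a a = 0 := by simp [hz]
      by_cases hb : b = a <;> by_cases hc' : c = a
      · subst hb; subst hc'
        simp only [if_true, hza, Complex.conj_ofReal]
        push_cast
        linear_combination hsq'
      · subst hb
        simp only [if_true, if_neg hc', hza, Complex.conj_ofReal]
        push_cast
        ring
      · subst hc'
        simp only [if_true, if_neg hb, hza, map_zero]
        push_cast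
        ring
      · simp only [if_neg hb, if_neg hc', map_zero]
        push_cast
        linear_combination ((γ a : ℂ) ^ 2 * (t : ℂ) ^ 2 * z a b * z a c) * hζ'
    · push Not at hx
      have e1 : ∑ q ∈ I, P q.1 q.2 (β q.2 x) = 0 :=
        Finset.sum_eq_zero fun q hq => by rw [hx q hq, hP0]
      have e2 : ∑ q ∈ I, Q q.1 q.2 (β q.2 x) b c = 0 :=
        Finset.sum_eq_zero fun q hq => by rw [hx q hq, hQ0]
      simp only [hu, e1, e2, add_zero, Complex.conj_ofReal]
      push_cast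
      rfl
  have htr : ∀ a i t, ∑ b, Q a i t b b = 0 := by
    intro a i t
    have hza : z a a = 0 := by simp [hz]
    simp only [hQ]
    rw [Finset.sum_add_distrib, ← Finset.mul_sum, ← Finset.mul_sum, Finset.sum_add_distrib,
      ← Finset.mul_sum, ← Finset.mul_sum, ← Complex.ofReal_sum, ← Complex.ofReal_sum,
      ← Complex.ofReal_sum, Finset.sum_sub_distrib, ← Finset.mul_sum]
    simp only [← sq, hz2]
    simp [hza]
  refine ⟨u, ?_, ?_, ?_, ?_⟩
  · have c1 := g.cχ
    have c2 := h.cβ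
    simp only [hu, hP]
    fun_prop
  · intro x
    rw [← pow_left_inj₀ (norm_nonneg _) zero_le_one two_ne_zero, EuclideanSpace.norm_sq_eq]
    have e : ((∑ b, ‖u x b‖ ^ 2 : ℝ) : ℂ) = ((∑ b, χ b x ^ 2 : ℝ) : ℂ) := by
      push_cast
      simp only [← Complex.conj_mul', hgram]
      rw [Finset.sum_add_distrib, Finset.sum_comm]
      simp only [htr, Finset.sum_const_zero, add_zero, sq]
      push_cast
      rfl
    rw [g.χ1 x] at e
    rw [one_pow]
    exact_mod_cast e
  · intro b c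
    have i1 : ∀ a i, Integrable (fun x => γ a ^ 2 * β i x ^ 2) μ := fun a i =>
      (int_bdd (f := fun x => β i x ^ 2) ((h.cβ i).pow 2) 1 fun x => by
        rw [Real.norm_of_nonneg (sq_nonneg _)]; nlinarith [h.β0 i x, h.β1 i x]).const_mul _
    have i2 : ∀ a i, Integrable (fun x => √(1 - k a * β i x ^ 2) * (γ a * β i x)) μ := fun a i =>
      int_bdd (by have := h.cβ i; fun_prop) 1 fun x => by
        have s1 : √(1 - k a * β i x ^ 2) ≤ 1 :=
          Real.sqrt_le_one.2 (by nlinarith [sq_nonneg (β i x), hk0 a])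
        have s2 : γ a ≤ 1 := by nlinarith [hγ2 a, hγ0 a]
        rw [Real.norm_of_nonneg
          (mul_nonneg (Real.sqrt_nonneg _) (mul_nonneg (hγ0 a) (h.β0 i x)))]
        exact mul_le_one₀ s1 (mul_nonneg (hγ0 a) (h.β0 i x))
          (mul_le_one₀ s2 (h.β0 i x) (h.β1 i x))
    have i3 : ∀ a i, Integrable (fun x => Q a i (β i x) b c) μ := fun a i =>
      ((i1 a i).ofReal.mul_const _).add ((i2 a i).ofReal.mul_const _)
    simp only [hgram]
    rw [integral_add (g.int_mul b c).ofReal (integrable_finsetSum _ fun p _ => i3 p.1 p.2),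
      integral_finsetSum _ fun p _ => i3 p.1 p.2, integral_complex_ofReal, hI, Finset.sum_sigma]
    have e : ∀ a, ∑ i ∈ U a, ∫ x, Q a i (β i x) b c ∂μ =
        ((1 / 4 * (Y a b * Y a c - (if b = a then 1 else 0) * (if c = a then 1 else 0)) : ℝ) : ℂ) := by
      intro a
      have e1 : ∀ i, ∫ x, Q a i (β i x) b c ∂μ =
          ((∫ x, γ a ^ 2 * β i x ^ 2 ∂μ : ℝ) : ℂ) * ((z a b * z a c - (1 - Y a a ^ 2) *
            ((if b = a then 1 else 0) * (if c = a then 1 else 0)) : ℝ) : ℂ) +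
          (((∫ x, √(1 - k a * β i x ^ 2) * (γ a * β i x) ∂μ : ℝ) : ℂ) * ζ a i *
            (((if b = a then 1 else 0) * z a c : ℝ) : ℂ) +
          (starRingEnd ℂ) (((∫ x, √(1 - k a * β i x ^ 2) * (γ a * β i x) ∂μ : ℝ) : ℂ) * ζ a i) *
            ((z a b * (if c = a then 1 else 0) : ℝ) : ℂ)) := by
        intro i
        simp only [hQ]
        rw [integral_add ((i1 a i).ofReal.mul_const _) ((i2 a i).ofReal.mul_const _),
          integral_mul_const, integral_mul_const, integral_complex_ofReal,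
          integral_complex_ofReal, map_mul, Complex.conj_ofReal]
        ring
      simp only [e1]
      rw [Finset.sum_add_distrib, Finset.sum_add_distrib, ← Finset.sum_mul, ← Finset.sum_mul,
        ← Finset.sum_mul, ← map_sum, ← Complex.ofReal_sum, hA a, hB a, Complex.conj_ofReal]
      norm_cast
      simp only [hz]
      by_cases hb : b = a <;> by_cases hc : c = a <;> simp [hb, hc] <;> ring
    simp only [e]
    rw [← Complex.ofReal_sum, ← Finset.mul_sum, Finset.sum_sub_distrib, hY]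
    by_cases hbc : b = c
    · subst hbc; simp; ring
    · have : ∑ a, (if b = a then (1 : ℝ) else 0) * (if c = a then 1 else 0) = 0 :=
        Finset.sum_eq_zero fun a _ => by
          by_cases hb : b = a
          · rw [if_neg (fun hc : c = a => hbc (hb.trans hc.symm)), mul_zero]
          · rw [if_neg hb, zero_mul]
      rw [this]
      simp [hbc]
  · intro x y
    have hd : 0 ≤ L x * dist y x := mul_nonneg (hL x) dist_nonneg
    have e : u y - u x = WithLp.toLp 2 (fun a => ((χ a y - χ a x : ℝ) : ℂ)) +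
        ∑ p ∈ I with (β p.2 x ≠ 0 ∨ β p.2 y ≠ 0), (P p.1 p.2 (β p.2 y) - P p.1 p.2 (β p.2 x)) := by
      rw [Finset.sum_filter_of_ne, Finset.sum_sub_distrib]
      · simp only [hu]
        ext a
        simp only [PiLp.add_apply, PiLp.sub_apply]
        push_cast
        ring
      · intro p _ hne
        by_contra hcon
        push Not at hcon
        rw [hcon.1, hcon.2, sub_self] at hne
        exact hne rfl
    have c1 : ‖(WithLp.toLp 2 (fun a => ((χ a y - χ a x : ℝ) : ℂ)) : EuclideanSpace ℂ (Fin N))‖ ≤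
        L x * dist y x := by
      apply le_of_sq_le_sq' hd
      rw [EuclideanSpace.norm_sq_eq]
      simp only [Complex.norm_real, Real.norm_eq_abs, sq_abs]
      exact g.lχ x y
    have c2 : (I.filter fun p => β p.2 x ≠ 0 ∨ β p.2 y ≠ 0).card ≤ 2 := by
      rw [Finset.filter_or]
      refine (Finset.card_union_le _ _).trans ?_
      have : ∀ w, (I.filter fun p => β p.2 w ≠ 0).card ≤ 1 := fun w =>
        Finset.card_le_one.2 fun p hp q hq =>
          huniq w q (Finset.mem_filter.1 hq).1 p (Finset.mem_filter.1 hp).1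
            (Finset.mem_filter.1 hq).2 (Finset.mem_filter.1 hp).2
      linarith [this x, this y]
    have c3 : ‖∑ p ∈ I with (β p.2 x ≠ 0 ∨ β p.2 y ≠ 0),
        (P p.1 p.2 (β p.2 y) - P p.1 p.2 (β p.2 x))‖ ≤ 2 * (2 * (L x * dist y x)) := by
      refine (norm_sum_le _ _).trans ?_
      refine (Finset.sum_le_card_nsmul _ _ (2 * (L x * dist y x)) fun p _ => ?_).trans ?_
      · refine (hPl _ _ _ _ (h.β0 _ _) (h.β1 _ _) (h.β0 _ _) (h.β1 _ _)).trans ?_
        linarith [h.lβ p.2 x y]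
      · rw [nsmul_eq_mul]
        have : ((I.filter fun p => β p.2 x ≠ 0 ∨ β p.2 y ≠ 0).card : ℝ) ≤ 2 := by exact_mod_cast c2
        exact mul_le_mul_of_nonneg_right this (by linarith)
    rw [e]
    refine (norm_add_le _ _).trans ?_
    linarith

end Pool.Agent.MP_2c73ad_mp.H42
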