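import Pool.Agent.MP_2c73ad_mp.H42.Groups

/-! Construction of the atoms from a Lipschitz length scale. -/

open Finset MeasureTheory Metric

namespace Pool.Agent.MP_2c73ad_mp.H42

/-- cell size at level `j` -/
noncomputable def ell (j : ℤ) : ℝ := Real.exp (j - 1) / 2

/-- clamp to `[-R, R]` -/
noncomputable def clampR (R y : ℝ) : ℝ := max (-R) (min R y)

/-- distance to the centre of the cell `w` in logarithmic and rescaled coordinates -/
noncomputable def sig (r : (Fin 3 → ℝ) → ℝ) (R t : ℝ) (w : ℤ × (Fin 3 → ℤ)) (x : Fin 3 → ℝ) : ℝ :=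
  ‖((Real.log (r x) - t - 1 / 2 - w.1, fun i => clampR R (x i) / ell w.1 - t - 1 / 2 - w.2 i) :
    ℝ × (Fin 3 → ℝ))‖

theorem ell_pos (j : ℤ) : 0 < ell j := by unfold ell; positivity

theorem clampR_lip (R x y : ℝ) : |clampR R x - clampR R y| ≤ |x - y| := by
  unfold clampR
  refine (abs_max_sub_max_le_max _ _ _ _).trans (max_le (by simp) ?_)
  refine (abs_min_sub_min_le_max _ _ _ _).trans (max_le (by simp) le_rfl)

theorem abs_clampR_le {R : ℝ} (hR : 0 ≤ R) (y : ℝ) : |clampR R y| ≤ R := by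
  unfold clampR
  rw [abs_le]
  exact ⟨le_max_left _ _, max_le (by linarith) (min_le_left _ _)⟩

theorem abs_clampR_le' {R : ℝ} (hR : 0 ≤ R) (y : ℝ) : |clampR R y| ≤ |y| := by
  have := clampR_lip R y 0
  have e : clampR R 0 = 0 := by unfold clampR; rw [min_eq_right hR]; exact max_eq_right (by linarith)
  simpa [e] using this

theorem clampR_of_lt {R y : ℝ} (h : |y| < R) : clampR R y = y := by
  unfold clampR
  rw [abs_lt] at h
  rw [min_eq_right h.2.le, max_eq_right h.1.le]

theorem abs_clampR_of_le {R y : ℝ} (hR : 0 ≤ R) (h : R ≤ |y|) : |clampR R y| = R := by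
  unfold clampR
  rcases le_abs'.1 h with h | h
  · rw [max_eq_left ((min_le_right _ _).trans h), abs_neg, abs_of_nonneg hR]
  · rw [min_eq_left h, max_eq_right (by linarith), abs_of_nonneg hR]

variable {r : (Fin 3 → ℝ) → ℝ} {R t : ℝ} {w : ℤ × (Fin 3 → ℤ)} {x : Fin 3 → ℝ}

theorem sig_lt_iff {c : ℝ} (hc : 0 < c) : sig r R t w x < c ↔
    |Real.log (r x) - t - 1 / 2 - w.1| < c ∧
      ∀ i, |clampR R (x i) / ell w.1 - t - 1 / 2 - w.2 i| < c := by
  unfold sig
  rw [Prod.norm_def, max_lt_iff, pi_norm_lt_iff hc]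
  rfl

theorem sig_le_iff {c : ℝ} (hc : 0 ≤ c) : sig r R t w x ≤ c ↔
    |Real.log (r x) - t - 1 / 2 - w.1| ≤ c ∧
      ∀ i, |clampR R (x i) / ell w.1 - t - 1 / 2 - w.2 i| ≤ c := by
  unfold sig
  rw [Prod.norm_def, max_le_iff, pi_norm_le_iff_of_nonneg hc]
  rfl

theorem int_sep {y c : ℝ} {m n : ℤ} (h1 : |y - m| < 1 - c) (h2 : |y - n| < c) : m = n := by
  have : |((m - n : ℤ) : ℝ)| < 1 := by
    push_cast
    rw [abs_lt] at *
    constructor <;> linarith [h1.1, h1.2, h2.1, h2.2]
  have : |m - n| < 1 := by exact_mod_cast this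
  have := Int.abs_lt_one_iff.1 this
  omega

theorem sig_sep {w' : ℤ × (Fin 3 → ℤ)} {c : ℝ} (hc : 0 < c) (hc1 : c < 1)
    (h1 : sig r R t w x < 1 - c) (h2 : sig r R t w' x < c) : w = w' := by
  rw [sig_lt_iff (by linarith)] at h1
  rw [sig_lt_iff hc] at h2
  have e : w.1 = w'.1 := int_sep h1.1 h2.1
  refine Prod.ext e (funext fun i => ?_)
  have := h2.2 i
  rw [← e] at this
  exact int_sep (h1.2 i) this

theorem mem_Icc_floor {y : ℝ} {n : ℤ} (h : |y - n| < 1) : n ∈ Icc ⌊y⌋ (⌊y⌋ + 1) := by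
  rw [abs_lt] at h
  have h1 := Int.floor_le y
  have h2 := Int.lt_floor_add_one y
  rw [Finset.mem_Icc]
  constructor
  · have : ((⌊y⌋ : ℤ) : ℝ) < (n + 1 : ℤ) := by push_cast; linarith
    have := Int.cast_lt.1 this
    omega
  · have : (n : ℝ) < (⌊y⌋ + 2 : ℤ) := by push_cast; linarith
    have := Int.cast_lt.1 this
    omega

theorem card_active (I : Finset (ℤ × (Fin 3 → ℤ))) (r : (Fin 3 → ℝ) → ℝ) (R t : ℝ)
    (x : Fin 3 → ℝ) : (univ.filter fun w : I => sig r R t w x < 1).card ≤ 16 := by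
  set A : Finset (ℤ × (Fin 3 → ℤ)) :=
    (Icc ⌊Real.log (r x) - t - 1 / 2⌋ (⌊Real.log (r x) - t - 1 / 2⌋ + 1)).biUnion fun j =>
      (Fintype.piFinset fun i => Icc ⌊clampR R (x i) / ell j - t - 1 / 2⌋
        (⌊clampR R (x i) / ell j - t - 1 / 2⌋ + 1)).image fun z => (j, z) with hA
  have h2 : ∀ a : ℤ, (Icc a (a + 1)).card = 2 := fun a => by
    rw [Int.card_Icc]
    have : a + 1 + 1 - a = 2 := by ring
    rw [this]; rfl
  have h1 : A.card ≤ 16 := by
    refine (Finset.card_biUnion_le_card_mul _ _ 8 fun j _ => ?_).trans ?_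
    · refine Finset.card_image_le.trans ?_
      simp only [Fintype.card_piFinset, h2]
      simp
    · rw [h2]
  refine le_trans ?_ h1
  refine Finset.card_le_card_of_injOn (fun w => w.1) ?_ (fun a _ b _ h => Subtype.ext h)
  intro w hw
  have hw' := (sig_lt_iff one_pos).1 (Finset.mem_filter.1 hw).2
  simp only [hA, Finset.coe_biUnion, Finset.coe_image, Set.mem_iUnion, Set.mem_image,
    Finset.mem_coe]
  exact ⟨w.1.1, mem_Icc_floor hw'.1, w.1.2, Fintype.mem_piFinset.2 fun i => mem_Icc_floor (hw'.2 i),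
    rfl⟩

theorem log_lip {a b : ℝ} (ha : 0 < a) (hb : a / 2 ≤ b) : |Real.log b - Real.log a| ≤ 2 / a * |b - a| := by
  have hb0 : 0 < b := by linarith
  have h1 : Real.log b - Real.log a ≤ (b - a) / a := by
    rw [← Real.log_div hb0.ne' ha.ne']
    have := Real.log_le_sub_one_of_pos (div_pos hb0 ha)
    rwa [div_sub_one ha.ne'] at this
  have h2 : Real.log a - Real.log b ≤ (a - b) / b := by
    rw [← Real.log_div ha.ne' hb0.ne']
    have := Real.log_le_sub_one_of_pos (div_pos ha hb0)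
    rwa [div_sub_one hb0.ne'] at this
  have h3 : (b - a) / a ≤ 2 / a * |b - a| := by
    rw [div_mul_eq_mul_div]
    gcongr
    linarith [le_abs_self (b - a), abs_nonneg (b - a)]
  have h4 : (a - b) / b ≤ 2 / a * |b - a| := by
    have : a - b ≤ |b - a| := by rw [abs_sub_comm]; exact le_abs_self _
    calc (a - b) / b ≤ |b - a| / b := by gcongr
      _ ≤ |b - a| / (a / 2) := by gcongr
      _ = 2 / a * |b - a| := by field_simp
  rw [abs_le]; constructor <;> linarith

theorem sig_lip (hr : LipschitzWith 1 r) (hpos : ∀ x, 0 < r x) (ht : t < 1) {y : Fin 3 → ℝ}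
    (hd : dist y x ≤ r x / 2) (hact : sig r R t w x < 1 ∨ sig r R t w y < 1) :
    |sig r R t w y - sig r R t w x| ≤ 324 / r x * dist y x := by
  have hx := hpos x
  have hrl : |r y - r x| ≤ dist y x := by simpa [Real.dist_eq] using hr.dist_le_mul y x
  have hry : r x / 2 ≤ r y := by linarith [(abs_le.1 hrl).1]
  have hexp : ∀ p, sig r R t w p < 1 → r p ≤ 162 * ell w.1 := by
    intro p hp
    have h1 := (abs_lt.1 ((sig_lt_iff one_pos).1 hp).1).2
    have h2 : r p ≤ Real.exp (w.1 - 1) * Real.exp 1 ^ 4 := by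
      rw [← Real.exp_log (hpos p), ← Real.exp_nat_mul, ← Real.exp_add]
      apply Real.exp_le_exp.2
      push_cast; linarith
    have h3 : Real.exp 1 ^ 4 ≤ 3 ^ 4 := by
      gcongr
      linarith [Real.exp_one_lt_d9]
    have h4 := Real.exp_pos (w.1 - 1 : ℝ)
    unfold ell
    nlinarith
  have hell : r x ≤ 324 * ell w.1 := by
    rcases hact with h | h
    · linarith [hexp x h, ell_pos w.1]
    · linarith [hexp y h]
  unfold sig
  refine (abs_norm_sub_norm_le _ _).trans ?_
  have hnn : 0 ≤ 324 / r x * dist y x := by positivity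
  rw [Prod.norm_def, max_le_iff, pi_norm_le_iff_of_nonneg hnn]
  constructor
  · simp only [Prod.fst_sub, Real.norm_eq_abs]
    have := log_lip hx hry
    calc _ = |Real.log (r y) - Real.log (r x)| := by congr 1; ring
      _ ≤ 2 / r x * |r y - r x| := this
      _ ≤ 324 / r x * dist y x := by gcongr; norm_num
  · intro i
    simp only [Prod.snd_sub, Pi.sub_apply, Real.norm_eq_abs]
    have h1 := ell_pos w.1
    have h2 : |y i - x i| ≤ dist y x := by simpa [Real.dist_eq] using dist_le_pi_dist y x i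
    calc _ = |(clampR R (y i) - clampR R (x i)) / ell w.1| := by congr 1; ring
      _ = |clampR R (y i) - clampR R (x i)| / ell w.1 := by rw [abs_div, abs_of_pos h1]
      _ ≤ dist y x / ell w.1 := by gcongr; exact (clampR_lip _ _ _).trans h2
      _ = 1 / ell w.1 * dist y x := by ring
      _ ≤ 324 / r x * dist y x := by
        gcongr ?_ * _
        rw [div_le_div_iff₀ h1 hx]; linarith

theorem sig_cont (hr : LipschitzWith 1 r) (hpos : ∀ x, 0 < r x) : Continuous (sig r R t w) := by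
  unfold sig clampR
  have := hr.continuous.log fun x => (hpos x).ne'
  fun_prop

theorem normalize_lip {ι : Type*} [Fintype ι] (p q : ι → ℝ) (hp : 1 ≤ ∑ i, p i ^ 2)
    (hq : 1 ≤ ∑ i, q i ^ 2) :
    ∑ i, (p i / √(∑ i, p i ^ 2) - q i / √(∑ i, q i ^ 2)) ^ 2 ≤ ∑ i, (p i - q i) ^ 2 := by
  set a := √(∑ i, p i ^ 2)
  set b := √(∑ i, q i ^ 2)
  have ha : 1 ≤ a := Real.one_le_sqrt.2 hp
  have hb : 1 ≤ b := Real.one_le_sqrt.2 hq
  have ea : a ^ 2 = ∑ i, p i ^ 2 := Real.sq_sqrt (by linarith)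
  have eb : b ^ 2 = ∑ i, q i ^ 2 := Real.sq_sqrt (by linarith)
  have hab : 1 ≤ a * b := one_le_mul_of_one_le_of_one_le ha hb
  set D := ∑ i, (p i / a - q i / b) ^ 2 with hD
  have hD0 : 0 ≤ D := Finset.sum_nonneg fun i _ => sq_nonneg _
  have e1 : a * b * D = (∑ i, p i ^ 2) * (b / a) + (∑ i, q i ^ 2) * (a / b) - 2 * ∑ i, p i * q i := by
    rw [hD, Finset.mul_sum, Finset.sum_mul, Finset.sum_mul, Finset.mul_sum, ← Finset.sum_add_distrib,
      ← Finset.sum_sub_distrib]
    refine Finset.sum_congr rfl fun i _ => ?_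
    field_simp
    ring
  have e2 : ∑ i, (p i - q i) ^ 2 = ∑ i, p i ^ 2 + ∑ i, q i ^ 2 - 2 * ∑ i, p i * q i := by
    rw [Finset.mul_sum, ← Finset.sum_add_distrib, ← Finset.sum_sub_distrib]
    exact Finset.sum_congr rfl fun i _ => by ring
  rw [← ea, ← eb] at e1
  rw [e2, ← ea, ← eb]
  have e3 : a ^ 2 * (b / a) = a * b := by field_simp
  have e4 : b ^ 2 * (a / b) = a * b := by field_simp
  rw [e3, e4] at e1
  nlinarith [sq_nonneg (a - b)]

open Classical in
theorem shift_count (M : ℕ) (hM : 0 < M) (y : ℝ) :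
    ((range M).filter fun k : ℕ => ∃ n : ℤ, |y - k / M - n| < 1 / (2 * M)).card ≤ 1 := by
  have hM' : (0 : ℝ) < M := by exact_mod_cast hM
  refine Finset.card_le_one.2 fun k hk k' hk' => ?_
  simp only [Finset.mem_filter, Finset.mem_range] at hk hk'
  obtain ⟨h1, n, hn⟩ := hk
  obtain ⟨h2, n', hn'⟩ := hk'
  have key : ∀ (k : ℕ) (n : ℤ), |y - k / M - n| < 1 / (2 * M) →
      |y * M - ((k + M * n : ℤ) : ℝ)| < 1 / 2 := by
    intro k n h
    have e : y * M - ((k + M * n : ℤ) : ℝ) = (y - k / M - n) * M := by push_cast; field_simp; ring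
    rw [e, abs_mul, abs_of_pos hM']
    calc _ < 1 / (2 * M) * (M : ℝ) := by gcongr
      _ = 1 / 2 := by field_simp
  have e : (k + M * n : ℤ) = k' + M * n' := int_sep (c := 1 / 2) (by linarith [key k n hn]) (key k' n' hn')
  have e1 : (k + M * n : ℤ) % M = (k' + M * n') % M := by rw [e]
  rw [Int.add_mul_emod_self_left, Int.add_mul_emod_self_left,
    Int.emod_eq_of_lt (by omega) (by omega), Int.emod_eq_of_lt (by omega) (by omega)] at e1
  omega

theorem near_half {y c : ℝ} {n : ℤ} (h1 : 1 / 2 - c < |y - 1 / 2 - n|) (h2 : |y - 1 / 2 - n| < 1 / 2 + c) :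
    ∃ m : ℤ, |y - m| < c := by
  rcases le_total 0 (y - 1 / 2 - n) with h | h
  · rw [abs_of_nonneg h] at h1 h2
    exact ⟨n + 1, by push_cast; rw [abs_lt]; constructor <;> linarith⟩
  · rw [abs_of_nonpos h] at h1 h2
    exact ⟨n, by rw [abs_lt]; constructor <;> linarith⟩

open Classical in
theorem bad_shifts (r : (Fin 3 → ℝ) → ℝ) (R : ℝ) (M : ℕ) (hM : 0 < M) (x : Fin 3 → ℝ) :
    ((range M).filter fun k : ℕ => ∃ w, 1 / 2 - 1 / (2 * M) < sig r R (k / M) w x ∧
      sig r R (k / M) w x < 1 / 2 + 1 / (2 * M)).card ≤ 13 := by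
  have hM' : (1 : ℝ) ≤ M := by exact_mod_cast hM
  have hc : 1 / (2 * M : ℝ) ≤ 1 / 2 := by gcongr; linarith
  have hc0 : 0 < 1 / (2 * M : ℝ) := by positivity
  set F : ℝ → Finset ℕ := fun y =>
    (range M).filter fun k : ℕ => ∃ n : ℤ, |y - k / M - n| < 1 / (2 * M) with hF
  set a := ⌊Real.log (r x)⌋
  have hsub : ((range M).filter fun k : ℕ => ∃ w, 1 / 2 - 1 / (2 * M) < sig r R (k / M) w x ∧
      sig r R (k / M) w x < 1 / 2 + 1 / (2 * M)) ⊆ F (Real.log (r x)) ∪
      (Icc (a - 2) (a + 1) ×ˢ (univ : Finset (Fin 3))).biUnion fun p =>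
        F (clampR R (x p.2) / ell p.1) := by
    intro k hk
    simp only [Finset.mem_filter] at hk
    obtain ⟨hk, w, h1, h2⟩ := hk
    rw [sig_lt_iff (by linarith)] at h2
    rw [← not_le, sig_le_iff (by linarith), not_and_or] at h1
    rcases h1 with h1 | h1
    · exact Finset.mem_union_left _ (Finset.mem_filter.2 ⟨hk, near_half (not_le.1 h1) h2.1⟩)
    · push Not at h1
      obtain ⟨i, hi⟩ := h1
      refine Finset.mem_union_right _ (Finset.mem_biUnion.2 ⟨(w.1, i), ?_,
        Finset.mem_filter.2 ⟨hk, near_half hi (h2.2 i)⟩⟩)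
      have k0 : (0 : ℝ) ≤ k / M := by positivity
      have k1 : (k : ℝ) / M < 1 := by
        rw [div_lt_one (by linarith)]; exact_mod_cast Finset.mem_range.1 hk
      have f1 := Int.floor_le (Real.log (r x))
      have f2 := Int.lt_floor_add_one (Real.log (r x))
      have h3 := abs_lt.1 h2.1
      simp only [Finset.mem_product, Finset.mem_Icc, Finset.mem_univ, and_true]
      constructor
      · have : ((a - 3 : ℤ) : ℝ) < w.1 := by push_cast; linarith
        have := Int.cast_lt.1 this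
        omega
      · have : (w.1 : ℝ) < (a + 2 : ℤ) := by push_cast; linarith
        have := Int.cast_lt.1 this
        omega
  refine (Finset.card_le_card hsub).trans ((Finset.card_union_le _ _).trans ?_)
  have c1 := shift_count M hM (Real.log (r x))
  have c2 := Finset.card_biUnion_le_card_mul (Icc (a - 2) (a + 1) ×ˢ (univ : Finset (Fin 3)))
    (fun p => F (clampR R (x p.2) / ell p.1)) 1 fun p _ => shift_count M hM _
  have c3 : (Icc (a - 2) (a + 1) ×ˢ (univ : Finset (Fin 3))).card = 12 := by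
    have : a + 1 + 1 - (a - 2) = 4 := by ring
    simp [Finset.card_product, this]
  simp only [hF] at *
  omega

theorem exists_box (hpos : ∀ x, 0 < r x) {r0 R1 : ℝ} (h0 : 0 < r0) (hlo : ∀ x, r0 ≤ r x)
    (hhi : ∀ x, r x ≤ R1) (hR : 0 ≤ R) :
    ∃ I : Finset (ℤ × (Fin 3 → ℤ)), ∀ t, 0 ≤ t → t < 1 → ∀ x, ∃ w ∈ I, sig r R t w x ≤ 1 / 2 := by
  have hfl : ∀ y : ℝ, |y - 1 / 2 - (⌊y⌋ : ℤ)| ≤ 1 / 2 := fun y => by
    rw [abs_le]; constructor <;> linarith [Int.floor_le y, Int.lt_floor_add_one y]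
  set a : ℤ := ⌊Real.log r0 - 1⌋
  set b : ℤ := ⌊Real.log R1⌋
  refine ⟨Icc a b ×ˢ Fintype.piFinset fun _ => Icc ⌊-(R / ell a) - 1⌋ ⌊R / ell a⌋, ?_⟩
  intro t t0 t1 x
  have hj : ⌊Real.log (r x) - t⌋ ∈ Icc a b := by
    rw [Finset.mem_Icc]
    constructor
    · apply Int.floor_mono; linarith [Real.log_le_log h0 (hlo x)]
    · apply Int.floor_mono; linarith [Real.log_le_log (hpos x) (hhi x)]
  refine ⟨(⌊Real.log (r x) - t⌋, fun i => ⌊clampR R (x i) / ell ⌊Real.log (r x) - t⌋ - t⌋), ?_, ?_⟩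
  · refine Finset.mem_product.2 ⟨hj, Fintype.mem_piFinset.2 fun i => ?_⟩
    have h1 : ell a ≤ ell ⌊Real.log (r x) - t⌋ := by
      unfold ell
      have : (a : ℝ) ≤ (⌊Real.log (r x) - t⌋ : ℤ) := by exact_mod_cast (Finset.mem_Icc.1 hj).1
      gcongr
    have h2 : |clampR R (x i) / ell ⌊Real.log (r x) - t⌋| ≤ R / ell a := by
      rw [abs_div, abs_of_pos (ell_pos _)]
      have := ell_pos a
      gcongr
      exact abs_clampR_le hR _
    rw [abs_le] at h2
    rw [Finset.mem_Icc]
    constructor <;> apply Int.floor_mono <;> linarith [h2.1, h2.2]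
  · rw [sig_le_iff (by norm_num)]
    exact ⟨hfl _, fun i => hfl _⟩

theorem small_cell (μ : Measure (Fin 3 → ℝ)) [IsFiniteMeasure μ] (hpos : ∀ x, 0 < r x) {R0 R1 δ : ℝ}
    (hhi : ∀ x, r x ≤ R1) (hR0 : 0 ≤ R0) (hball : ∀ x, μ.real (ball x (r x)) ≤ δ)
    (hout : μ.real {y | R0 ≤ ‖y‖} ≤ δ) (ht : 0 ≤ t) {c : ℝ} (hc0 : 0 < c) (hc : c ≤ 1) :
    μ.real {x | sig r (R0 + R1) t w x < c} ≤ δ := by
  set S := {x | sig r (R0 + R1) t w x < c}
  have hR1 : 0 < R1 := (hpos 0).trans_le (hhi 0)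
  have hl := ell_pos w.1
  have hclose : ∀ x ∈ S, ∀ y ∈ S, ∀ i, |clampR (R0 + R1) (y i) - clampR (R0 + R1) (x i)| < r x := by
    intro x hx y hy i
    have hx' := (sig_lt_iff hc0).1 hx
    have hy' := (sig_lt_iff hc0).1 hy
    have h1 : 2 * ell w.1 ≤ r x := by
      unfold ell
      rw [← Real.exp_log (hpos x)]
      have : Real.exp (w.1 - 1) ≤ Real.exp (Real.log (r x)) :=
        Real.exp_le_exp.2 (by linarith [(abs_lt.1 hx'.1).1])
      linarith
    have h2 : |(clampR (R0 + R1) (y i) - clampR (R0 + R1) (x i)) / ell w.1| < 2 := by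
      have a := abs_lt.1 (hx'.2 i)
      have b := abs_lt.1 (hy'.2 i)
      rw [sub_div, abs_lt]; constructor <;> linarith [a.1, a.2, b.1, b.2]
    rw [abs_div, abs_of_pos hl, div_lt_iff₀ hl] at h2
    linarith
  by_cases hc : ∃ x ∈ S, ∃ i, R0 + R1 ≤ |x i|
  · obtain ⟨x, hx, i, hi⟩ := hc
    refine le_trans (measureReal_mono fun y hy => ?_) hout
    have h1 := hclose x hx y hy i
    have h2 := abs_clampR_of_le (by linarith) hi
    have h3 := abs_clampR_le' (R := R0 + R1) (by linarith) (y i)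
    have h4 := abs_sub_abs_le_abs_sub (clampR (R0 + R1) (x i)) (clampR (R0 + R1) (y i))
    rw [abs_sub_comm] at h4
    have h5 : |y i| ≤ ‖y‖ := by simpa using norm_le_pi_norm y i
    show R0 ≤ ‖y‖
    linarith [hhi x]
  · push Not at hc
    rcases S.eq_empty_or_nonempty with h | ⟨x, hx⟩
    · rw [h]; exact le_trans (by simp) (measureReal_nonneg.trans hout)
    · refine le_trans (measureReal_mono fun y hy => ?_) (hball x)
      rw [mem_ball, dist_pi_lt_iff (hpos x)]
      intro i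
      have := hclose x hx y hy i
      rwa [clampR_of_lt (hc x hx i), clampR_of_lt (hc y hy i)] at this

theorem exists_out (μ : Measure (Fin 3 → ℝ)) [IsFiniteMeasure μ] {δ : ℝ} (hδ : 0 < δ) :
    ∃ R0 : ℝ, 0 ≤ R0 ∧ μ.real {y | R0 ≤ ‖y‖} ≤ δ := by
  have h := tendsto_measure_iInter_atTop (μ := μ) (s := fun n : ℕ => {y : Fin 3 → ℝ | (n : ℝ) ≤ ‖y‖})
    (fun n => (isClosed_le continuous_const continuous_norm).measurableSet.nullMeasurableSet)
    (fun m n hmn y hy => le_trans (show (m : ℝ) ≤ n by exact_mod_cast hmn) hy) ⟨0, measure_ne_top _ _⟩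
  have e : (⋂ n : ℕ, {y : Fin 3 → ℝ | (n : ℝ) ≤ ‖y‖}) = ∅ := by
    ext y
    simp only [Set.mem_iInter, Set.mem_empty_iff_false, iff_false, not_forall]
    obtain ⟨n, hn⟩ := exists_nat_gt ‖y‖
    exact ⟨n, not_le.2 hn⟩
  rw [e, measure_empty] at h
  obtain ⟨n, hn⟩ := (h.eventually (gt_mem_nhds (ENNReal.ofReal_pos.2 hδ))).exists
  exact ⟨n, Nat.cast_nonneg n, ENNReal.toReal_le_of_le_ofReal hδ.le hn.le⟩

theorem cl_div_lip (a s s' η : ℝ) (hη : 0 < η) :
    |cl ((a - s') / η) - cl ((a - s) / η)| ≤ |s' - s| / η := by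
  refine (cl_lip _ _).trans (le_of_eq ?_)
  rw [← sub_div, abs_div, abs_of_pos hη, ← abs_neg]
  congr 2; ring

theorem cl_div_ne_zero {a s η : ℝ} (hη : 0 < η) : cl ((a - s) / η) ≠ 0 ↔ s < a := by
  constructor
  · intro h
    by_contra hcon
    exact h (cl_of_nonpos (div_nonpos_of_nonpos_of_nonneg (by linarith) hη.le))
  · intro h
    have : 0 < (a - s) / η := div_pos (by linarith) hη
    unfold cl
    exact (lt_max_of_lt_right (lt_min one_pos this)).ne'

theorem cl_cont : Continuous cl := by unfold cl; fun_prop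

theorem exists_atoms : ∃ C : ℝ, 0 < C ∧ ∀ (μ : Measure (Fin 3 → ℝ)) [IsFiniteMeasure μ] (N : ℕ)
    (r : (Fin 3 → ℝ) → ℝ) (r0 R1 : ℝ), μ.real Set.univ = N → LipschitzWith 1 r → 0 < r0 →
    (∀ x, r0 ≤ r x) → (∀ x, r x ≤ R1) → (∀ x, μ.real (ball x (r x)) ≤ 1 / 20) →
    ∃ (I : Finset (ℤ × (Fin 3 → ℤ))) (ψ β : I → (Fin 3 → ℝ) → ℝ),
      Atoms μ N (fun x => C / r x) ψ β := by
  classical
  refine ⟨6 * 324 * 16640, by norm_num, ?_⟩
  intro μ _ N r r0 R1 hμ hr h0 hlo hhi hball
  have hpos : ∀ x, 0 < r x := fun x => h0.trans_le (hlo x)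
  obtain ⟨R0, hR0, hout⟩ := exists_out μ (δ := 1 / 20) (by norm_num)
  have hR1 : 0 < R1 := (hpos 0).trans_le (hhi 0)
  set R := R0 + R1
  obtain ⟨I, hI⟩ := exists_box (R := R) hpos h0 hlo hhi (by positivity)
  refine ⟨I, ?_⟩
  set η : ℝ := 1 / 16640 with hη
  have hη0 : 0 < η := by norm_num [hη]
  set T : ℕ → I → Set (Fin 3 → ℝ) := fun k w =>
    {x | 1 / 2 - 2 * η < sig r R (k / (4160 : ℕ)) w x ∧ sig r R (k / (4160 : ℕ)) w x < 1 / 2 + η}
    with hT
  have mT : ∀ k w, MeasurableSet (T k w) := fun k w =>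
    ((isOpen_lt continuous_const (sig_cont hr hpos)).inter
      (isOpen_lt (sig_cont hr hpos) continuous_const)).measurableSet
  have hcount : ∀ x, ∑ k ∈ range 4160, ∑ w, (T k w).indicator (1 : (Fin 3 → ℝ) → ℝ) x ≤ 208 := by
    intro x
    have hb := bad_shifts r R 4160 (by norm_num) x
    set Bd := (range 4160).filter fun k : ℕ => ∃ w, 1 / 2 - 1 / (2 * (4160 : ℕ)) <
      sig r R (k / (4160 : ℕ)) w x ∧ sig r R (k / (4160 : ℕ)) w x < 1 / 2 + 1 / (2 * (4160 : ℕ))
      with hBd
    rw [← Finset.sum_subset (s₁ := Bd) (Finset.filter_subset _ _)]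
    · refine (Finset.sum_le_card_nsmul _ _ 16 fun k _ => ?_).trans ?_
      · have := card_active I r R (k / (4160 : ℕ)) x
        calc _ ≤ ∑ w : I, if sig r R (k / (4160 : ℕ)) w x < 1 then (1 : ℝ) else 0 := by
              refine Finset.sum_le_sum fun w _ => ?_
              by_cases hw : x ∈ T k w
              · rw [if_pos (hw.2.trans (by norm_num [hη]))]; simp [hw]
              · simp only [hw, not_false_eq_true, Set.indicator_of_notMem]; split_ifs <;> norm_num
          _ ≤ 16 := by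
              rw [Finset.sum_boole]; exact_mod_cast this
      · rw [nsmul_eq_mul]
        have : (Bd.card : ℝ) ≤ 13 := by exact_mod_cast hb
        linarith
    · intro k hk hk'
      refine Finset.sum_eq_zero fun w _ => Set.indicator_of_notMem (fun hw => hk' ?_) _
      refine Finset.mem_filter.2 ⟨hk, w, ?_, ?_⟩
      · refine lt_of_le_of_lt (le_of_eq ?_) hw.1; norm_num [hη]
      · refine lt_of_lt_of_le hw.2 ?_; norm_num [hη]
  have hsum : ∑ k ∈ range 4160, ∑ w, μ.real (T k w) ≤ ∑ k ∈ range 4160, (1 / 20 * N : ℝ) := by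
    have iT : ∀ k w, Integrable ((T k w).indicator (1 : (Fin 3 → ℝ) → ℝ)) μ := fun k w =>
      (integrable_const (1 : ℝ)).indicator (mT k w)
    have := integral_mono (μ := μ) (integrable_finsetSum _ fun k _ => integrable_finsetSum _
      fun w _ => iT k w) (integrable_const (208 : ℝ)) hcount
    rw [integral_finsetSum _ fun k _ => integrable_finsetSum _ fun w _ => iT k w] at this
    simp only [integral_finsetSum _ fun w _ => iT _ w, integral_indicator_one (mT _ _)] at this
    rw [integral_const, hμ, smul_eq_mul] at this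
    rw [Finset.sum_const, Finset.card_range, nsmul_eq_mul]
    push_cast
    linarith
  obtain ⟨k, hk, hkT⟩ := Finset.exists_le_of_sum_le (Finset.nonempty_range_iff.2 (by norm_num)) hsum
  set t : ℝ := k / (4160 : ℕ) with ht
  have t0 : 0 ≤ t := div_nonneg (Nat.cast_nonneg _) (Nat.cast_nonneg _)
  have t1 : t < 1 := by
    rw [ht, div_lt_one (by norm_num)]; exact_mod_cast Finset.mem_range.1 hk
  set b : I → (Fin 3 → ℝ) → ℝ := fun w x => cl ((1 / 2 + η - sig r R t w x) / η) with hb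
  set β : I → (Fin 3 → ℝ) → ℝ := fun w x => cl ((1 / 2 - η - sig r R t w x) / η) with hβ
  have cb : ∀ w, Continuous (b w) := fun w =>
    cl_cont.comp ((continuous_const.sub (sig_cont hr hpos)).div_const _)
  have hb1 : ∀ x, 1 ≤ ∑ w, b w x ^ 2 := by
    intro x
    obtain ⟨w, hw, hs⟩ := hI t t0 t1 x
    have e : b ⟨w, hw⟩ x = 1 := cl_of_one_le (by rw [le_div_iff₀ hη0]; linarith)
    have := Finset.single_le_sum (f := fun w => b w x ^ 2) (fun _ _ => sq_nonneg _)
      (Finset.mem_univ ⟨w, hw⟩)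
    simpa [e] using this
  have hsq : ∀ x, 0 < √(∑ w, b w x ^ 2) := fun x => Real.sqrt_pos.2 (by linarith [hb1 x])
  have hne : ∀ w x, b w x / √(∑ w, b w x ^ 2) ≠ 0 ↔ sig r R t w x < 1 / 2 + η := fun w x => by
    rw [div_ne_zero_iff, and_iff_left (hsq x).ne']
    exact cl_div_ne_zero hη0
  have hψ1 : ∀ x, ∑ w, (b w x / √(∑ w, b w x ^ 2)) ^ 2 = 1 := fun x => by
    simp only [div_pow]
    rw [← Finset.sum_div, Real.sq_sqrt (by linarith [hb1 x]), div_self (by linarith [hb1 x])]
  have hfar : ∀ x y, r x / 2 ≤ dist y x → 2 ≤ 6 * 324 * 16640 / r x * dist y x := fun x y h => by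
    have := hpos x
    rw [div_mul_eq_mul_div, le_div_iff₀ this]; linarith
  have hnear : ∀ (a : ℝ) (w : I) x y, a ≤ 1 → dist y x ≤ r x / 2 →
      |cl ((a - sig r R t w y) / η) - cl ((a - sig r R t w x) / η)| ≤
        if sig r R t w x < 1 ∨ sig r R t w y < 1 then 324 * 16640 / r x * dist y x else 0 := by
    intro a w x y ha hd
    split_ifs with h
    · refine (cl_div_lip _ _ _ _ hη0).trans ?_
      rw [div_le_iff₀ hη0]
      refine (sig_lip hr hpos t1 hd h).trans (le_of_eq ?_)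
      rw [hη]; ring
    · push Not at h
      rw [cl_of_nonpos (div_nonpos_of_nonpos_of_nonneg (by linarith [h.2]) hη0.le),
        cl_of_nonpos (div_nonpos_of_nonpos_of_nonneg (by linarith [h.1]) hη0.le)]
      simp
  refine ⟨fun w x => b w x / √(∑ w, b w x ^ 2), β, ?_, ?_, ?_, hψ1, ?_, ?_, ?_, ?_, ?_, ?_, ?_⟩
  · intro w
    exact (cb w).div (by fun_prop) fun x => (hsq x).ne'
  · exact fun w => cl_cont.comp ((continuous_const.sub (sig_cont hr hpos)).div_const _)
  · exact fun w x => div_nonneg (cl_nonneg _) (Real.sqrt_nonneg _)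
  · exact fun w x => cl_nonneg _
  · exact fun w x => cl_le_one _
  · intro w x hx w' hw'
    by_contra hcon
    have h1 := (cl_div_ne_zero hη0).1 hx
    have h2 := (hne w' x).1 hcon
    exact hw' (Subtype.ext (sig_sep (c := 1 / 2 + η) (by linarith) (by norm_num [hη])
      (by linarith) h2).symm)
  · intro w
    simp only [hne]
    exact small_cell μ hpos hhi hR0 hball hout t0 (by linarith) (by norm_num [hη])
  · refine le_trans (Finset.sum_le_sum fun w _ => measureReal_mono fun x hx => ?_) hkT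
    refine ⟨?_, (hne w x).1 hx.1⟩
    by_contra hcon
    have hcon' : sig r R t w x ≤ 1 / 2 - 2 * η := not_lt.1 hcon
    exact hx.2 (cl_of_one_le (by rw [le_div_iff₀ hη0]; linarith))
  · intro x y
    rcases le_total (r x / 2) (dist y x) with h | h
    · have h1 := hfar x y h
      calc _ ≤ ∑ w, (2 * (b w y / √(∑ w, b w y ^ 2)) ^ 2 + 2 * (b w x / √(∑ w, b w x ^ 2)) ^ 2) :=
            Finset.sum_le_sum fun w _ => by
              nlinarith [sq_nonneg (b w y / √(∑ w, b w y ^ 2) + b w x / √(∑ w, b w x ^ 2))]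
        _ = 2 ^ 2 := by
            rw [Finset.sum_add_distrib, ← Finset.mul_sum, ← Finset.mul_sum, hψ1, hψ1]; norm_num
        _ ≤ _ := by gcongr
    · refine (normalize_lip _ _ (hb1 y) (hb1 x)).trans ?_
      set K := 324 * 16640 / r x * dist y x with hK
      calc _ ≤ ∑ w : I, if sig r R t w x < 1 ∨ sig r R t w y < 1 then K ^ 2 else 0 := by
            refine Finset.sum_le_sum fun w _ => ?_
            have := hnear (1 / 2 + η) w x y (by norm_num [hη]) h
            rw [← sq_abs]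
            split_ifs at this ⊢
            · exact pow_le_pow_left₀ (abs_nonneg _) this 2
            · have h3 : |b w y - b w x| = 0 := le_antisymm this (abs_nonneg _)
              rw [h3]; norm_num
        _ ≤ 32 * K ^ 2 := by
            rw [← Finset.sum_filter, Finset.sum_const, nsmul_eq_mul, Finset.filter_or]
            refine mul_le_mul_of_nonneg_right ?_ (sq_nonneg _)
            have := (Finset.card_union_le _ _).trans
              (add_le_add (card_active I r R t x) (card_active I r R t y))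
            exact_mod_cast this
        _ ≤ (6 * K) ^ 2 := by nlinarith [sq_nonneg K]
        _ = _ := by rw [hK]; ring
  · intro w x y
    rcases le_total (r x / 2) (dist y x) with h | h
    · have h1 := hfar x y h
      have a1 := cl_nonneg ((1 / 2 - η - sig r R t w x) / η)
      have a2 := cl_le_one ((1 / 2 - η - sig r R t w x) / η)
      have a3 := cl_nonneg ((1 / 2 - η - sig r R t w y) / η)
      have a4 := cl_le_one ((1 / 2 - η - sig r R t w y) / η)
      simp only [hβ]
      rw [abs_le]; constructor <;> linarith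
    · refine (hnear (1 / 2 - η) w x y (by linarith) h).trans ?_
      have := hpos x
      split_ifs
      · exact mul_le_mul_of_nonneg_right (div_le_div_of_nonneg_right (by norm_num) this.le)
          dist_nonneg
      · exact mul_nonneg (div_nonneg (by norm_num) this.le) dist_nonneg

end Pool.Agent.MP_2c73ad_mp.H42
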