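import Mathlib

/-! The local length scale of a density and the Thomas-Fermi bound for it. -/

open MeasureTheory Metric Set
open scoped ENNReal

namespace Pool.Agent.MP_2c73ad_mp.H42

theorem vol_ball (z : Fin 3 → ℝ) {s : ℝ} (hs : 0 < s) :
    volume (ball z s) = ENNReal.ofReal ((2 * s) ^ 3) := by
  rw [Real.volume_pi_ball z hs]; simp

theorem avg_ball (μ : Measure (Fin 3 → ℝ)) [IsFiniteMeasure μ] {A : Set (Fin 3 → ℝ)}
    (hA : MeasurableSet A) {s : ℝ} (hs : 0 < s) :
    ∫⁻ z, μ (A ∩ ball z s) = μ A * ENNReal.ofReal ((2 * s) ^ 3) := by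
  set D : Set ((Fin 3 → ℝ) × (Fin 3 → ℝ)) := {p | p.2 ∈ A ∧ dist p.2 p.1 < s} with hD
  have mD : MeasurableSet D :=
    (measurable_snd hA).inter (isOpen_lt (continuous_snd.dist continuous_fst) continuous_const).measurableSet
  have e1 : ∀ z, μ (A ∩ ball z s) = ∫⁻ y, D.indicator 1 (z, y) ∂μ := by
    intro z
    rw [← lintegral_indicator_one (hA.inter measurableSet_ball)]
    rfl
  simp only [e1]
  rw [lintegral_lintegral_swap (f := fun z y => D.indicator 1 (z, y))
    ((measurable_one.indicator mD).aemeasurable), ← lintegral_indicator_one hA,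
    ← lintegral_mul_const _ (measurable_one.indicator hA)]
  refine lintegral_congr fun y => ?_
  by_cases hy : y ∈ A
  · rw [indicator_of_mem hy, Pi.one_apply, one_mul, ← vol_ball y hs,
      ← lintegral_indicator_one measurableSet_ball]
    refine lintegral_congr fun z => ?_
    simp only [hD, indicator, mem_ball, Set.mem_ofPred_eq, hy, true_and, dist_comm y z, Pi.one_apply]
  · simp [hD, indicator, hy]

theorem one_scale {f : (Fin 3 → ℝ) → ℝ} (hf : Measurable f)
    (μ : Measure (Fin 3 → ℝ)) [IsFiniteMeasure μ]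
    (hμ : μ = volume.withDensity fun x => ENNReal.ofReal (f x)) {R : ℝ} (hR : 0 < R)
    {A : Set (Fin 3 → ℝ)} (hA : MeasurableSet A)
    (h1 : ∀ x ∈ A, μ.real (ball x R) ≤ 1 / 20) (h2 : ∀ x ∈ A, 1 / 20 < μ.real (ball x (2 * R))) :
    μ A ≤ 250 * μ {x | 1 / (20 * R) ^ 3 < f x} := by
  set G := {x | 1 / (20 * R) ^ 3 < f x} with hG
  have mG : MeasurableSet G := measurableSet_lt measurable_const hf
  have key : ∀ z, μ (A ∩ ball z (R / 2)) ≤ 2 * μ (G ∩ ball z (5 * R / 2)) := by
    intro z
    rcases (A ∩ ball z (R / 2)).eq_empty_or_nonempty with h | ⟨x, hx, hxz⟩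
    · simp [h]
    rw [mem_ball] at hxz
    have a1 : μ.real (A ∩ ball z (R / 2)) ≤ 1 / 20 := by
      refine le_trans (measureReal_mono fun y hy => ?_) (h1 x hx)
      have := hy.2
      rw [mem_ball] at this ⊢
      linarith [dist_triangle_right y x z]
    have a2 : 1 / 20 < μ.real (ball z (5 * R / 2)) := by
      refine lt_of_lt_of_le (h2 x hx) (measureReal_mono fun y hy => ?_)
      rw [mem_ball] at hy ⊢
      linarith [dist_triangle y x z]
    have a3 : μ.real (ball z (5 * R / 2) \ G) ≤ 1 / 40 := by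
      apply ENNReal.toReal_le_of_le_ofReal (by norm_num)
      rw [hμ, withDensity_apply _ (measurableSet_ball.diff mG)]
      calc _ ≤ ∫⁻ _ in ball z (5 * R / 2) \ G, ENNReal.ofReal (1 / (20 * R) ^ 3) :=
            setLIntegral_mono measurable_const fun y hy =>
              ENNReal.ofReal_le_ofReal (not_lt.1 hy.2)
        _ ≤ ENNReal.ofReal (1 / (20 * R) ^ 3) * volume (ball z (5 * R / 2)) := by
            rw [setLIntegral_const]
            gcongr
            exact sdiff_subset
        _ ≤ ENNReal.ofReal (1 / 40) := by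
            rw [vol_ball z (by positivity), ← ENNReal.ofReal_mul (by positivity)]
            apply ENNReal.ofReal_le_ofReal
            have : 1 / (20 * R) ^ 3 * (2 * (5 * R / 2)) ^ 3 = 1 / 64 := by field_simp; norm_num
            rw [this]; norm_num
    have a4 := measureReal_inter_add_sdiff (μ := μ) (s := ball z (5 * R / 2)) mG
    have a5 : μ.real (A ∩ ball z (R / 2)) ≤ 2 * μ.real (G ∩ ball z (5 * R / 2)) := by
      rw [inter_comm G]; linarith
    rw [← ofReal_measureReal (μ := μ) (s := A ∩ _), ← ofReal_measureReal (μ := μ) (s := G ∩ _),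
      ← ENNReal.ofReal_ofNat, ← ENNReal.ofReal_mul (by norm_num)]
    exact ENNReal.ofReal_le_ofReal a5
  have h := lintegral_mono (μ := volume) key
  rw [lintegral_const_mul' _ _ (by simp), avg_ball μ hA (by positivity),
    avg_ball μ mG (by positivity)] at h
  have e : ENNReal.ofReal ((2 * (5 * R / 2)) ^ 3) = 125 * ENNReal.ofReal ((2 * (R / 2)) ^ 3) := by
    rw [← ENNReal.ofReal_ofNat, ← ENNReal.ofReal_mul (by norm_num)]
    congr 1; ring
  rw [e] at h
  have hp : ENNReal.ofReal ((2 * (R / 2)) ^ 3) ≠ 0 := by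
    rw [ne_eq, ENNReal.ofReal_eq_zero, not_le]; positivity
  rw [← ENNReal.mul_le_mul_iff_left hp ENNReal.ofReal_ne_top]
  refine h.trans (le_of_eq ?_)
  ring

theorem tail_int {s : ℝ} (hs : 0 < s) :
    ∫⁻ R in Ioi s, ENNReal.ofReal (1 / R ^ 3) = ENNReal.ofReal (1 / (2 * s ^ 2)) := by
  have e : ∀ R ∈ Ioi s, 1 / R ^ 3 = R ^ (-3 : ℝ) := fun R hR => by
    have : 0 < R := hs.trans hR
    rw [Real.rpow_neg this.le, one_div]; norm_num
  rw [setLIntegral_congr_fun measurableSet_Ioi fun R hR => by rw [e R hR],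
    ← ofReal_integral_eq_lintegral_ofReal (integrableOn_Ioi_rpow_of_lt (by norm_num) hs),
    integral_Ioi_rpow_of_lt (by norm_num) hs]
  · congr 1
    have : (-3 : ℝ) + 1 = -2 := by norm_num
    rw [this, Real.rpow_neg hs.le]
    norm_num
    field_simp
  · filter_upwards [ae_restrict_mem measurableSet_Ioi] with R hR
    exact Real.rpow_nonneg (hs.trans hR).le _

theorem scale_bound {f : (Fin 3 → ℝ) → ℝ} (hf : Measurable f) (hf0 : ∀ x, 0 ≤ f x)
    (μ : Measure (Fin 3 → ℝ)) [IsFiniteMeasure μ]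
    (hμ : μ = volume.withDensity fun x => ENNReal.ofReal (f x)) {r : (Fin 3 → ℝ) → ℝ}
    (hr : Measurable r) (hpos : ∀ x, 0 < r x) {S : Set (Fin 3 → ℝ)} (hS : MeasurableSet S)
    (h1 : ∀ x, μ.real (ball x (r x)) ≤ 1 / 20)
    (h2 : ∀ x ∈ S, ∀ s, r x < s → 1 / 20 < μ.real (ball x s)) :
    ∫⁻ x in S, ENNReal.ofReal (1 / r x ^ 2) ∂μ ≤
      100000 * ∫⁻ x, ENNReal.ofReal (f x ^ (5 / 3 : ℝ)) := by
  set D : Set ((Fin 3 → ℝ) × ℝ) := {p | p.1 ∈ S ∧ p.2 < r p.1 ∧ r p.1 < 2 * p.2} with hD
  set G : Set ((Fin 3 → ℝ) × ℝ) := {p | 0 < p.2 ∧ 1 / (20 * p.2) ^ 3 < f p.1} with hG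
  have mD : MeasurableSet D :=
    (measurable_fst hS).inter ((measurableSet_lt measurable_snd (hr.comp measurable_fst)).inter
      (measurableSet_lt (hr.comp measurable_fst) (by fun_prop)))
  have mG : MeasurableSet G :=
    (measurableSet_lt measurable_const measurable_snd).inter
      (measurableSet_lt (by fun_prop) (hf.comp measurable_fst))
  have mw : Measurable fun p : (Fin 3 → ℝ) × ℝ => ENNReal.ofReal (1 / p.2 ^ 3) := by fun_prop
  have s1 : ∀ x, S.indicator (fun x => ENNReal.ofReal (1 / r x ^ 2)) x ≤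
      2 * ∫⁻ R, D.indicator (fun p => ENNReal.ofReal (1 / p.2 ^ 3)) (x, R) := by
    intro x
    by_cases hx : x ∈ S
    · have hx0 := hpos x
      rw [indicator_of_mem hx]
      calc _ = 2 * (ENNReal.ofReal (1 / r x ^ 3) * volume (Ioo (r x / 2) (r x))) := by
            rw [Real.volume_Ioo, ← ENNReal.ofReal_mul (by positivity), ← ENNReal.ofReal_ofNat,
              ← ENNReal.ofReal_mul (by norm_num)]
            congr 1; field_simp; ring
        _ = 2 * ∫⁻ R, (Ioo (r x / 2) (r x)).indicator (fun _ => ENNReal.ofReal (1 / r x ^ 3)) R := by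
            rw [lintegral_indicator_const measurableSet_Ioo]
        _ ≤ _ := by
            gcongr with R
            by_cases hR : R ∈ Ioo (r x / 2) (r x)
            · have : (x, R) ∈ D := ⟨hx, hR.2, by linarith [hR.1]⟩
              rw [indicator_of_mem hR, indicator_of_mem this]
              have hR0 : 0 < R := by linarith [hR.1]
              have := hR.2.le
              gcongr
            · rw [indicator_of_notMem hR]; exact zero_le
    · rw [indicator_of_notMem hx]; exact zero_le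
  have s2 : ∀ R, ∫⁻ x, D.indicator (fun p => ENNReal.ofReal (1 / p.2 ^ 3)) (x, R) ∂μ ≤
      250 * ∫⁻ x, G.indicator (fun p => ENNReal.ofReal (1 / p.2 ^ 3)) (x, R) ∂μ := by
    intro R
    have e1 : ∀ (T : Set ((Fin 3 → ℝ) × ℝ)), MeasurableSet T →
        ∫⁻ x, T.indicator (fun p => ENNReal.ofReal (1 / p.2 ^ 3)) (x, R) ∂μ =
          ENNReal.ofReal (1 / R ^ 3) * μ {x | (x, R) ∈ T} := by
      intro T hT
      rw [← lintegral_indicator_const (s := {x | (x, R) ∈ T}) (measurable_prodMk_right hT)]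
      rfl
    rw [e1 D mD, e1 G mG]
    rcases le_or_gt R 0 with hR | hR
    · have : {x | (x, R) ∈ D} = ∅ := by
        ext x
        simp only [hD, Set.mem_ofPred_eq, mem_empty_iff_false, iff_false, not_and, not_lt]
        intro _ _
        linarith [hpos x]
      simp [this]
    · have := one_scale hf μ hμ hR (A := {x | (x, R) ∈ D}) (measurable_prodMk_right mD)
        (fun x hx => le_trans (measureReal_mono (ball_subset_ball hx.2.1.le)) (h1 x))
        (fun x hx => h2 x hx.1 _ hx.2.2)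
      have e : {x | (x, R) ∈ G} = {x | 1 / (20 * R) ^ 3 < f x} := by
        ext x; simp only [hG, Set.mem_ofPred_eq, hR, true_and]
      rw [e, mul_left_comm]
      gcongr
  have s3 : ∀ x, ∫⁻ R, G.indicator (fun p => ENNReal.ofReal (1 / p.2 ^ 3)) (x, R) ≤
      200 * ENNReal.ofReal (f x ^ (2 / 3 : ℝ)) := by
    intro x
    rcases (hf0 x).eq_or_lt with h0 | h0
    · have : ∀ R, (x, R) ∉ G := fun R hR => by
        have h3 := hR.1
        have h4 := hR.2
        simp only at h3 h4
        have : 0 < 1 / (20 * R) ^ 3 := by positivity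
        linarith
      simp [this]
    · set g := f x ^ (1 / 3 : ℝ) with hg
      have hg0 : 0 < g := Real.rpow_pos_of_pos h0 _
      have hg3 : g ^ 3 = f x := by
        rw [hg, ← Real.rpow_natCast, ← Real.rpow_mul h0.le]; norm_num
      have hg2 : g ^ 2 = f x ^ (2 / 3 : ℝ) := by
        rw [hg, ← Real.rpow_natCast, ← Real.rpow_mul h0.le]; norm_num
      calc _ ≤ ∫⁻ R, (Ioi (1 / (20 * g))).indicator (fun R => ENNReal.ofReal (1 / R ^ 3)) R := by
            refine lintegral_mono fun R => ?_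
            by_cases hR : (x, R) ∈ G
            · have h3 := hR.1
              have h4 := hR.2
              simp only at h3 h4
              rw [← hg3, ← one_pow 3, ← div_pow] at h4
              have h5 := lt_of_pow_lt_pow_left₀ 3 hg0.le h4
              have h6 : R ∈ Ioi (1 / (20 * g)) := by
                rw [div_lt_iff₀ (by positivity)] at h5
                rw [mem_Ioi, div_lt_iff₀ (by positivity)]
                linarith
              rw [indicator_of_mem hR, indicator_of_mem h6]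
            · rw [indicator_of_notMem hR]; exact zero_le
        _ = _ := by
            rw [lintegral_indicator measurableSet_Ioi, tail_int (by positivity), ← hg2,
              ← ENNReal.ofReal_ofNat, ← ENNReal.ofReal_mul (by norm_num)]
            congr 1; field_simp; norm_num
  calc _ = ∫⁻ x, S.indicator (fun x => ENNReal.ofReal (1 / r x ^ 2)) x ∂μ :=
        (lintegral_indicator hS _).symm
    _ ≤ ∫⁻ x, 2 * ∫⁻ R, D.indicator (fun p => ENNReal.ofReal (1 / p.2 ^ 3)) (x, R) ∂volume ∂μ :=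
        lintegral_mono s1
    _ = 2 * ∫⁻ R, ∫⁻ x, D.indicator (fun p => ENNReal.ofReal (1 / p.2 ^ 3)) (x, R) ∂μ := by
        rw [lintegral_const_mul' _ _ (by simp), lintegral_lintegral_swap
          (f := fun x R => D.indicator (fun p => ENNReal.ofReal (1 / p.2 ^ 3)) (x, R))
          (mw.indicator mD).aemeasurable]
    _ ≤ 2 * ∫⁻ R, 250 * ∫⁻ x, G.indicator (fun p => ENNReal.ofReal (1 / p.2 ^ 3)) (x, R) ∂μ := by
        gcongr with R
        exact s2 R
    _ = 2 * (250 * ∫⁻ x, ∫⁻ R, G.indicator (fun p => ENNReal.ofReal (1 / p.2 ^ 3)) (x, R)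
          ∂volume ∂μ) := by
        rw [lintegral_const_mul' _ _ (by simp), lintegral_lintegral_swap
          (f := fun x R => G.indicator (fun p => ENNReal.ofReal (1 / p.2 ^ 3)) (x, R))
          (mw.indicator mG).aemeasurable]
    _ ≤ 2 * (250 * ∫⁻ x, 200 * ENNReal.ofReal (f x ^ (2 / 3 : ℝ)) ∂μ) := by
        gcongr with x
        exact s3 x
    _ = _ := by
        rw [lintegral_const_mul' _ _ (by simp), hμ,
          lintegral_withDensity_eq_lintegral_mul _ (by fun_prop) (by fun_prop)]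
        have e : ∀ x, ((fun x => ENNReal.ofReal (f x)) * fun x =>
            ENNReal.ofReal (f x ^ (2 / 3 : ℝ))) x = ENNReal.ofReal (f x ^ (5 / 3 : ℝ)) := by
          intro x
          rw [Pi.mul_apply, ← ENNReal.ofReal_mul (hf0 x)]
          congr 1
          have : (5 / 3 : ℝ) = 1 + 2 / 3 := by norm_num
          rw [this, Real.rpow_add' (hf0 x) (by norm_num), Real.rpow_one]
        simp only [e]
        ring

theorem exists_radius (μ : Measure (Fin 3 → ℝ)) [IsFiniteMeasure μ] {r0 R1 : ℝ}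
    (h01 : r0 ≤ R1) (hsmall : ∀ x, μ.real (ball x r0) ≤ 1 / 20) :
    ∃ r : (Fin 3 → ℝ) → ℝ, LipschitzWith 1 r ∧ (∀ x, r0 ≤ r x) ∧ (∀ x, r x ≤ R1) ∧
      (∀ x, μ.real (ball x (r x)) ≤ 1 / 20) ∧
      ∀ x, r x < R1 → ∀ s, r x < s → 1 / 20 < μ.real (ball x s) := by
  set T : (Fin 3 → ℝ) → Set ℝ := fun x => {s | s ≤ R1 ∧ μ.real (ball x s) ≤ 1 / 20} with hT
  have hb : ∀ x, BddAbove (T x) := fun x => ⟨R1, fun s hs => hs.1⟩
  have hm : ∀ x, r0 ∈ T x := fun x => ⟨h01, hsmall x⟩
  have hle : ∀ x, sSup (T x) ≤ R1 := fun x => csSup_le ⟨_, hm x⟩ fun s hs => hs.1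
  have hlt : ∀ x s, s < sSup (T x) → μ.real (ball x s) ≤ 1 / 20 := by
    intro x s hs
    obtain ⟨s', hs', h⟩ := exists_lt_of_lt_csSup ⟨_, hm x⟩ hs
    exact le_trans (measureReal_mono (ball_subset_ball h.le)) hs'.2
  refine ⟨fun x => sSup (T x), ?_, fun x => le_csSup (hb x) (hm x), hle, ?_, ?_⟩
  · refine LipschitzWith.of_le_add fun x y => csSup_le ⟨_, hm x⟩ fun s hs => ?_
    have : s - dist x y ∈ T y := by
      refine ⟨by linarith [hs.1, dist_nonneg (x := x) (y := y)], ?_⟩
      refine le_trans (measureReal_mono fun z hz => ?_) hs.2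
      rw [mem_ball] at hz ⊢
      linarith [dist_triangle z y x, dist_comm x y]
    linarith [le_csSup (hb y) this]
  · intro x
    apply ENNReal.toReal_le_of_le_ofReal (by norm_num)
    have e : ball x (sSup (T x)) = ⋃ n : ℕ, ball x (sSup (T x) - 1 / (n + 1)) := by
      ext y
      simp only [mem_iUnion, mem_ball]
      constructor
      · intro h
        obtain ⟨n, hn⟩ := exists_nat_one_div_lt (sub_pos.2 h)
        exact ⟨n, by linarith⟩
      · rintro ⟨n, hn⟩
        have : (0 : ℝ) < 1 / (n + 1) := by positivity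
        linarith
    rw [e, Monotone.measure_iUnion]
    · refine iSup_le fun n => ?_
      rw [← ofReal_measureReal (μ := μ)]
      apply ENNReal.ofReal_le_ofReal
      apply hlt
      have : (0 : ℝ) < 1 / (n + 1) := by positivity
      linarith
    · intro m n hmn
      apply ball_subset_ball
      have : (m : ℝ) ≤ n := by exact_mod_cast hmn
      gcongr
  · intro x hx s hs
    by_contra hcon
    have : min s R1 ∈ T x :=
      ⟨min_le_right _ _, le_trans (measureReal_mono (ball_subset_ball (min_le_left _ _)))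
        (not_lt.1 hcon)⟩
    exact absurd (le_csSup (hb x) this) (not_le.2 (lt_min hs hx))

theorem exists_scale {f : (Fin 3 → ℝ) → ℝ} (hf : Measurable f) (hf0 : ∀ x, 0 ≤ f x)
    (μ : Measure (Fin 3 → ℝ)) [IsFiniteMeasure μ]
    (hμ : μ = volume.withDensity fun x => ENNReal.ofReal (f x)) :
    ∃ (r : (Fin 3 → ℝ) → ℝ) (r0 R1 : ℝ), LipschitzWith 1 r ∧ 0 < r0 ∧ (∀ x, r0 ≤ r x) ∧
      (∀ x, r x ≤ R1) ∧ (∀ x, μ.real (ball x (r x)) ≤ 1 / 20) ∧
      ∫⁻ x, ENNReal.ofReal (1 / r x ^ 2) ∂μ ≤
        100001 * ∫⁻ x, ENNReal.ofReal (f x ^ (5 / 3 : ℝ)) := by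
  have hfin : ∫⁻ x, ENNReal.ofReal (f x) ≠ ∞ := by
    have := measure_ne_top μ univ
    rwa [hμ, withDensity_apply _ MeasurableSet.univ, Measure.restrict_univ] at this
  obtain ⟨η, hη, hηs⟩ := exists_pos_setLIntegral_lt_of_measure_lt hfin
    (ε := ENNReal.ofReal (1 / 20)) (by simp)
  have ht : Filter.Tendsto (fun s : ℝ => ENNReal.ofReal ((2 * s) ^ 3)) (nhdsWithin 0 (Ioi 0))
      (nhds 0) := by
    have : Continuous fun s : ℝ => ENNReal.ofReal ((2 * s) ^ 3) :=
      ENNReal.continuous_ofReal.comp (by fun_prop)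
    simpa using (this.tendsto 0).mono_left nhdsWithin_le_nhds
  obtain ⟨r0, hr0, h0⟩ := ((ht.eventually (gt_mem_nhds hη)).and self_mem_nhdsWithin).exists
  have h0' : 0 < r0 := h0
  have hsmall : ∀ x, μ.real (ball x r0) ≤ 1 / 20 := fun x => by
    apply ENNReal.toReal_le_of_le_ofReal (by norm_num)
    rw [hμ, withDensity_apply _ measurableSet_ball]
    exact (hηs _ (by rw [vol_ball x h0']; exact hr0)).le
  set J := ∫⁻ x, ENNReal.ofReal (f x ^ (5 / 3 : ℝ)) with hJ
  obtain ⟨R1, h01, hR1⟩ : ∃ R1, r0 ≤ R1 ∧ ENNReal.ofReal (1 / R1 ^ 2) * μ univ ≤ J := by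
    by_cases hJ0 : J = 0
    · refine ⟨r0, le_rfl, ?_⟩
      have h1 := (lintegral_eq_zero_iff (by fun_prop)).1 hJ0
      have h2 : μ univ = 0 := by
        rw [hμ, withDensity_apply _ MeasurableSet.univ, Measure.restrict_univ,
          lintegral_eq_zero_iff (by fun_prop)]
        filter_upwards [h1] with x hx
        simp only [Pi.zero_apply, ENNReal.ofReal_eq_zero] at hx ⊢
        by_contra hcon
        exact absurd hx (not_le.2 (Real.rpow_pos_of_pos (not_le.1 hcon) _))
      simp [h2]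
    · have ht2 : Filter.Tendsto (fun s : ℝ => ENNReal.ofReal (1 / s ^ 2) * μ univ) Filter.atTop
          (nhds 0) := by
        have h1 : Filter.Tendsto (fun s : ℝ => 1 / s ^ 2) Filter.atTop (nhds 0) :=
          tendsto_const_nhds.div_atTop (Filter.tendsto_pow_atTop two_ne_zero)
        have h2 := ENNReal.Tendsto.mul_const (b := μ univ)
          ((ENNReal.continuous_ofReal.tendsto 0).comp h1) (Or.inr (measure_ne_top _ _))
        simpa using h2
      obtain ⟨R1, h1, h2⟩ := ((Filter.eventually_ge_atTop r0).and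
        (ht2.eventually (gt_mem_nhds (pos_iff_ne_zero.2 hJ0)))).exists
      exact ⟨R1, h1, h2.le⟩
  obtain ⟨r, hr, hlo, hhi, hb1, hb2⟩ := exists_radius μ h01 hsmall
  refine ⟨r, r0, R1, hr, h0', hlo, hhi, hb1, ?_⟩
  have mS : MeasurableSet {x | r x < R1} :=
    (isOpen_lt hr.continuous continuous_const).measurableSet
  have b1 := scale_bound hf hf0 μ hμ hr.continuous.measurable (fun x => h0'.trans_le (hlo x)) mS hb1 hb2
  have b2 : ∫⁻ x in {x | r x < R1}ᶜ, ENNReal.ofReal (1 / r x ^ 2) ∂μ ≤ J := by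
    refine le_trans ?_ hR1
    rw [setLIntegral_congr_fun (g := fun _ => ENNReal.ofReal (1 / R1 ^ 2)) mS.compl fun x hx => by
      have : r x = R1 := le_antisymm (hhi x) (not_lt.1 hx)
      simp only [this], setLIntegral_const]
    gcongr
    exact subset_univ _
  rw [← lintegral_add_compl _ mS]
  refine (add_le_add b1 b2).trans (le_of_eq ?_)
  rw [← hJ]; ring

end Pool.Agent.MP_2c73ad_mp.H42
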