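import Pool.Agent.MP_2c73ad_mp.H42.Weak
import Pool.Agent.MP_2c73ad_mp.H42.Frame
import Pool.Agent.MP_2c73ad_mp.H42.Grid
import Pool.Agent.MP_2c73ad_mp.H42.Scale

/-! The spinless bound. -/

open MeasureTheory Metric Set Filter
open scoped NNReal ENNReal

namespace Pool.Agent.MP_2c73ad_mp.H42

theorem exists_field : ∃ C : ℝ, 0 < C ∧ ∀ (n : ℕ) (f : (Fin 3 → ℝ) → ℝ)
    (μ : Measure (Fin 3 → ℝ)) [IsFiniteMeasure μ], 0 < n → Measurable f → (∀ x, 0 ≤ f x) →
    μ = volume.withDensity (fun x => ENNReal.ofReal (f x)) → μ.real univ = n →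
    ∃ (u : (Fin 3 → ℝ) → EuclideanSpace ℂ (Fin n)) (K : ℝ≥0), LipschitzWith K u ∧ (∀ x, ‖u x‖ = 1) ∧
      (∀ b c, ∫ x, (starRingEnd ℂ) (u x b) * u x c ∂μ = if b = c then 1 else 0) ∧
      ∀ k, ∫⁻ x, ENNReal.ofReal (‖fderiv ℝ u x (Pi.single k 1)‖ ^ 2) ∂μ ≤
        ENNReal.ofReal (if 2 ≤ n then C else 0) * ∫⁻ x, ENNReal.ofReal (f x ^ (5 / 3 : ℝ)) := by
  obtain ⟨C, hC, hat⟩ := exists_atoms
  refine ⟨(5 * C) ^ 2 * 100001, by positivity, ?_⟩
  intro n f μ _ hn hf hf0 hμ hN
  by_cases h2 : 2 ≤ n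
  · obtain ⟨r, r0, R1, hr, h0, hlo, hhi, hb, hI⟩ := exists_scale hf hf0 μ hμ
    obtain ⟨I, ψ, β, hA⟩ := hat μ n r r0 R1 hN hr h0 hlo hhi hb
    have hpos : ∀ x, 0 < r x := fun x => h0.trans_le (hlo x)
    obtain ⟨u, -, hu1, hu2, hu3⟩ := frame hA hn hN fun x => (div_pos hC (hpos x)).le
    refine ⟨u, (5 * (C / r0)).toNNReal, ?_, hu1, hu2, fun k => ?_⟩
    · refine LipschitzWith.of_dist_le_mul fun y x => ?_
      rw [dist_eq_norm, Real.coe_toNNReal _ (by positivity)]
      refine (hu3 x y).trans ?_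
      have := hlo x
      gcongr
    · have hd : ∀ x, ‖fderiv ℝ u x (Pi.single k 1)‖ ^ 2 ≤ (5 * C) ^ 2 * (1 / r x ^ 2) := by
        intro x
        have hx := hpos x
        have h1 : ‖fderiv ℝ u x‖ ≤ 5 * (C / r x) :=
          norm_fderiv_le_of_lip' ℝ (by positivity) (Eventually.of_forall fun y => by
            have := hu3 x y
            rwa [dist_eq_norm] at this)
        have h3 : ‖fderiv ℝ u x (Pi.single k 1)‖ ≤ 5 * (C / r x) := by
          refine (ContinuousLinearMap.le_opNorm _ _).trans ?_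
          rw [Pi.norm_single, norm_one, mul_one]
          exact h1
        calc _ ≤ (5 * (C / r x)) ^ 2 := by gcongr
          _ = _ := by field_simp
      rw [if_pos h2]
      calc _ ≤ ∫⁻ x, ENNReal.ofReal ((5 * C) ^ 2) * ENNReal.ofReal (1 / r x ^ 2) ∂μ :=
            lintegral_mono fun x => by
              rw [← ENNReal.ofReal_mul (by positivity)]
              exact ENNReal.ofReal_le_ofReal (hd x)
        _ ≤ ENNReal.ofReal ((5 * C) ^ 2) * (100001 * ∫⁻ x, ENNReal.ofReal (f x ^ (5 / 3 : ℝ))) := by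
            rw [lintegral_const_mul' _ _ ENNReal.ofReal_ne_top]
            gcongr
        _ = _ := by
            rw [ENNReal.ofReal_mul (by positivity), ENNReal.ofReal_ofNat, mul_assoc]
  · obtain rfl : n = 1 := by omega
    refine ⟨fun _ => EuclideanSpace.single 0 1, 0, LipschitzWith.const _, by simp, ?_, by simp⟩
    intro b c
    obtain rfl : b = 0 := Subsingleton.elim _ _
    obtain rfl : c = 0 := Subsingleton.elim _ _
    simp [hN]

theorem norm_sq_split {n : ℕ} {u : (Fin 3 → ℝ) → EuclideanSpace ℂ (Fin n)} (hu : ∀ x, ‖u x‖ = 1)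
    {x : Fin 3 → ℝ} (hx : DifferentiableAt ℝ u x) (v : Fin 3 → ℝ) (s t : ℝ) :
    ∑ a, ‖(s : ℂ) * u x a + (t : ℂ) * fderiv ℝ (fun y => u y a) x v‖ ^ 2 =
      s ^ 2 + t ^ 2 * ‖fderiv ℝ u x v‖ ^ 2 := by
  have e1 : ∀ a, fderiv ℝ (fun y => u y a) x v = fderiv ℝ u x v a := by
    intro a
    have := ((EuclideanSpace.proj (𝕜 := ℂ) a).restrictScalars ℝ).hasFDerivAt.comp x hx.hasFDerivAt
    have h2 : HasFDerivAt (fun y => u y a) _ x := this
    rw [h2.fderiv]
    rfl
  have e2 := fderiv_inner_apply ℂ hx hx v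
  have e3 : (fun t => inner ℂ (u t) (u t)) = fun _ => (1 : ℂ) := by
    funext t; rw [inner_self_eq_norm_sq_to_K, hu]; simp
  rw [e3, fderiv_fun_const] at e2
  have e4 : RCLike.re (inner ℂ (u x) (fderiv ℝ u x v)) = 0 := by
    have := congrArg RCLike.re e2
    rw [map_add, inner_re_symm (fderiv ℝ u x v)] at this
    simp only [Pi.zero_apply, zero_apply, map_zero] at this
    linarith
  have e5 := norm_add_sq (𝕜 := ℂ) ((s : ℂ) • u x) ((t : ℂ) • fderiv ℝ u x v)
  rw [inner_smul_left, inner_smul_right, Complex.conj_ofReal, norm_smul, norm_smul, hu,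
    EuclideanSpace.norm_sq_eq] at e5
  have e6 : RCLike.re ((s : ℂ) * ((t : ℂ) * inner ℂ (u x) (fderiv ℝ u x v))) = 0 := by
    have : (inner ℂ (u x) (fderiv ℝ u x v)).re = 0 := e4
    simp [this]
  rw [e6] at e5
  simp only [e1]
  simp only [PiLp.add_apply, PiLp.smul_apply, smul_eq_mul, Complex.norm_real, Real.norm_eq_abs,
    mul_pow, sq_abs] at e5
  rw [e5]; ring

theorem core : ∃ C : ℝ, 0 < C ∧ ∀ (n : ℕ) (ρ : (Fin 3 → ℝ) → ℝ) (G : Fin 3 → (Fin 3 → ℝ) → ℝ),
    (∀ x, 0 ≤ ρ x) → ∫ x, ρ x = n → InH1 (fun x => √(ρ x)) G →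
    ∃ (φ : Fin n → (Fin 3 → ℝ) → ℂ) (D : Fin n → Fin 3 → (Fin 3 → ℝ) → ℂ),
      (∀ a, InH1 (φ a) (D a)) ∧
      (∀ a b, ∫ x, (starRingEnd ℂ) (φ a x) * φ b x = if a = b then 1 else 0) ∧
      (∀ᵐ x, ∑ a, ‖φ a x‖ ^ 2 = ρ x) ∧
      ENNReal.ofReal (∑ a, ∑ k, ∫ x, ‖D a k x‖ ^ 2) ≤
        ENNReal.ofReal (if 2 ≤ n then C else 0) * (∫⁻ x, ENNReal.ofReal (ρ x ^ (5 / 3 : ℝ))) +
          ENNReal.ofReal (∑ k, ∫ x, G k x ^ 2) := by
  obtain ⟨C, hC, hfield⟩ := exists_field
  refine ⟨3 * C, by positivity, ?_⟩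
  intro n ρ G h0 hN hH
  have iρ : Integrable ρ := by
    have := hH.1.integrable_sq
    simpa only [Real.sq_sqrt (h0 _)] using this
  rcases Nat.eq_zero_or_pos n with rfl | hn
  · refine ⟨fun a => a.elim0, fun a => a.elim0, fun a => a.elim0, fun a => a.elim0, ?_, by simp⟩
    have := (integral_eq_zero_iff_of_nonneg h0 iρ).1 (by simpa using hN)
    filter_upwards [this] with x hx
    simp [hx]
  set f : (Fin 3 → ℝ) → ℝ := fun x => max (iρ.aemeasurable.mk ρ x) 0 with hf
  have mf : Measurable f := iρ.aemeasurable.measurable_mk.max measurable_const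
  have f0 : ∀ x, 0 ≤ f x := fun x => le_max_right _ _
  have fρ : ∀ᵐ x, f x = ρ x := by
    filter_upwards [iρ.aemeasurable.ae_eq_mk] with x hx
    simp only [hf, ← hx]
    exact max_eq_left (h0 x)
  have i_f : Integrable f := iρ.congr (fρ.mono fun x hx => hx.symm)
  set μ : Measure (Fin 3 → ℝ) := volume.withDensity fun x => ENNReal.ofReal (f x) with hμ
  have : IsFiniteMeasure μ := isFiniteMeasure_withDensity_ofReal i_f.2
  have hint : ∀ F : (Fin 3 → ℝ) → ℂ, ∫ x, F x ∂μ = ∫ x, (ρ x : ℂ) * F x := by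
    intro F
    rw [hμ, integral_withDensity_eq_integral_toReal_smul (by fun_prop) (by simp)]
    refine integral_congr_ae ?_
    filter_upwards [fρ] with x hx
    rw [ENNReal.toReal_ofReal (f0 x), hx, Complex.real_smul]
  have hμN : μ.real univ = n := by
    have := hint fun _ => 1
    simp only [integral_const, mul_one, integral_complex_ofReal, hN, Complex.real_smul] at this
    exact_mod_cast this
  obtain ⟨u, K, hL, hu1, hu2, hu3⟩ := hfield n f μ hn mf f0 hμ hμN
  have hLa : ∀ a, LipschitzWith K fun x => u x a := fun a =>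
    LipschitzWith.of_dist_le_mul fun x y => (PiLp.dist_apply_le _ _ a).trans (hL.dist_le_mul x y)
  have hba : ∀ a x, ‖u x a‖ ≤ 1 := fun a x => (hu1 x) ▸ PiLp.norm_apply_le (u x) a
  have ms : AEStronglyMeasurable (fun x => ((√(ρ x) : ℝ) : ℂ)) volume :=
    Complex.continuous_ofReal.comp_aestronglyMeasurable hH.1.1
  have mD : ∀ a k, MemLp (fun x => (G k x : ℂ) * u x a +
      ((√(ρ x) : ℝ) : ℂ) * fderiv ℝ (fun y => u y a) x (Pi.single k 1)) 2 volume := by
    intro a k
    refine MemLp.add (f := fun x => (G k x : ℂ) * u x a) ?_ ?_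
    · refine (hH.2 k).1.of_le ((Complex.continuous_ofReal.comp_aestronglyMeasurable
        (hH.2 k).1.1).mul (hLa a).continuous.aestronglyMeasurable) (Eventually.of_forall fun x => ?_)
      rw [norm_mul, Complex.norm_real]
      exact mul_le_of_le_one_right (norm_nonneg _) (hba a x)
    · refine hH.1.of_le_mul (c := K) (ms.mul (measurable_fderiv_apply_const ℝ _ _).aestronglyMeasurable)
        (Eventually.of_forall fun x => ?_)
      rw [norm_mul, Complex.norm_real, mul_comm]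
      gcongr
      refine (ContinuousLinearMap.le_opNorm _ _).trans ?_
      rw [Pi.norm_single, norm_one, mul_one]
      exact norm_fderiv_le_of_lipschitz ℝ (hLa a)
  refine ⟨fun a x => ((√(ρ x) : ℝ) : ℂ) * u x a, fun a k x => (G k x : ℂ) * u x a +
      ((√(ρ x) : ℝ) : ℂ) * fderiv ℝ (fun y => u y a) x (Pi.single k 1), ?_, ?_, ?_, ?_⟩
  · intro a
    refine ⟨hH.1.of_le (ms.mul (hLa a).continuous.aestronglyMeasurable)
      (Eventually.of_forall fun x => ?_), fun k => ⟨mD a k, ?_⟩⟩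
    · rw [norm_mul, Complex.norm_real]
      exact mul_le_of_le_one_right (norm_nonneg _) (hba a x)
    · exact weak_mul (hH.1.locallyIntegrable one_le_two) ((hH.2 k).1.locallyIntegrable one_le_two)
        (hH.2 k).2 (hLa a) (hba a)
  · intro a b
    rw [← hu2 a b, hint]
    refine integral_congr_ae (Eventually.of_forall fun x => ?_)
    have : ((√(ρ x) : ℝ) : ℂ) * ((√(ρ x) : ℝ) : ℂ) = ρ x := by
      rw [← Complex.ofReal_mul, Real.mul_self_sqrt (h0 x)]
    simp only [map_mul, Complex.conj_ofReal]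
    rw [← this]; ring
  · refine Eventually.of_forall fun x => ?_
    simp only [norm_mul, mul_pow, Complex.norm_real, Real.norm_eq_abs, sq_abs, Real.sq_sqrt (h0 x)]
    rw [← Finset.mul_sum, ← EuclideanSpace.norm_sq_eq, hu1]; ring
  · have iG : ∀ k, Integrable fun x => G k x ^ 2 := fun k => (hH.2 k).1.integrable_sq
    have iE : ∀ k, Integrable fun x => ρ x * ‖fderiv ℝ u x (Pi.single k 1)‖ ^ 2 := fun k => by
      refine iρ.mul_bdd (c := K ^ 2)
        ((measurable_fderiv_apply_const ℝ u _).norm.pow_const 2).aestronglyMeasurable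
        (Eventually.of_forall fun x => ?_)
      rw [Real.norm_of_nonneg (sq_nonneg _)]
      gcongr
      refine (ContinuousLinearMap.le_opNorm _ _).trans ?_
      rw [Pi.norm_single, norm_one, mul_one]
      exact norm_fderiv_le_of_lipschitz ℝ hL
    have e1 : ∀ k, ∑ a, ∫ x, ‖(G k x : ℂ) * u x a +
        ((√(ρ x) : ℝ) : ℂ) * fderiv ℝ (fun y => u y a) x (Pi.single k 1)‖ ^ 2 =
        (∫ x, ρ x * ‖fderiv ℝ u x (Pi.single k 1)‖ ^ 2) + ∫ x, G k x ^ 2 := by
      intro k
      rw [← integral_finsetSum _ fun a _ => (mD a k).norm.integrable_sq, ← integral_add (iE k) (iG k)]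
      refine integral_congr_ae ?_
      filter_upwards [hL.ae_differentiableAt (μ := volume)] with x hx
      rw [norm_sq_split hu1 hx, Real.sq_sqrt (h0 x), add_comm]
    have e2 : ∀ k, ENNReal.ofReal (∫ x, ρ x * ‖fderiv ℝ u x (Pi.single k 1)‖ ^ 2) ≤
        ENNReal.ofReal (if 2 ≤ n then C else 0) * ∫⁻ x, ENNReal.ofReal (ρ x ^ (5 / 3 : ℝ)) := by
      intro k
      rw [ofReal_integral_eq_lintegral_ofReal (iE k)
        (Eventually.of_forall fun x => mul_nonneg (h0 x) (sq_nonneg _))]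
      convert hu3 k using 1
      · rw [hμ, lintegral_withDensity_eq_lintegral_mul _ (by fun_prop)
          ((measurable_fderiv_apply_const ℝ u _).norm.pow_const 2).ennreal_ofReal]
        refine lintegral_congr_ae ?_
        filter_upwards [fρ] with x hx
        rw [Pi.mul_apply, hx, ENNReal.ofReal_mul (h0 x)]
      · congr 1
        refine lintegral_congr_ae ?_
        filter_upwards [fρ] with x hx
        rw [hx]
    rw [Finset.sum_comm]
    simp only [e1]
    rw [Finset.sum_add_distrib]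
    refine ENNReal.ofReal_add_le.trans (add_le_add ?_ le_rfl)
    rw [ENNReal.ofReal_sum_of_nonneg fun k _ =>
      integral_nonneg fun x => mul_nonneg (h0 x) (sq_nonneg _)]
    refine (Finset.sum_le_sum fun k _ => e2 k).trans (le_of_eq ?_)
    rw [Finset.sum_const, Finset.card_univ, Fintype.card_fin, nsmul_eq_mul, ← mul_assoc]
    congr 1
    split_ifs
    · rw [ENNReal.ofReal_mul (by norm_num)]; simp
    · simp

end Pool.Agent.MP_2c73ad_mp.H42
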