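import Mathlib

open MeasureTheory

namespace Pool.Agent.MP_2c73ad_mp.H42

/-- `g` is the weak partial derivative of `f` with respect to the `k`-th coordinate of `ℝ³`. -/
def WeakPartial {E : Type} [NormedAddCommGroup E] [NormedSpace ℝ E] (k : Fin 3)
    (f g : (Fin 3 → ℝ) → E) : Prop :=
  ∀ ϕ : (Fin 3 → ℝ) → ℝ, ContDiff ℝ ((⊤ : ℕ∞) : WithTop ℕ∞) ϕ → HasCompactSupport ϕ →
    ∫ x, fderiv ℝ ϕ x (Pi.single k 1) • f x = -∫ x, ϕ x • g x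

/-- `f` lies in `H¹(ℝ³)` and its weak gradient is `(D 0, D 1, D 2)`. -/
def InH1 {E : Type} [NormedAddCommGroup E] [NormedSpace ℝ E] (f : (Fin 3 → ℝ) → E)
    (D : Fin 3 → (Fin 3 → ℝ) → E) : Prop :=
  MemLp f 2 volume ∧ ∀ k, MemLp (D k) 2 volume ∧ WeakPartial k f (D k)

end Pool.Agent.MP_2c73ad_mp.H42
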