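import Pool.Agent.MP_2c73ad_mp.H42.Radial

/-! Averaging the line autocorrelation over directions. -/

open MeasureTheory Metric Set Filter Topology Real
open scoped ENNReal

namespace Pool.Agent.MP_2c73ad_mp.H42

theorem prod_split (a b σ : ℝ) :
    a * b ≤ min a σ ^ 2 / 2 + min b σ ^ 2 / 2 + max (a - σ) 0 * b + max (b - σ) 0 * a := by
  rcases le_total a σ with h1 | h1 <;> rcases le_total b σ with h2 | h2
  · rw [min_eq_left h1, min_eq_left h2, max_eq_right (by linarith), max_eq_right (by linarith)]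
    nlinarith [sq_nonneg (a - b)]
  · rw [min_eq_left h1, min_eq_right h2, max_eq_right (by linarith), max_eq_left (by linarith)]
    nlinarith [sq_nonneg (a - σ)]
  · rw [min_eq_right h1, min_eq_left h2, max_eq_left (by linarith), max_eq_right (by linarith)]
    nlinarith [sq_nonneg (b - σ)]
  · rw [min_eq_right h1, min_eq_right h2, max_eq_left (by linarith), max_eq_left (by linarith)]
    nlinarith [mul_nonneg (sub_nonneg.2 h1) (sub_nonneg.2 h2)]

/-- the profile that bounds the averaged autocorrelation at distance `y` -/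
noncomputable def prof (a y : ℝ) : ℝ :=
  4 * π / 3 * min a (64 / 125 / y ^ 3) ^ 2 + 4 / y ^ 3 * max (a - 64 / 125 / y ^ 3) 0

theorem lint_prof {a : ℝ} (ha : 0 ≤ a) :
    ∫⁻ τ : ℝ, ENNReal.ofReal (prof a ‖τ‖) =
      ENNReal.ofReal (64 * π / 25 + 15 / 4) * ENNReal.ofReal (a ^ (5 / 3 : ℝ)) := by
  rcases ha.eq_or_lt with rfl | ha
  · have : ∀ τ : ℝ, prof 0 ‖τ‖ = 0 := fun τ => by
      have h : (0 : ℝ) ≤ 64 / 125 / ‖τ‖ ^ 3 := by positivity
      rw [prof, min_eq_left h, max_eq_right (by linarith)]; ring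
    simp only [this]
    simp
  obtain ⟨c, hc, rfl⟩ : ∃ c : ℝ, 0 < c ∧ a = c ^ 3 :=
    ⟨a ^ (1 / 3 : ℝ), by positivity, by
      rw [← Real.rpow_natCast, ← Real.rpow_mul ha.le]; norm_num⟩
  have e5 : (c ^ 3) ^ (5 / 3 : ℝ) = c ^ 5 := by
    rw [← Real.rpow_natCast, ← Real.rpow_mul hc.le, ← Real.rpow_natCast]; norm_num
  set t : ℝ := 4 / (5 * c) with ht
  have t0 : 0 < t := by positivity
  have hκ : (64 / 125 : ℝ) = c ^ 3 * t ^ 3 := by rw [ht]; field_simp; norm_num
  have e1 : ∀ y ∈ Ioc 0 t, 4 * π / 3 * (c ^ 3) ^ 2 =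
      y ^ (Module.finrank ℝ ℝ - 1) • prof (c ^ 3) y := by
    intro y hy
    have y0 := hy.1
    have h : c ^ 3 ≤ 64 / 125 / y ^ 3 := by
      rw [le_div_iff₀ (by positivity), hκ]
      have := hy.2
      gcongr
    rw [prof, min_eq_left h, max_eq_right (by linarith)]
    simp
  have e2 : ∀ y ∈ Ioi t, 4 * π / 3 * (64 / 125 / y ^ 3) ^ 2 + 4 / y ^ 3 * (c ^ 3 - 64 / 125 / y ^ 3) =
      y ^ (Module.finrank ℝ ℝ - 1) • prof (c ^ 3) y := by
    intro y hy
    have y1 : t < y := hy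
    have y0 : 0 < y := t0.trans y1
    have h : 64 / 125 / y ^ 3 ≤ c ^ 3 := by
      rw [div_le_iff₀ (by positivity), hκ]
      gcongr
    rw [prof, min_eq_right h, max_eq_left (by linarith)]
    simp
  have p0 : ∀ y, 0 ≤ y → 0 ≤ prof (c ^ 3) y := fun y hy => by
    unfold prof; positivity
  have hder : ∀ y ∈ Ici t, HasDerivAt (fun y : ℝ =>
      (4 * (64 / 125) / 5 - 4 * π / 3 * (64 / 125) ^ 2 / 5) * (y⁻¹) ^ 5 - 2 * c ^ 3 * (y⁻¹) ^ 2)
      (4 * π / 3 * (64 / 125 / y ^ 3) ^ 2 + 4 / y ^ 3 * (c ^ 3 - 64 / 125 / y ^ 3)) y := by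
    intro y hy
    have y0 : y ≠ 0 := (t0.trans_le hy).ne'
    have h1 := hasDerivAt_inv y0
    refine (((h1.pow 5).const_mul _).sub ((h1.pow 2).const_mul _)).congr_deriv ?_
    push_cast
    field_simp
    ring
  have hpos : ∀ y ∈ Ioi t,
      0 ≤ 4 * π / 3 * (64 / 125 / y ^ 3) ^ 2 + 4 / y ^ 3 * (c ^ 3 - 64 / 125 / y ^ 3) := by
    intro y hy
    have y0 : 0 < y := t0.trans hy
    rw [e2 y hy]
    exact smul_nonneg (by positivity) (p0 y y0.le)
  have hlim : Tendsto (fun y : ℝ =>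
      (4 * (64 / 125) / 5 - 4 * π / 3 * (64 / 125) ^ 2 / 5) * (y⁻¹) ^ 5 - 2 * c ^ 3 * (y⁻¹) ^ 2)
      atTop (𝓝 0) := by
    have := ((tendsto_inv_atTop_zero.pow 5).const_mul
      (4 * (64 / 125) / 5 - 4 * π / 3 * (64 / 125) ^ 2 / 5 : ℝ)).sub
      ((tendsto_inv_atTop_zero.pow 2).const_mul (2 * c ^ 3))
    simpa using this
  have i1 : IntegrableOn (fun y : ℝ => y ^ (Module.finrank ℝ ℝ - 1) • prof (c ^ 3) y) (Ioc 0 t) :=
    (integrableOn_const (by simp)).congr_fun e1 measurableSet_Ioc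
  have i2 : IntegrableOn (fun y : ℝ => y ^ (Module.finrank ℝ ℝ - 1) • prof (c ^ 3) y) (Ioi t) :=
    (integrableOn_Ioi_deriv_of_nonneg' hder hpos hlim).congr_fun e2 measurableSet_Ioi
  have hu : Ioi (0 : ℝ) = Ioc 0 t ∪ Ioi t := (Ioc_union_Ioi_eq_Ioi t0.le).symm
  rw [lint_radial volume p0 (hu ▸ i1.union i2), hu,
    setIntegral_union Ioc_disjoint_Ioi_same measurableSet_Ioi i1 i2,
    ← setIntegral_congr_fun measurableSet_Ioc e1, ← setIntegral_congr_fun measurableSet_Ioi e2,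
    integral_Ioi_of_hasDerivAt_of_nonneg' hder hpos hlim, e5,
    ← ENNReal.ofReal_mul (by positivity)]
  congr 1
  simp only [Module.finrank_self, Nat.cast_one, one_mul, integral_const,
    MeasurableSet.univ, measureReal_restrict_apply, univ_inter, smul_eq_mul]
  rw [Real.volume_real_ball (by norm_num), Real.volume_real_Ioc_of_le t0.le, ht]
  field_simp
  ring

theorem corr_le {f : EuclideanSpace ℝ (Fin 3) → ℝ} (hf : Measurable f) (h0 : ∀ x, 0 ≤ f x)
    (σ : ℝ) (w : EuclideanSpace ℝ (Fin 3)) :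
    ∫⁻ x, ENNReal.ofReal (f x) * ENNReal.ofReal (f (x + w)) ≤
      (∫⁻ x, ENNReal.ofReal (min (f x) σ ^ 2)) +
      (∫⁻ x, ENNReal.ofReal (max (f x - σ) 0) * ENNReal.ofReal (f (x + w))) +
      ∫⁻ x, ENNReal.ofReal (max (f x - σ) 0) * ENNReal.ofReal (f (x + -w)) := by
  have h1 : ∫⁻ x, ENNReal.ofReal (min (f x) σ ^ 2) =
      ∫⁻ x, ENNReal.ofReal (min (f x) σ ^ 2 / 2) + ENNReal.ofReal (min (f (x + w)) σ ^ 2 / 2) := by
    rw [lintegral_add_left (by fun_prop),
      lintegral_add_right_eq_self (fun x => ENNReal.ofReal (min (f x) σ ^ 2 / 2)) w,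
      ← lintegral_add_left (by fun_prop)]
    refine lintegral_congr fun x => ?_
    rw [← ENNReal.ofReal_add (by positivity) (by positivity), add_halves]
  have h2 : ∫⁻ x, ENNReal.ofReal (max (f x - σ) 0) * ENNReal.ofReal (f (x + -w)) =
      ∫⁻ x, ENNReal.ofReal (max (f (x + w) - σ) 0) * ENNReal.ofReal (f x) := by
    rw [← lintegral_add_right_eq_self _ w]
    simp only [add_neg_cancel_right]
  rw [h1, h2, ← lintegral_add_left (by fun_prop), ← lintegral_add_left (by fun_prop)]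
  refine lintegral_mono fun x => ?_
  have a1 := h0 x
  have a2 := h0 (x + w)
  simp only
  rw [← ENNReal.ofReal_mul a1, ← ENNReal.ofReal_mul (by positivity),
    ← ENNReal.ofReal_mul (by positivity), ← ENNReal.ofReal_add (by positivity) (by positivity),
    ← ENNReal.ofReal_add (by positivity) (by positivity),
    ← ENNReal.ofReal_add (by positivity) (by positivity)]
  exact ENNReal.ofReal_le_ofReal (prod_split _ _ _)

theorem tail_le {f g : EuclideanSpace ℝ (Fin 3) → ℝ≥0∞} (hf : Measurable f) (hg : Measurable g)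
    (hM : ∫⁻ x, f x = 2) {τ : ℝ} (hτ : τ ≠ 0) :
    ∫⁻ v in ball (0 : EuclideanSpace ℝ (Fin 3)) 1, ∫⁻ x, g x * f (x + τ • v) ≤
      ∫⁻ x, ENNReal.ofReal (2 / ‖τ‖ ^ 3) * g x := by
  refine (setLIntegral_le_lintegral _ _).trans (le_of_eq ?_)
  rw [lintegral_lintegral_swap (by fun_prop)]
  refine lintegral_congr fun x => ?_
  rw [lintegral_const_mul _ (by fun_prop),
    lint_smul volume (g := fun w => f (x + w)) (by fun_prop) hτ, lintegral_add_left_eq_self, hM,
    mul_comm]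
  congr 1
  simp only [finrank_euclideanSpace, Fintype.card_fin, abs_inv, abs_pow, Real.norm_eq_abs]
  rw [div_eq_inv_mul, ENNReal.ofReal_mul (by positivity), ENNReal.ofReal_ofNat]

theorem ball_corr_le {f : EuclideanSpace ℝ (Fin 3) → ℝ} (hf : Measurable f) (h0 : ∀ x, 0 ≤ f x)
    (hM : ∫⁻ x, ENNReal.ofReal (f x) = 2) {τ : ℝ} (hτ : τ ≠ 0) :
    ∫⁻ v in ball (0 : EuclideanSpace ℝ (Fin 3)) 1,
      ∫⁻ x, ENNReal.ofReal (f x) * ENNReal.ofReal (f (x + τ • v)) ≤
      ∫⁻ x, ENNReal.ofReal (prof (f x) ‖τ‖) := by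
  set σ : ℝ := 64 / 125 / ‖τ‖ ^ 3 with hσ
  refine (lintegral_mono fun v => corr_le hf h0 σ (τ • v)).trans ?_
  have t1 := tail_le (f := fun x => ENNReal.ofReal (f x))
    (g := fun x => ENNReal.ofReal (max (f x - σ) 0)) (by fun_prop) (by fun_prop) hM hτ
  have t2 := tail_le (f := fun x => ENNReal.ofReal (f x))
    (g := fun x => ENNReal.ofReal (max (f x - σ) 0)) (by fun_prop) (by fun_prop) hM
    (neg_ne_zero.2 hτ)
  simp only [neg_smul, norm_neg] at t2
  have m1 : Measurable fun v : EuclideanSpace ℝ (Fin 3) =>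
      ∫⁻ x, ENNReal.ofReal (max (f x - σ) 0) * ENNReal.ofReal (f (x + τ • v)) :=
    Measurable.lintegral_prod_right (by fun_prop)
  rw [lintegral_add_left (measurable_const.fun_add m1), lintegral_add_left measurable_const,
    setLIntegral_const, EuclideanSpace.volume_ball_fin_three, ← lintegral_mul_const _ (by fun_prop)]
  refine (add_le_add (add_le_add le_rfl t1) t2).trans (le_of_eq ?_)
  rw [← lintegral_add_left (by fun_prop), ← lintegral_add_left (by fun_prop)]
  refine lintegral_congr fun x => ?_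
  rw [ENNReal.ofReal_one, one_pow, one_mul, ← ENNReal.ofReal_mul (by positivity),
    ← ENNReal.ofReal_mul (by positivity), ← ENNReal.ofReal_add (by positivity) (by positivity),
    ← ENNReal.ofReal_add (by positivity) (by positivity), prof, ← hσ]
  congr 1
  ring

theorem lint_inv_norm : ∫⁻ v in ball (0 : EuclideanSpace ℝ (Fin 3)) 1, ENNReal.ofReal ‖v‖⁻¹ =
    ENNReal.ofReal (2 * π) := by
  have e : ∀ y ∈ Ioi (0 : ℝ), (Iio 1).indicator (fun y => y) y =
      y ^ (Module.finrank ℝ (EuclideanSpace ℝ (Fin 3)) - 1) •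
        (Iio 1).indicator (fun y : ℝ => y⁻¹) y := by
    intro y hy
    have : y ≠ 0 := ne_of_gt hy
    by_cases h : y ∈ Iio (1 : ℝ)
    · simp only [indicator_of_mem h, finrank_euclideanSpace, Fintype.card_fin, smul_eq_mul]
      field_simp
    · simp [indicator_of_notMem h]
  have i1 : IntegrableOn ((Iio 1).indicator (fun y : ℝ => y)) (Ioi 0) := by
    rw [integrableOn_indicator_iff measurableSet_Iio, Iio_inter_Ioi]
    exact (continuous_id.integrableOn_Icc (a := 0) (b := 1)).mono_set Ioo_subset_Icc_self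
  have := lint_radial (volume : Measure (EuclideanSpace ℝ (Fin 3)))
    (φ := (Iio 1).indicator fun y : ℝ => y⁻¹)
    (fun y hy => by
      by_cases h1 : y ∈ Iio (1 : ℝ)
      · rw [indicator_of_mem h1]; positivity
      · rw [indicator_of_notMem h1])
    (i1.congr_fun e measurableSet_Ioi)
  rw [← setIntegral_congr_fun measurableSet_Ioi e, setIntegral_indicator measurableSet_Iio,
    Ioi_inter_Iio, ← integral_Ioc_eq_integral_Ioo, ← intervalIntegral.integral_of_le zero_le_one,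
    integral_id, Measure.real, EuclideanSpace.volume_ball_fin_three] at this
  rw [← lintegral_indicator measurableSet_ball]
  convert this using 1
  · refine lintegral_congr fun v => ?_
    by_cases h : v ∈ ball (0 : EuclideanSpace ℝ (Fin 3)) 1
    · rw [indicator_of_mem h, indicator_of_mem (by simpa using h)]
    · rw [indicator_of_notMem h, indicator_of_notMem (by simpa using h), ENNReal.ofReal_zero]
  · congr 1
    rw [ENNReal.ofReal_one, one_pow, one_mul, ENNReal.toReal_ofReal (by positivity)]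
    simp only [finrank_euclideanSpace, Fintype.card_fin]
    push_cast
    ring

theorem exists_direction {f : EuclideanSpace ℝ (Fin 3) → ℝ} (hf : Measurable f)
    (h0 : ∀ x, 0 ≤ f x) (hM : ∫⁻ x, ENNReal.ofReal (f x) = 2) :
    ∃ ω : EuclideanSpace ℝ (Fin 3), ‖ω‖ = 1 ∧
      ∫⁻ x, ENNReal.ofReal (f x) * ∫⁻ τ : ℝ, ENNReal.ofReal (f (x + τ • ω)) ≤
        ENNReal.ofReal ((64 * π / 25 + 15 / 4) / (2 * π)) *
          ∫⁻ x, ENNReal.ofReal (f x ^ (5 / 3 : ℝ)) := by
  set P := ∫⁻ x, ENNReal.ofReal (f x ^ (5 / 3 : ℝ)) with hP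
  set c := ENNReal.ofReal ((64 * π / 25 + 15 / 4) / (2 * π)) with hc
  by_cases hPt : P = ⊤
  · refine ⟨EuclideanSpace.single 0 1, by simp, ?_⟩
    rw [hPt, ENNReal.mul_top (by rw [hc]; simp only [ne_eq, ENNReal.ofReal_eq_zero, not_le]; positivity)]
    exact le_top
  set j : EuclideanSpace ℝ (Fin 3) → ℝ≥0∞ := fun v =>
    ∫⁻ τ : ℝ, ∫⁻ x, ENNReal.ofReal (f x) * ENNReal.ofReal (f (x + τ • v)) with hj
  have m1 : Measurable fun p : EuclideanSpace ℝ (Fin 3) × ℝ =>
      ∫⁻ x, ENNReal.ofReal (f x) * ENNReal.ofReal (f (x + p.2 • p.1)) :=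
    Measurable.lintegral_prod_right (by fun_prop)
  have mj : Measurable j := Measurable.lintegral_prod_right m1
  have h1 : ∫⁻ v in ball (0 : EuclideanSpace ℝ (Fin 3)) 1, j v ≤
      ∫⁻ v in ball (0 : EuclideanSpace ℝ (Fin 3)) 1, c * P * ENNReal.ofReal ‖v‖⁻¹ := by
    rw [lintegral_const_mul _ (by fun_prop), lint_inv_norm, hj,
      lintegral_lintegral_swap m1.aemeasurable]
    have : ∀ᵐ τ : ℝ, τ ≠ 0 := by simp [ae_iff]
    refine (lintegral_mono_ae (this.mono fun τ hτ => ball_corr_le hf h0 hM hτ)).trans (le_of_eq ?_)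
    rw [lintegral_lintegral_swap (by unfold prof; fun_prop)]
    simp only [lint_prof (h0 _)]
    rw [lintegral_const_mul _ (by fun_prop), ← hP, mul_right_comm, hc,
      ← ENNReal.ofReal_mul (by positivity), div_mul_cancel₀ _ (by positivity)]
  obtain ⟨v, hv0, hv⟩ : ∃ v : EuclideanSpace ℝ (Fin 3), v ≠ 0 ∧
      j v ≤ c * P * ENNReal.ofReal ‖v‖⁻¹ := by
    by_contra hcon
    push Not at hcon
    have a0 : ∀ᵐ v ∂(volume.restrict (ball (0 : EuclideanSpace ℝ (Fin 3)) 1)), v ≠ 0 :=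
      ae_restrict_of_ae (by simp [ae_iff])
    have a1 := ae_eq_of_ae_le_of_lintegral_le (a0.mono fun v hv => (hcon v hv).le) (by
      rw [lintegral_const_mul _ (by fun_prop), lint_inv_norm]
      exact ENNReal.mul_ne_top (ENNReal.mul_ne_top ENNReal.ofReal_ne_top hPt)
        ENNReal.ofReal_ne_top) mj.aemeasurable h1
    have : NeBot (ae (volume.restrict (ball (0 : EuclideanSpace ℝ (Fin 3)) 1))) := by
      rw [ae_neBot, Ne, Measure.restrict_eq_zero]
      exact (measure_ball_pos _ _ one_pos).ne'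
    obtain ⟨v, h2, h3⟩ := (a0.and a1).exists
    exact (hcon v h2).ne h3
  have n0 : 0 < ‖v‖ := norm_pos_iff.2 hv0
  refine ⟨‖v‖⁻¹ • v, by rw [norm_smul, norm_inv, norm_norm, inv_mul_cancel₀ n0.ne'], ?_⟩
  have e1 : ∀ x, ∫⁻ τ : ℝ, ENNReal.ofReal (f (x + τ • ‖v‖⁻¹ • v)) =
      ENNReal.ofReal ‖v‖ * ∫⁻ τ : ℝ, ENNReal.ofReal (f (x + τ • v)) := by
    intro x
    have := lint_smul volume (g := fun τ : ℝ => ENNReal.ofReal (f (x + τ • v))) (by fun_prop)
      (inv_ne_zero n0.ne')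
    simp only [Module.finrank_self, pow_one, inv_inv, abs_norm, smul_eq_mul] at this
    rw [← this]
    simp only [smul_smul, mul_comm]
  have e2 : j v = ∫⁻ x, ENNReal.ofReal (f x) * ∫⁻ τ : ℝ, ENNReal.ofReal (f (x + τ • v)) := by
    rw [hj]
    simp only
    rw [lintegral_lintegral_swap (by fun_prop)]
    exact lintegral_congr fun x => lintegral_const_mul _ (by fun_prop)
  simp only [e1, mul_left_comm _ (ENNReal.ofReal ‖v‖)]
  rw [lintegral_const_mul' _ _ ENNReal.ofReal_ne_top, ← e2]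
  refine (mul_le_mul_right hv _).trans (le_of_eq ?_)
  rw [mul_left_comm, ← ENNReal.ofReal_mul n0.le, mul_inv_cancel₀ n0.ne', ENNReal.ofReal_one, mul_one]

end Pool.Agent.MP_2c73ad_mp.H42
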