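import Mathlib

/-! Finite lemmas: balanced fractional assignment, phases, and a matrix square root. -/

open Finset

namespace Pool.Agent.MP_2c73ad_mp.H42

theorem steinitz {ι : Type*} [DecidableEq ι] (m d : ι → ℝ) (δ : ℝ) (hm : ∀ i, 0 ≤ m i)
    (hd : ∀ i, |d i| ≤ δ) (s : Finset ι) :
    ∀ p c : ℝ, |c| ≤ δ → c + ∑ i ∈ s, d i = 0 → ∃ P : ι → ℝ,
      (∀ i ∈ s, p ≤ P i ∧ P i + m i ≤ p + ∑ k ∈ s, m k) ∧
      (∀ g : ℝ → ℝ, ∑ i ∈ s, (g (P i + m i) - g (P i)) = g (p + ∑ k ∈ s, m k) - g p) ∧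
      (∀ β : ℝ, |c + ∑ i ∈ s with P i + m i ≤ β, d i| ≤ δ) ∧
      (∀ α β : ℝ, ∑ i ∈ s with (α ≤ P i ∧ P i + m i ≤ β), d i ≤ 2 * δ) ∧
      (∀ α : ℝ, (s.filter fun i => P i < α ∧ α < P i + m i).card ≤ 1) := by
  induction s using Finset.strongInduction with
  | H s ih =>
  intro p c hc hs
  rcases s.eq_empty_or_nonempty with rfl | hne
  · have h0 : 0 ≤ δ := (abs_nonneg c).trans hc
    exact ⟨fun _ => p, by simp, by simp, by simpa using hc, by simp; linarith, by simp⟩
  have hex : ∃ i ∈ s, |c + d i| ≤ δ := by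
    rcases le_total 0 c with h | h
    · obtain ⟨i, hi, hle⟩ : ∃ i ∈ s, d i ≤ 0 := by
        by_contra hcon
        push Not at hcon
        have := Finset.sum_pos hcon hne
        linarith
      refine ⟨i, hi, ?_⟩
      have h1 := abs_le.1 (hd i)
      have h2 := abs_le.1 hc
      rw [abs_le]; constructor <;> linarith
    · obtain ⟨i, hi, hle⟩ : ∃ i ∈ s, 0 ≤ d i := by
        by_contra hcon
        push Not at hcon
        have := Finset.sum_neg hcon hne
        linarith
      refine ⟨i, hi, ?_⟩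
      have h1 := abs_le.1 (hd i)
      have h2 := abs_le.1 hc
      rw [abs_le]; constructor <;> linarith
  obtain ⟨j, hj, hcj⟩ := hex
  have hsum : ∀ f : ι → ℝ, ∑ i ∈ s, f i = f j + ∑ i ∈ s.erase j, f i :=
    fun f => (Finset.add_sum_erase s f hj).symm
  obtain ⟨P, h1, h2, h3, h4, h5⟩ := ih (s.erase j) (Finset.erase_ssubset hj) (p + m j) (c + d j) hcj
    (by rw [hsum d] at hs; linarith)
  set Q : ι → ℝ := Function.update P j p with hQ
  have hQj : Q j = p := by simp [hQ]
  have hQi : ∀ i ∈ s.erase j, Q i = P i := fun i hi => by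
    simp [hQ, Function.update_of_ne (Finset.ne_of_mem_erase hi)]
  have hms : 0 ≤ ∑ k ∈ s.erase j, m k := Finset.sum_nonneg fun k _ => hm k
  have hfil : ∀ (q : ι → ℝ → Prop) [∀ i y, Decidable (q i y)] (f : ι → ℝ),
      ∑ i ∈ s with q i (Q i), f i = (if q j p then f j else 0) + ∑ i ∈ s.erase j with q i (P i), f i := by
    intro q _ f
    rw [Finset.sum_filter, Finset.sum_filter, hsum, hQj]
    congr 1
    exact Finset.sum_congr rfl fun i hi => by rw [hQi i hi]
  have h3' : ∀ β : ℝ, |c + ∑ i ∈ s with Q i + m i ≤ β, d i| ≤ δ := by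
    intro β
    rw [hfil (fun i y => y + m i ≤ β)]
    split_ifs with h
    · rw [← add_assoc]; exact h3 β
    · rw [Finset.filter_false_of_mem, Finset.sum_empty]
      · simpa using hc
      · intro i hi
        have := (h1 i hi).1
        have := hm i
        push Not at h ⊢
        linarith
  refine ⟨Q, ?_, ?_, h3', ?_, ?_⟩
  · intro i hi
    rw [hsum m]
    by_cases hij : i = j
    · subst hij; rw [hQj]; constructor <;> linarith
    · have hi' : i ∈ s.erase j := Finset.mem_erase.2 ⟨hij, hi⟩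
      rw [hQi i hi']
      have := h1 i hi'
      have := hm j
      constructor <;> linarith
  · intro g
    rw [hsum, hsum m, hQj, Finset.sum_congr rfl fun i hi => by rw [hQi i hi], h2 g, add_assoc]
    ring
  · intro α β
    by_cases hα : α ≤ p
    · have e : (s.filter fun i => α ≤ Q i ∧ Q i + m i ≤ β) = s.filter fun i => Q i + m i ≤ β := by
        apply Finset.filter_congr
        intro i hi
        refine ⟨fun h => h.2, fun h => ⟨?_, h⟩⟩
        by_cases hij : i = j
        · subst hij; rw [hQj]; exact hα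
        · have hi' : i ∈ s.erase j := Finset.mem_erase.2 ⟨hij, hi⟩
          rw [hQi i hi']
          have := (h1 i hi').1
          have := hm j
          linarith
      rw [e]
      have h6 := abs_le.1 (h3' β)
      have h7 := abs_le.1 hc
      linarith
    · rw [hfil (fun i y => α ≤ y ∧ y + m i ≤ β), if_neg (fun h => hα h.1), zero_add]
      exact h4 α β
  · intro α
    have e := hfil (fun i y => y < α ∧ α < y + m i) (fun _ => 1)
    simp only [Finset.sum_const, nsmul_eq_mul, mul_one] at e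
    have : ((s.filter fun i => Q i < α ∧ α < Q i + m i).card : ℝ) ≤ 1 := by
      rw [e]
      split_ifs with h
      · rw [Finset.filter_false_of_mem]
        · simp
        · intro i hi hh
          have := (h1 i hi).1
          linarith [hh.1, h.2]
      · rw [zero_add]; exact_mod_cast h5 α
    exact_mod_cast this

/-- clamp to the unit interval -/
noncomputable def cl (y : ℝ) : ℝ := max 0 (min 1 y)

theorem cl_nonneg (y : ℝ) : 0 ≤ cl y := le_max_left _ _

theorem cl_le_one (y : ℝ) : cl y ≤ 1 := max_le zero_le_one (min_le_left _ _)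

theorem cl_of_nonpos {y : ℝ} (h : y ≤ 0) : cl y = 0 :=
  max_eq_left ((min_le_right _ _).trans h)

theorem cl_of_one_le {y : ℝ} (h : 1 ≤ y) : cl y = 1 := by
  unfold cl; rw [min_eq_left h]; exact max_eq_right zero_le_one

theorem cl_of_mem {y : ℝ} (h0 : 0 ≤ y) (h : y ≤ 1) : cl y = y := by
  unfold cl; rw [min_eq_right h]; exact max_eq_right h0

theorem cl_mono {x y : ℝ} (h : x ≤ y) : cl x ≤ cl y :=
  max_le_max le_rfl (min_le_min le_rfl h)

theorem cl_lip (x y : ℝ) : |cl x - cl y| ≤ |x - y| := by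
  unfold cl
  refine (abs_max_sub_max_le_max _ _ _ _).trans (max_le (by simp) ?_)
  refine (abs_min_sub_min_le_max _ _ _ _).trans (max_le (by simp) le_rfl)

theorem sum_cl (N : ℕ) (y : ℝ) (h0 : 0 ≤ y) : ∑ a ∈ range N, cl (y - a) = min y N := by
  induction N with
  | zero => simp [h0]
  | succ n ih =>
    rw [Finset.sum_range_succ, ih]
    push_cast
    rcases le_total y n with h | h
    · rw [cl_of_nonpos (by linarith), min_eq_left h, min_eq_left (by linarith)]; ring
    · rw [min_eq_right h]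
      rcases le_total y (n + 1) with h' | h'
      · rw [cl_of_mem (by linarith) (by linarith), min_eq_left h']; ring
      · rw [cl_of_one_le (by linarith), min_eq_right h']

theorem assign {ι : Type*} [Fintype ι] [DecidableEq ι] (N : ℕ) (hN : 0 < N) (m t : ι → ℝ) (δ τ : ℝ)
    (hm : ∀ i, 0 ≤ m i ∧ m i ≤ δ) (ht : ∀ i, 0 ≤ t i ∧ t i ≤ δ) (hmt : ∀ i, m i = 0 → t i = 0)
    (hsm : ∑ i, m i = N) (hst : ∑ i, t i ≤ τ * N) (hτ : τ ≤ 1) :
    ∃ lam : Fin N → ι → ℝ, (∀ a i, 0 ≤ lam a i) ∧ (∀ i, ∑ a, lam a i = 1) ∧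
      (∀ a, ∑ i, lam a i * m i = 1) ∧
      (∀ a, ∑ i with lam a i = 1, t i ≤ τ + 2 * δ) ∧
      (∀ a, (univ.filter fun i => lam a i ≠ 0 ∧ lam a i ≠ 1).card ≤ 2) := by
  have hN' : (0 : ℝ) < N := by exact_mod_cast hN
  set τ' : ℝ := (∑ i, t i) / N with hτ'
  have h0τ : 0 ≤ τ' := div_nonneg (Finset.sum_nonneg fun i _ => (ht i).1) hN'.le
  have hττ : τ' ≤ τ := by rw [hτ', div_le_iff₀ hN']; exact hst
  have hδ : 0 ≤ δ := by
    by_contra hcon
    have : IsEmpty ι := ⟨fun i => hcon ((hm i).1.trans (hm i).2)⟩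
    simp at hsm
    linarith
  obtain ⟨P, h1, h2, -, h4, h5⟩ := steinitz m (fun i => t i - τ' * m i) δ (fun i => (hm i).1)
    (fun i => by
      have a := hm i
      have b := ht i
      have : τ' * m i ≤ 1 * m i := mul_le_mul_of_nonneg_right (hττ.trans hτ) a.1
      have : 0 ≤ τ' * m i := mul_nonneg h0τ a.1
      rw [abs_le]; constructor <;> linarith) univ 0 0 (by simpa using hδ)
    (by rw [Finset.sum_sub_distrib, ← Finset.mul_sum, hsm, hτ']; field_simp; ring)
  rw [hsm] at h1 h2
  simp only [zero_add, Finset.mem_univ, forall_const] at h1 h2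
  set z : Fin N := ⟨0, hN⟩
  set ov : Fin N → ι → ℝ := fun a i => cl (P i + m i - (a : ℕ)) - cl (P i - (a : ℕ)) with hov
  set lam : Fin N → ι → ℝ := fun a i => if m i = 0 then (if a = z then 1 else 0) else ov a i / m i
    with hlam
  have hov0 : ∀ a i, 0 ≤ ov a i := fun a i => sub_nonneg.2 (cl_mono (by linarith [(hm i).1]))
  have hlm : ∀ a i, lam a i * m i = ov a i := by
    intro a i
    by_cases h : m i = 0
    · simp [hov, h]
    · simp only [hlam, if_neg h]; field_simp
  have hl0 : ∀ a i, 0 ≤ lam a i := by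
    intro a i
    simp only [hlam]
    split_ifs
    · exact zero_le_one
    · exact le_rfl
    · exact div_nonneg (hov0 a i) (hm i).1
  have hsum1 : ∀ a, ∑ i, lam a i * m i = 1 := by
    intro a
    simp only [hlm, hov]
    have := h2 (fun y => cl (y - (a : ℕ)))
    rw [this, cl_of_one_le, cl_of_nonpos] 
    · ring
    · simp
    · have : (a : ℕ) + 1 ≤ N := a.2
      have : ((a : ℕ) : ℝ) + 1 ≤ N := by exact_mod_cast this
      linarith
  have hin : ∀ (a : Fin N) i, ((a : ℕ) : ℝ) ≤ P i → P i + m i ≤ (a : ℕ) + 1 → ov a i = m i := by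
    intro a i ha hb
    have := (hm i).1
    simp only [hov]
    rw [cl_of_mem (by linarith) (by linarith), cl_of_mem (by linarith) (by linarith)]; ring
  refine ⟨lam, hl0, ?_, hsum1, ?_, ?_⟩
  · intro i
    by_cases h : m i = 0
    · simp [hlam, h]
    · simp only [hlam, if_neg h]
      rw [← Finset.sum_div, div_eq_one_iff_eq h]
      simp only [hov]
      rw [Finset.sum_sub_distrib, Fin.sum_univ_eq_sum_range (fun a => cl (P i + m i - a)),
        Fin.sum_univ_eq_sum_range (fun a => cl (P i - a)), sum_cl _ _ (h1 i).1,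
        sum_cl _ _ (by linarith [(h1 i).1, (hm i).1]), min_eq_left (h1 i).2,
        min_eq_left (by linarith [(h1 i).2, (hm i).1])]
      ring
  · intro a
    set U := univ.filter fun i => ((a : ℕ) : ℝ) ≤ P i ∧ P i + m i ≤ (a : ℕ) + 1 with hU
    have e1 : ∑ i with lam a i = 1, t i ≤ ∑ i ∈ U, t i := by
      rw [Finset.sum_filter, hU, Finset.sum_filter]
      apply Finset.sum_le_sum
      intro i _
      by_cases hl : lam a i = 1
      · rw [if_pos hl]
        by_cases h : m i = 0
        · rw [hmt i h]; simp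
        · have hpos : 0 < m i := lt_of_le_of_ne (hm i).1 (Ne.symm h)
          have e : ov a i = m i := by rw [← hlm, hl, one_mul]
          simp only [hov] at e
          rw [if_pos]
          constructor
          · by_contra hcon
            push Not at hcon
            rw [cl_of_nonpos (y := P i - _) (by linarith)] at e
            have : cl (P i + m i - (a : ℕ)) < m i := by
              unfold cl
              exact max_lt hpos (min_lt_of_right_lt (by linarith))
            linarith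
          · by_contra hcon
            push Not at hcon
            rw [cl_of_one_le (by linarith)] at e
            have : 1 - m i < cl (P i - (a : ℕ)) := by
              unfold cl
              exact lt_max_of_lt_right (lt_min (by linarith) (by linarith))
            linarith
      · rw [if_neg hl]
        split_ifs
        · exact (ht i).1
        · exact le_rfl
    have e2 : ∑ i ∈ U, m i ≤ 1 := by
      rw [← hsum1 a, hU, Finset.sum_filter]
      apply Finset.sum_le_sum
      intro i _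
      split_ifs with h
      · rw [hlm, hin a i h.1 h.2]
      · exact mul_nonneg (hl0 a i) (hm i).1
    have e3 := h4 ((a : ℕ) : ℝ) ((a : ℕ) + 1)
    rw [Finset.sum_sub_distrib, ← Finset.mul_sum] at e3
    have : τ' * ∑ i ∈ U, m i ≤ τ' * 1 := mul_le_mul_of_nonneg_left e2 h0τ
    linarith
  · intro a
    have hsub : (univ.filter fun i => lam a i ≠ 0 ∧ lam a i ≠ 1) ⊆
        (univ.filter fun i => P i < ((a : ℕ) : ℝ) ∧ ((a : ℕ) : ℝ) < P i + m i) ∪
        (univ.filter fun i => P i < ((a : ℕ) : ℝ) + 1 ∧ ((a : ℕ) : ℝ) + 1 < P i + m i) := by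
      intro i hi
      simp only [Finset.mem_filter, Finset.mem_univ, true_and, Finset.mem_union] at hi ⊢
      have h : m i ≠ 0 := by
        intro h
        simp only [hlam, if_pos h] at hi
        split_ifs at hi <;> simp at hi
      have hpos : 0 < m i := lt_of_le_of_ne (hm i).1 (Ne.symm h)
      simp only [hlam, if_neg h] at hi
      by_contra hcon
      push Not at hcon
      obtain ⟨c1, c2⟩ := hcon
      rcases lt_or_ge (P i) ((a : ℕ) : ℝ) with ha | ha
      · apply hi.1
        have := c1 ha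
        simp only [hov]
        rw [cl_of_nonpos (by linarith), cl_of_nonpos (by linarith)]; simp
      · rcases lt_or_ge (P i) (((a : ℕ) : ℝ) + 1) with hb | hb
        · apply hi.2
          rw [hin a i ha (c2 hb), div_self h]
        · apply hi.1
          simp only [hov]
          rw [cl_of_one_le (by linarith), cl_of_one_le (by linarith)]; simp
    have := Finset.card_le_card hsub
    have := Finset.card_union_le
      (univ.filter fun i => P i < ((a : ℕ) : ℝ) ∧ ((a : ℕ) : ℝ) < P i + m i)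
      (univ.filter fun i => P i < ((a : ℕ) : ℝ) + 1 ∧ ((a : ℕ) : ℝ) + 1 < P i + m i)
    have := h5 ((a : ℕ) : ℝ)
    have := h5 (((a : ℕ) : ℝ) + 1)
    omega

theorem signs {ι : Type*} [DecidableEq ι] (w : ι → ℝ) (ω : ℝ) (hω : 0 ≤ ω)
    (hw : ∀ i, 0 ≤ w i ∧ w i ≤ ω) (s : Finset ι) :
    ∃ J ⊆ s, |∑ i ∈ J, w i - ∑ i ∈ s \ J, w i| ≤ ω := by
  induction s using Finset.induction_on with
  | empty => exact ⟨∅, by simp, by simpa using hω⟩
  | insert j s hj ih =>
    obtain ⟨J, hJ, h⟩ := ih
    have hjJ : j ∉ J := fun h => hj (hJ h)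
    have hb := abs_le.1 h
    have := hw j
    rcases le_total 0 (∑ i ∈ J, w i - ∑ i ∈ s \ J, w i) with h0 | h0
    · refine ⟨J, hJ.trans (Finset.subset_insert _ _), ?_⟩
      rw [Finset.insert_sdiff_of_notMem _ hjJ, Finset.sum_insert (by simp [hj])]
      rw [abs_le]; constructor <;> linarith
    · refine ⟨insert j J, Finset.insert_subset_insert _ hJ, ?_⟩
      have e : insert j s \ insert j J = s \ J := by
        ext i
        simp only [Finset.mem_sdiff, Finset.mem_insert]
        constructor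
        · rintro ⟨h1 | h1, h2⟩
          · exact absurd (Or.inl h1) h2
          · exact ⟨h1, fun h => h2 (Or.inr h)⟩
        · rintro ⟨h1, h2⟩
          refine ⟨Or.inr h1, ?_⟩
          rintro (rfl | h)
          · exact hj h1
          · exact h2 h
      rw [e, Finset.sum_insert hjJ]
      rw [abs_le]; constructor <;> linarith

theorem unit_of_norm (p : ℂ) : ∃ ζ : ℂ, ‖ζ‖ = 1 ∧ p = (‖p‖ : ℝ) * ζ := by
  by_cases h : p = 0
  · exact ⟨1, by simp, by simp [h]⟩
  · have h' : (‖p‖ : ℂ) ≠ 0 := by exact_mod_cast norm_ne_zero_iff.2 h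
    refine ⟨p / (‖p‖ : ℝ), ?_, ?_⟩
    · rw [norm_div, Complex.norm_real, norm_norm, div_self (norm_ne_zero_iff.2 h)]
    · field_simp

theorem triangle_exists (α β c : ℝ) (hα : 0 ≤ α) (hβ : 0 ≤ β) (hc : 0 < c) (h1 : |α - β| ≤ c)
    (h2 : c ≤ α + β) : ∃ p : ℂ, ‖p‖ = α ∧ ‖(c : ℂ) - p‖ = β := by
  set x : ℝ := (α ^ 2 - β ^ 2 + c ^ 2) / (2 * c) with hx
  have hb := abs_le.1 h1
  have hxc : x * (2 * c) = α ^ 2 - β ^ 2 + c ^ 2 := by rw [hx]; field_simp
  have hle : x ^ 2 ≤ α ^ 2 := by
    apply sq_le_sq'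
    · rw [hx, le_div_iff₀ (by linarith)]; nlinarith
    · rw [hx, div_le_iff₀ (by linarith)]; nlinarith
  have hs := Real.sq_sqrt (sub_nonneg.2 hle)
  refine ⟨⟨x, √(α ^ 2 - x ^ 2)⟩, ?_, ?_⟩
  · rw [← pow_left_inj₀ (norm_nonneg _) hα two_ne_zero, Complex.sq_norm, Complex.normSq_apply]
    simp only
    nlinarith
  · rw [← pow_left_inj₀ (norm_nonneg _) hβ two_ne_zero, Complex.sq_norm, Complex.normSq_apply]
    simp only [Complex.sub_re, Complex.ofReal_re, Complex.sub_im, Complex.ofReal_im]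
    nlinarith

theorem phases {ι : Type*} [DecidableEq ι] (w : ι → ℝ) (ω c : ℝ) (hc : 0 < c) (hω : 0 ≤ ω)
    (hw : ∀ i, 0 ≤ w i ∧ w i ≤ ω) (s : Finset ι) (h1 : ω ≤ c) (h2 : c ≤ ∑ i ∈ s, w i) :
    ∃ ζ : ι → ℂ, (∀ i, ‖ζ i‖ = 1) ∧ ∑ i ∈ s, (w i : ℂ) * ζ i = c := by
  obtain ⟨J, hJ, h⟩ := signs w ω hω hw s
  have hs : ∑ i ∈ s \ J, w i + ∑ i ∈ J, w i = ∑ i ∈ s, w i := Finset.sum_sdiff hJ
  obtain ⟨p, hp1, hp2⟩ := triangle_exists (∑ i ∈ J, w i) (∑ i ∈ s \ J, w i) c
    (Finset.sum_nonneg fun i _ => (hw i).1) (Finset.sum_nonneg fun i _ => (hw i).1) hc (h.trans h1)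
    (by linarith)
  obtain ⟨ζ₁, hz1, e1⟩ := unit_of_norm p
  obtain ⟨ζ₂, hz2, e2⟩ := unit_of_norm ((c : ℂ) - p)
  refine ⟨fun i => if i ∈ J then ζ₁ else ζ₂, fun i => by dsimp only; split_ifs <;> assumption, ?_⟩
  rw [← Finset.sum_sdiff hJ, Finset.sum_congr rfl (g := fun i => (w i : ℂ) * ζ₂),
    Finset.sum_congr (s₁ := J) rfl (g := fun i => (w i : ℂ) * ζ₁), ← Finset.sum_mul, ← Finset.sum_mul]
  · rw [hp1] at e1
    rw [hp2] at e2
    push_cast at e1 e2
    rw [← e1, ← e2]; ring
  · intro i hi; simp [hi]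
  · intro i hi; simp [(Finset.mem_sdiff.1 hi).2]

open scoped MatrixOrder in
theorem matrix_sqrt {n : Type*} [Fintype n] [DecidableEq n] (A : Matrix n n ℝ)
    (hs : ∀ a b, A a b = A b a) (hd : ∀ a, A a a = 1)
    (h0 : ∀ x : n → ℝ, 0 ≤ ∑ a, ∑ b, x a * A a b * x b)
    (h2 : ∀ x : n → ℝ, ∑ a, ∑ b, x a * A a b * x b ≤ 2 * ∑ a, x a ^ 2) :
    ∃ Y : n → n → ℝ, (∀ b c, ∑ a, Y a b * Y a c = A b c) ∧ (∀ a, ∑ b, Y a b ^ 2 = 1) ∧
      ∀ a, 5 / 8 ≤ Y a a := by
  have hform : ∀ (M : Matrix n n ℝ) (x : n → ℝ),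
      star x ⬝ᵥ (M.mulVec x) = ∑ a, ∑ b, x a * M a b * x b := by
    intro M x
    simp only [dotProduct, Matrix.mulVec, star_trivial, Finset.mul_sum, mul_assoc]
  have hA : A.PosSemidef := Matrix.PosSemidef.of_dotProduct_mulVec_nonneg
    (by ext a b; simp [hs a b]) (fun x => by rw [hform]; exact h0 x)
  set Y : Matrix n n ℝ := CFC.sqrt A with hY
  have hYp : Y.PosSemidef := Matrix.nonneg_iff_posSemidef.1 (CFC.sqrt_nonneg A)
  have hYs : ∀ a b, Y a b = Y b a := fun a b => by
    have := congrFun (congrFun hYp.isHermitian b) a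
    simpa using this
  have hYY : ∀ b c, ∑ a, Y a b * Y a c = A b c := by
    intro b c
    have := congrFun (congrFun (CFC.sqrt_mul_sqrt_self A hA.nonneg) b) c
    rw [Matrix.mul_apply] at this
    rw [← this]
    exact Finset.sum_congr rfl fun a _ => by rw [hYs a b]
  have hrow : ∀ a, ∑ b, Y a b ^ 2 = 1 := by
    intro a
    rw [← hd a, ← hYY a a]
    exact Finset.sum_congr rfl fun b _ => by rw [hYs a b, sq]
  refine ⟨fun a b => Y a b, hYY, hrow, fun a => ?_⟩
  set y : n → ℝ := fun b => Y a b with hy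
  set v : n → ℝ := fun c => ∑ b, y b * Y c b with hv
  have hv2 : ∑ c, v c ^ 2 ≤ 2 := by
    have e : ∑ c, v c ^ 2 = ∑ b, ∑ b', y b * A b b' * y b' := by
      simp only [hv, sq, Finset.sum_mul_sum]
      rw [Finset.sum_comm]
      refine Finset.sum_congr rfl fun b _ => ?_
      rw [Finset.sum_comm]
      refine Finset.sum_congr rfl fun b' _ => ?_
      rw [← hYY b b', Finset.mul_sum, Finset.sum_mul]
      exact Finset.sum_congr rfl fun c _ => by ring
    rw [e]
    have := h2 y
    rw [hrow a] at this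
    linarith
  have hyv : ∑ c, y c * v c ≤ 3 / 2 := by
    have : ∑ c, y c * v c ≤ ∑ c, (y c ^ 2 + v c ^ 2) / 2 :=
      Finset.sum_le_sum fun c _ => by nlinarith [sq_nonneg (y c - v c)]
    rw [← Finset.sum_div, Finset.sum_add_distrib, hrow a] at this
    linarith
  have key := hYp.dotProduct_mulVec_nonneg (fun b => (if b = a then 2 else 0) - y b)
  rw [hform] at key
  have e : ∑ b, ∑ c, ((if b = a then 2 else 0) - y b) * Y b c * ((if c = a then 2 else 0) - y c)
      = 4 * Y a a - 4 * ∑ b, Y a b ^ 2 + ∑ c, y c * v c := by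
    have e1 : ∀ b, ∑ c, ((if b = a then 2 else 0) - y b) * Y b c * ((if c = a then 2 else 0) - y c)
        = ((if b = a then 2 else 0) - y b) * (2 * y b - v b) := by
      intro b
      simp only [mul_assoc, ← Finset.mul_sum]
      congr 1
      simp only [mul_sub, Finset.sum_sub_distrib, mul_ite, mul_zero, Finset.sum_ite_eq',
        Finset.mem_univ, if_true, hv, hy]
      rw [hYs b a]
      congr 1
      · ring
      · exact Finset.sum_congr rfl fun c _ => by ring
    have hva : v a = ∑ b, Y a b ^ 2 := Finset.sum_congr rfl fun b _ => by rw [sq]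
    rw [Finset.sum_congr rfl fun b _ => e1 b]
    simp only [sub_mul, Finset.sum_sub_distrib, ite_mul, zero_mul, Finset.sum_ite_eq',
      Finset.mem_univ, if_true, mul_sub, hva]
    have : ∑ b, y b * (2 * y b) = 2 * ∑ b, Y a b ^ 2 := by
      rw [Finset.mul_sum]; exact Finset.sum_congr rfl fun b _ => by simp only [hy]; ring
    rw [this]
    simp only [hy]
    ring
  rw [e, hrow a] at key
  show 5 / 8 ≤ Y a a
  linarith

end Pool.Agent.MP_2c73ad_mp.H42
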