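import Pool.Agent.MP_2c73ad_mp.H42.Finite

/-! From small atoms to groups of mass one. -/

set_option linter.unusedSectionVars false

open Finset MeasureTheory

namespace Pool.Agent.MP_2c73ad_mp.H42

variable {X : Type*} [PseudoMetricSpace X] [MeasurableSpace X] [BorelSpace X]

/-- A Lipschitz partition of unity into small atoms, with cutoffs `β` living where one atom is alone. -/
structure Atoms (μ : Measure X) (N : ℕ) (L : X → ℝ) {ι : Type} [Fintype ι] (ψ β : ι → X → ℝ) :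
    Prop where
  cψ : ∀ i, Continuous (ψ i)
  cβ : ∀ i, Continuous (β i)
  ψ0 : ∀ i x, 0 ≤ ψ i x
  ψ1 : ∀ x, ∑ i, ψ i x ^ 2 = 1
  β0 : ∀ i x, 0 ≤ β i x
  β1 : ∀ i x, β i x ≤ 1
  alone : ∀ i x, β i x ≠ 0 → ∀ k, k ≠ i → ψ k x = 0
  small : ∀ i, μ.real {x | ψ i x ≠ 0} ≤ 1 / 20
  trans : ∑ i, μ.real ({x | ψ i x ≠ 0} \ {x | β i x = 1}) ≤ 1 / 20 * N
  lψ : ∀ x y, ∑ i, (ψ i y - ψ i x) ^ 2 ≤ (L x * dist y x) ^ 2
  lβ : ∀ i x y, |β i y - β i x| ≤ L x * dist y x

theorem int_bdd {μ : Measure X} [IsFiniteMeasure μ] {E : Type*} [NormedAddCommGroup E]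
    [SecondCountableTopology E] {f : X → E} (hf : Continuous f) (C : ℝ) (h : ∀ x, ‖f x‖ ≤ C) :
    Integrable f μ :=
  Integrable.of_bound hf.aestronglyMeasurable C (Filter.Eventually.of_forall h)

theorem integral_le_of_indicator {μ : Measure X} [IsFiniteMeasure μ] {f : X → ℝ}
    (hf : Integrable f μ) {S : Set X} (hS : MeasurableSet S) (h1 : ∀ x, f x ≤ 1)
    (h0 : ∀ x, x ∉ S → f x ≤ 0) : ∫ x, f x ∂μ ≤ μ.real S := by
  rw [← integral_indicator_one hS]
  apply integral_mono hf ((integrable_const (1 : ℝ)).indicator hS)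
  intro x
  by_cases hx : x ∈ S
  · simp [hx, h1 x]
  · simp [hx, h0 x hx]

theorem sqrt_sum_lip {ι : Type*} [Fintype ι] (l p q : ι → ℝ) (hl : ∀ i, 0 ≤ l i) :
    (√(∑ i, l i * p i ^ 2) - √(∑ i, l i * q i ^ 2)) ^ 2 ≤ ∑ i, l i * (p i - q i) ^ 2 := by
  have hp : 0 ≤ ∑ i, l i * p i ^ 2 := Finset.sum_nonneg fun i _ => mul_nonneg (hl i) (sq_nonneg _)
  have hq : 0 ≤ ∑ i, l i * q i ^ 2 := Finset.sum_nonneg fun i _ => mul_nonneg (hl i) (sq_nonneg _)
  have cs := Real.sum_mul_le_sqrt_mul_sqrt univ (fun i => √(l i) * p i) (fun i => √(l i) * q i)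
  have e1 : ∀ (r : ι → ℝ), ∑ i, (√(l i) * r i) ^ 2 = ∑ i, l i * r i ^ 2 := fun r =>
    Finset.sum_congr rfl fun i _ => by rw [mul_pow, Real.sq_sqrt (hl i)]
  have e2 : ∑ i, √(l i) * p i * (√(l i) * q i) = ∑ i, l i * (p i * q i) :=
    Finset.sum_congr rfl fun i _ => by
      rw [mul_mul_mul_comm, Real.mul_self_sqrt (hl i)]
  rw [e1, e1, e2] at cs
  have e3 : ∑ i, l i * (p i - q i) ^ 2 =
      ∑ i, l i * p i ^ 2 + ∑ i, l i * q i ^ 2 - 2 * ∑ i, l i * (p i * q i) := by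
    rw [Finset.mul_sum, ← Finset.sum_add_distrib, ← Finset.sum_sub_distrib]
    exact Finset.sum_congr rfl fun i _ => by ring
  rw [e3, sub_sq, Real.sq_sqrt hp, Real.sq_sqrt hq]
  linarith

namespace Atoms

variable {μ : Measure X} {N : ℕ} {L : X → ℝ} {ι : Type} [Fintype ι] {ψ β : ι → X → ℝ}

theorem ψ_le (h : Atoms μ N L ψ β) (i : ι) (x : X) : ψ i x ^ 2 ≤ 1 := by
  rw [← h.ψ1 x]
  exact Finset.single_le_sum (f := fun i => ψ i x ^ 2) (fun _ _ => sq_nonneg _) (Finset.mem_univ i)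

theorem ψ_one (h : Atoms μ N L ψ β) {i : ι} {x : X} (hx : β i x ≠ 0) : ψ i x ^ 2 = 1 := by
  rw [← h.ψ1 x, Finset.sum_eq_single i]
  · intro k _ hk; rw [h.alone i x hx k hk]; simp
  · simp

theorem β_unique (h : Atoms μ N L ψ β) {i k : ι} {x : X} (hi : β i x ≠ 0) (hk : β k x ≠ 0) :
    k = i := by
  by_contra hne
  have := h.ψ_one hk
  rw [h.alone i x hi k hne] at this
  simp at this

end Atoms

/-- The groups: a partition of unity `χ` into `N` pieces of mass one. -/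
structure Groups (μ : Measure X) (N : ℕ) (L : X → ℝ) {ι : Type} [Fintype ι] (β : ι → X → ℝ)
    (χ : Fin N → X → ℝ) (U : Fin N → Finset ι) (B : Fin N → Set X) : Prop where
  cχ : ∀ a, Continuous (χ a)
  χ0 : ∀ a x, 0 ≤ χ a x
  χ1 : ∀ x, ∑ a, χ a x ^ 2 = 1
  mass : ∀ a, ∫ x, χ a x ^ 2 ∂μ = 1
  core : ∀ a, ∀ i ∈ U a, ∀ x, β i x ≠ 0 → ∀ b, χ b x = if b = a then 1 else 0
  mB : ∀ a, MeasurableSet (B a)
  bad : ∀ a, μ.real (B a) ≤ 1 / 4
  good : ∀ a x, x ∉ B a → χ a x = 0 ∨ ∃ i ∈ U a, β i x = 1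
  lχ : ∀ x y, ∑ a, (χ a y - χ a x) ^ 2 ≤ (L x * dist y x) ^ 2

theorem Atoms.groups {μ : Measure X} [IsFiniteMeasure μ] {N : ℕ} {L : X → ℝ} {ι : Type} [Fintype ι]
    [DecidableEq ι] {ψ β : ι → X → ℝ} (h : Atoms μ N L ψ β) (hN : 0 < N) (hμ : μ.real Set.univ = N) :
    ∃ χ U B, Groups μ N L β χ U B := by
  set S : ι → Set X := fun i => {x | ψ i x ≠ 0} with hS
  set T : ι → Set X := fun i => {x | ψ i x ≠ 0} \ {x | β i x = 1} with hT
  have mS : ∀ i, MeasurableSet (S i) := fun i =>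
    (isOpen_ne_fun (h.cψ i) continuous_const).measurableSet
  have mT : ∀ i, MeasurableSet (T i) := fun i =>
    (mS i).diff (isClosed_eq (h.cβ i) continuous_const).measurableSet
  have iψ : ∀ i, Integrable (fun x => ψ i x ^ 2) μ := fun i =>
    int_bdd ((h.cψ i).pow 2) 1 fun x => by
      rw [Real.norm_of_nonneg (sq_nonneg _)]; exact h.ψ_le i x
  have hmS : ∀ i, ∫ x, ψ i x ^ 2 ∂μ ≤ μ.real (S i) := fun i =>
    integral_le_of_indicator (iψ i) (mS i) (h.ψ_le i) fun x hx => by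
      have : ψ i x = 0 := by simpa [hS] using hx
      simp [this]
  have hTS : ∀ i, μ.real (T i) ≤ μ.real (S i) := fun i => measureReal_mono Set.sdiff_subset
  obtain ⟨lam, l0, l1, lm, lt, lc⟩ := assign N hN (fun i => ∫ x, ψ i x ^ 2 ∂μ)
    (fun i => μ.real (T i)) (1 / 20) (1 / 20)
    (fun i => ⟨integral_nonneg fun x => sq_nonneg _, (hmS i).trans (h.small i)⟩)
    (fun i => ⟨measureReal_nonneg, (hTS i).trans (h.small i)⟩)
    (fun i hi => by
      have := (integral_eq_zero_iff_of_nonneg (fun x => sq_nonneg (ψ i x)) (iψ i)).1 hi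
      have h0 : μ (S i) = 0 := by
        rw [Filter.EventuallyEq, ae_iff] at this
        convert this using 2
        ext x; simp [hS]
      have : μ.real (S i) = 0 := by simp [Measure.real, h0]
      exact le_antisymm (this ▸ hTS i) measureReal_nonneg)
    (by
      rw [← integral_finsetSum _ fun i _ => iψ i]
      simp [h.ψ1, hμ])
    h.trans (by norm_num)
  have hnn : ∀ a x, 0 ≤ ∑ i, lam a i * ψ i x ^ 2 := fun a x =>
    Finset.sum_nonneg fun i _ => mul_nonneg (l0 a i) (sq_nonneg _)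
  have hone : ∀ a i, lam a i = 1 → ∀ b, lam b i = if b = a then 1 else 0 := by
    intro a i ha b
    split_ifs with hb
    · rw [hb, ha]
    · have h1 := l1 i
      rw [← Finset.add_sum_erase _ _ (Finset.mem_univ a), ha] at h1
      have h2 : ∑ c ∈ univ.erase a, lam c i = 0 := by linarith
      exact (Finset.sum_eq_zero_iff_of_nonneg fun c _ => l0 c i).1 h2 b (by simp [hb])
  refine ⟨fun a x => √(∑ i, lam a i * ψ i x ^ 2), fun a => univ.filter fun i => lam a i = 1,
    fun a => (⋃ i ∈ univ.filter fun i => lam a i = 1, T i) ∪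
      ⋃ i ∈ univ.filter fun i => lam a i ≠ 0 ∧ lam a i ≠ 1, S i, ?_, ?_, ?_, ?_, ?_, ?_, ?_, ?_, ?_⟩
  · intro a
    have := h.cψ
    fun_prop
  · intro a x; exact Real.sqrt_nonneg _
  · intro x
    simp only [Real.sq_sqrt (hnn _ _)]
    rw [Finset.sum_comm]
    simp only [← Finset.sum_mul, l1, one_mul, h.ψ1]
  · intro a
    simp only [Real.sq_sqrt (hnn _ _)]
    rw [integral_finsetSum _ fun i _ => (iψ i).const_mul _]
    simp only [integral_const_mul]
    exact lm a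
  · intro a i hi x hx b
    rw [Finset.sum_eq_single i, h.ψ_one hx, hone a i (Finset.mem_filter.1 hi).2 b]
    · split_ifs <;> simp
    · intro k _ hk; rw [h.alone i x hx k hk]; simp
    · simp
  · intro a
    exact (Finset.measurableSet_biUnion _ fun i _ => mT i).union
      (Finset.measurableSet_biUnion _ fun i _ => mS i)
  · intro a
    refine (measureReal_union_le _ _).trans ?_
    have e1 := (measureReal_biUnion_finset_le (μ := μ) (univ.filter fun i => lam a i = 1) T).trans (lt a)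
    have e2 := measureReal_biUnion_finset_le (μ := μ)
      (univ.filter fun i => lam a i ≠ 0 ∧ lam a i ≠ 1) S
    have e3 : ∑ i ∈ univ.filter fun i => lam a i ≠ 0 ∧ lam a i ≠ 1, μ.real (S i) ≤ 2 * (1 / 20) := by
      refine (Finset.sum_le_card_nsmul _ _ (1 / 20) fun i _ => h.small i).trans ?_
      rw [nsmul_eq_mul]
      have : ((univ.filter fun i => lam a i ≠ 0 ∧ lam a i ≠ 1).card : ℝ) ≤ 2 := by
        exact_mod_cast lc a
      linarith
    linarith
  · intro a x hx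
    by_cases h0 : ∃ i, lam a i ≠ 0 ∧ ψ i x ≠ 0
    · obtain ⟨i, hi, hix⟩ := h0
      right
      simp only [Set.mem_union, Set.mem_iUnion, Finset.mem_filter, Finset.mem_univ, true_and,
        not_or, not_exists] at hx
      have h1 : lam a i = 1 := by
        by_contra hcon
        exact hx.2 i ⟨hi, hcon⟩ hix
      refine ⟨i, by simp [h1], ?_⟩
      by_contra hcon
      exact hx.1 i h1 ⟨hix, hcon⟩
    · left
      push Not at h0
      rw [Finset.sum_eq_zero, Real.sqrt_zero]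
      intro i _
      by_cases hi : lam a i = 0
      · simp [hi]
      · simp [h0 i hi]
  · intro x y
    refine le_trans ?_ (h.lψ x y)
    refine (Finset.sum_le_sum fun a _ => sqrt_sum_lip (lam a) _ _ (l0 a)).trans ?_
    rw [Finset.sum_comm]
    simp only [← Finset.sum_mul, l1, one_mul, le_refl]

end Pool.Agent.MP_2c73ad_mp.H42
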