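import Mathlib

/-! A centring lemma in the plane: the conformal barycentre of a finite measure. -/

open MeasureTheory Metric Set Filter Topology

namespace Pool.Agent.MP_2c73ad_mp.H42

/-- the exponential of the Busemann function -/
noncomputable def ratio (p : ℂ × ℝ) (z : ℂ) : ℝ :=
  (p.2 ^ 2 + ‖z - p.1‖ ^ 2) / (p.2 * (1 + ‖z‖ ^ 2))

/-- twice the hyperbolic cosine of the distance to the base point -/
noncomputable def far (p : ℂ × ℝ) : ℝ := (1 + ‖p.1‖ ^ 2 + p.2 ^ 2) / p.2

theorem nsq (z : ℂ) : ‖z‖ ^ 2 = z.re ^ 2 + z.im ^ 2 := by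
  rw [Complex.sq_norm, Complex.normSq_apply]; ring

theorem ratio_pos {p : ℂ × ℝ} (h : 0 < p.2) (z : ℂ) : 0 < ratio p z := by
  unfold ratio; positivity

theorem one_le_far {p : ℂ × ℝ} (h : 0 < p.2) : 1 ≤ far p := by
  unfold far
  rw [le_div_iff₀ h]
  nlinarith [sq_nonneg ‖p.1‖, sq_nonneg (p.2 - 1)]

theorem ratio_le {p : ℂ × ℝ} (h : 0 < p.2) (z : ℂ) : ratio p z ≤ far p := by
  unfold ratio far
  rw [div_le_div_iff₀ (by positivity) h]
  have : p.2 ^ 2 + ‖z - p.1‖ ^ 2 ≤ (1 + ‖p.1‖ ^ 2 + p.2 ^ 2) * (1 + ‖z‖ ^ 2) := by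
    simp only [nsq, Complex.sub_re, Complex.sub_im]
    nlinarith [sq_nonneg (1 + z.re * p.1.re + z.im * p.1.im),
      sq_nonneg (z.re * p.1.im - z.im * p.1.re),
      mul_nonneg (sq_nonneg p.2) (add_nonneg (sq_nonneg z.re) (sq_nonneg z.im))]
  nlinarith

theorem le_ratio {p : ℂ × ℝ} (h : 0 < p.2) (z : ℂ) : 1 ≤ ratio p z * far p := by
  unfold ratio far
  rw [div_mul_div_comm, le_div_iff₀ (by positivity)]
  simp only [nsq, Complex.sub_re, Complex.sub_im]
  nlinarith [sq_nonneg (p.2 ^ 2 - ((z.re - p.1.re) * p.1.re + (z.im - p.1.im) * p.1.im)),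
    sq_nonneg ((z.re - p.1.re) * p.1.im - (z.im - p.1.im) * p.1.re),
    sq_nonneg (z.re - p.1.re), sq_nonneg (z.im - p.1.im)]

theorem ratio_good {p : ℂ × ℝ} (h : 0 < p.2) {z : ℂ} {R ε : ℝ} (hε : 0 < ε) (hz : ‖z‖ ≤ R)
    (ha : ε ≤ ‖z - p.1‖) :
    far p ≤ ratio p z * ((((1 + 2 * R ^ 2) / ε ^ 2 + 2)) * (1 + R ^ 2)) := by
  unfold ratio far
  have h1 : ‖z‖ ^ 2 ≤ R ^ 2 := by gcongr
  have h2 : ε ^ 2 ≤ ‖z - p.1‖ ^ 2 := by gcongr
  have h3 : ‖p.1‖ ^ 2 ≤ 2 * ‖z‖ ^ 2 + 2 * ‖z - p.1‖ ^ 2 := by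
    simp only [nsq, Complex.sub_re, Complex.sub_im]
    nlinarith [sq_nonneg (2 * z.re - p.1.re), sq_nonneg (2 * z.im - p.1.im)]
  have h4 : 1 + 2 * R ^ 2 ≤ (1 + 2 * R ^ 2) / ε ^ 2 * ‖z - p.1‖ ^ 2 := by
    rw [div_mul_eq_mul_div, le_div_iff₀ (by positivity)]
    gcongr
  have h5 : 0 ≤ (1 + 2 * R ^ 2) / ε ^ 2 * p.2 ^ 2 := by positivity
  have h6 : 1 + ‖p.1‖ ^ 2 + p.2 ^ 2 ≤
      (p.2 ^ 2 + ‖z - p.1‖ ^ 2) * ((1 + 2 * R ^ 2) / ε ^ 2 + 2) := by
    nlinarith [sq_nonneg p.2]
  rw [div_mul_eq_mul_div, div_le_div_iff₀ h (by positivity)]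
  calc _ ≤ (p.2 ^ 2 + ‖z - p.1‖ ^ 2) * ((1 + 2 * R ^ 2) / ε ^ 2 + 2) * (p.2 * (1 + R ^ 2)) := by
        gcongr
    _ = _ := by ring

theorem abs_log_ratio {p : ℂ × ℝ} (h : 0 < p.2) (z : ℂ) :
    |Real.log (ratio p z)| ≤ Real.log (far p) := by
  have h0 := ratio_pos h z
  have h1 := one_le_far h
  rw [abs_le]
  constructor
  · have := Real.log_nonneg (le_ratio h z)
    rw [Real.log_mul h0.ne' (by linarith)] at this
    linarith
  · exact Real.log_le_log h0 (ratio_le h z)

theorem meas_ratio (p : ℂ × ℝ) : Measurable (ratio p) := by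
  unfold ratio; fun_prop

theorem int_log_ratio (ν : Measure ℂ) [IsFiniteMeasure ν] {p : ℂ × ℝ} (h : 0 < p.2) :
    Integrable (fun z => Real.log (ratio p z)) ν :=
  Integrable.of_bound (meas_ratio p).log.aestronglyMeasurable _
    (Eventually.of_forall (abs_log_ratio h))

theorem exists_min (ν : Measure ℂ) [IsFiniteMeasure ν] (hM : 0 < ν.real univ)
    (hs : ∀ η > 0, ∃ ε > 0, ∀ a, ν.real (ball a ε) ≤ η) :
    ∃ p : ℂ × ℝ, 0 < p.2 ∧ ∀ p' : ℂ × ℝ, 0 < p'.2 →
      ∫ z, Real.log (ratio p z) ∂ν ≤ ∫ z, Real.log (ratio p' z) ∂ν := by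
  set M := ν.real univ with hMd
  obtain ⟨ε, hε, hb⟩ := hs (M / 8) (by positivity)
  obtain ⟨R, hR0, hR⟩ : ∃ R : ℝ, 0 ≤ R ∧ ν.real (closedBall 0 R)ᶜ ≤ M / 8 := by
    obtain ⟨K, -, hK, hK2⟩ := MeasurableSet.univ.exists_isCompact_sdiff_lt (μ := ν)
      (measure_ne_top _ _) (ε := ENNReal.ofReal (M / 8)) (by simpa using hM)
    obtain ⟨R, hR, hKR⟩ := hK.isBounded.subset_closedBall_lt 0 0
    refine ⟨R, hR.le, ?_⟩
    refine ENNReal.toReal_le_of_le_ofReal (by positivity) ((measure_mono ?_).trans hK2.le)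
    intro z hz
    exact ⟨trivial, fun h => hz (hKR h)⟩
  set c : ℝ := ((1 + 2 * R ^ 2) / ε ^ 2 + 2) * (1 + R ^ 2) with hc
  have c1 : 1 ≤ c := by
    have : 0 ≤ (1 + 2 * R ^ 2) / ε ^ 2 := by positivity
    nlinarith [sq_nonneg R]
  have c2 : 1 ≤ c ^ 2 := by nlinarith
  have hfar : ∀ p : ℂ × ℝ, 0 < p.2 → c ^ 2 ≤ far p → 0 ≤ ∫ z, Real.log (ratio p z) ∂ν := by
    intro p hp hD
    set G : Set ℂ := closedBall 0 R \ ball p.1 ε with hG
    have mG : MeasurableSet G := measurableSet_closedBall.diff measurableSet_ball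
    have hGc : ν.real Gᶜ ≤ M / 4 := by
      have : Gᶜ = (closedBall 0 R)ᶜ ∪ ball p.1 ε := by
        rw [hG, sdiff_eq, compl_inter, compl_compl]
      rw [this]
      have := measureReal_union_le (μ := ν) (closedBall 0 R)ᶜ (ball p.1 ε)
      linarith [hb p.1]
    have hG2 : 3 / 4 * M ≤ ν.real G := by
      have := measureReal_add_measureReal_compl (μ := ν) mG
      linarith
    have l0 : 0 ≤ Real.log (far p) := Real.log_nonneg (one_le_far hp)
    have l1 : 2 * Real.log c ≤ Real.log (far p) := by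
      have := Real.log_le_log (by positivity) hD
      rw [Real.log_pow] at this
      exact_mod_cast this
    have hpt : ∀ z, G.indicator (fun _ => 3 / 2 * Real.log (far p)) z - Real.log (far p) ≤
        Real.log (ratio p z) := by
      intro z
      by_cases hz : z ∈ G
      · rw [indicator_of_mem hz]
        have h1 := ratio_good hp hε (mem_closedBall_zero_iff.1 hz.1)
          (by simpa [dist_eq_norm] using hz.2)
        have := Real.log_le_log (by linarith [one_le_far hp]) h1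
        rw [Real.log_mul (ratio_pos hp z).ne' (by linarith)] at this
        linarith
      · rw [indicator_of_notMem hz]
        linarith [(abs_le.1 (abs_log_ratio hp z)).1]
    have i1 : Integrable (G.indicator fun _ => 3 / 2 * Real.log (far p)) ν :=
      (integrable_const _).indicator mG
    have := integral_mono (i1.sub (integrable_const (Real.log (far p)))) (int_log_ratio ν hp) hpt
    refine le_trans ?_ this
    simp only [Pi.sub_apply]
    rw [integral_sub i1 (integrable_const _), integral_indicator_const _ mG, integral_const,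
      smul_eq_mul, smul_eq_mul]
    nlinarith [mul_nonneg hM.le l0, mul_le_mul_of_nonneg_right hG2 l0]
  set K : Set (ℂ × ℝ) := closedBall 0 (c ^ 2) ×ˢ Icc (1 / c ^ 2) (c ^ 2) with hK
  have cK : IsCompact K := (isCompact_closedBall _ _).prod isCompact_Icc
  have pK : ∀ p ∈ K, 0 < p.2 := fun p hp => lt_of_lt_of_le (by positivity) hp.2.1
  have h01 : ((0 : ℂ), (1 : ℝ)) ∈ K :=
    ⟨mem_closedBall_self (by positivity), by rw [div_le_one (by positivity)]; exact c2, c2⟩
  have cont : ContinuousOn (fun p => ∫ z, Real.log (ratio p z) ∂ν) K := by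
    refine continuousOn_of_dominated (bound := fun _ => (1 + 2 * (c ^ 2) ^ 2) * c ^ 2)
      (fun p _ => (meas_ratio p).log.aestronglyMeasurable)
      (fun p hp => Eventually.of_forall fun z => ?_) (integrable_const _)
      (Eventually.of_forall fun z => ?_)
    · refine (abs_log_ratio (pK p hp) z).trans ((Real.log_le_self
        (by linarith [one_le_far (pK p hp)])).trans ?_)
      unfold far
      have a1 : ‖p.1‖ ≤ c ^ 2 := mem_closedBall_zero_iff.1 hp.1
      have a2 : ‖p.1‖ ^ 2 ≤ (c ^ 2) ^ 2 := by gcongr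
      have a0 := pK p hp
      have a3 : p.2 ^ 2 ≤ (c ^ 2) ^ 2 := by have := hp.2.2; gcongr
      have a4 : 1 ≤ c ^ 2 * p.2 := by
        have := hp.2.1
        rw [div_le_iff₀ (by positivity)] at this
        linarith
      rw [div_le_iff₀ a0]
      calc _ ≤ (1 + 2 * (c ^ 2) ^ 2) * 1 := by linarith
        _ ≤ (1 + 2 * (c ^ 2) ^ 2) * (c ^ 2 * p.2) := by gcongr
        _ = _ := by ring
    · refine ContinuousOn.log ?_ fun p hp => (ratio_pos (pK p hp) z).ne'
      unfold ratio
      refine ContinuousOn.div (by fun_prop) (by fun_prop) fun p hp => ?_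
      have := pK p hp
      positivity
  obtain ⟨p, hp, hmin⟩ := cK.exists_isMinOn ⟨_, h01⟩ cont
  refine ⟨p, pK p hp, fun p' hp' => ?_⟩
  by_cases h : p' ∈ K
  · exact hmin h
  · have h1 : ∫ z, Real.log (ratio p z) ∂ν ≤ ∫ z, Real.log (ratio (0, 1) z) ∂ν := hmin h01
    have h2 : ∀ z, ratio (0, 1) z = 1 := fun z => by
      unfold ratio
      simp only [sub_zero, one_pow, one_mul]
      exact div_self (by positivity)
    simp only [h2, Real.log_one, integral_zero] at h1
    refine h1.trans (hfar p' hp' ?_)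
    unfold far
    rw [le_div_iff₀ hp']
    by_contra hcon
    push Not at hcon
    apply h
    have b1 : p'.2 ≤ c ^ 2 := by nlinarith [sq_nonneg ‖p'.1‖]
    refine ⟨mem_closedBall_zero_iff.2 ?_, ?_, b1⟩
    · refine le_of_sq_le_sq ?_ (by positivity)
      nlinarith [sq_nonneg p'.2]
    · rw [div_le_iff₀ (by positivity)]
      nlinarith [sq_nonneg ‖p'.1‖, sq_nonneg p'.2]

theorem quad_zero {A B : ℝ} (h : ∀ t : ℝ, 0 ≤ t * A + t ^ 2 * B) : A = 0 := by
  by_contra hA
  have h1 := h (-A / (|B| + 1))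
  have hB : 0 < |B| + 1 := by positivity
  have h2 : -A / (|B| + 1) * A + (-A / (|B| + 1)) ^ 2 * B =
      A ^ 2 * (B - (|B| + 1)) / (|B| + 1) ^ 2 := by field_simp; ring
  rw [h2, le_div_iff₀ (by positivity)] at h1
  have h3 : 0 < A ^ 2 := by positivity
  nlinarith [le_abs_self B]

theorem hersch (ν : Measure ℂ) [IsFiniteMeasure ν] (hM : 0 < ν.real univ)
    (hs : ∀ η > 0, ∃ ε > 0, ∀ a, ν.real (ball a ε) ≤ η) :
    ∃ (a : ℂ) (l : ℝ), 0 < l ∧ ∫ z, (z - a) / ((l ^ 2 + ‖z - a‖ ^ 2 : ℝ) : ℂ) ∂ν = 0 ∧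
      ∫ z, l ^ 2 / (l ^ 2 + ‖z - a‖ ^ 2) ∂ν = ν.real univ / 2 := by
  obtain ⟨⟨a, l⟩, hl, hmin⟩ := exists_min ν hM hs
  simp only at hl
  have hpos : ∀ z : ℂ, 0 < l ^ 2 + ‖z - a‖ ^ 2 := fun z => by positivity
  have key : ∀ (a' : ℂ) (l' : ℝ) (F : ℂ → ℝ), 0 < l' → Integrable F ν →
      (∀ z, (l' ^ 2 + ‖z - a'‖ ^ 2) * l / ((l ^ 2 + ‖z - a‖ ^ 2) * l') - 1 = F z) →
      0 ≤ ∫ z, F z ∂ν := by
    intro a' l' F hl' hF hFz
    have h1 := hmin (a', l') hl'
    have i1 := int_log_ratio ν (p := (a, l)) hl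
    have i2 := int_log_ratio ν (p := (a', l')) hl'
    rw [← sub_nonneg, ← integral_sub i2 i1] at h1
    refine h1.trans (integral_mono (i2.sub i1) hF fun z => ?_)
    have p1 := ratio_pos (p := (a, l)) hl z
    have p2 := ratio_pos (p := (a', l')) hl' z
    simp only
    rw [← Real.log_div p2.ne' p1.ne', ← hFz]
    refine (Real.log_le_sub_one_of_pos (div_pos p2 p1)).trans (le_of_eq ?_)
    unfold ratio
    have := hpos z
    simp only
    field_simp
  have iw : Integrable (fun z => l ^ 2 / (l ^ 2 + ‖z - a‖ ^ 2)) ν :=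
    Integrable.of_bound (Measurable.aestronglyMeasurable (by fun_prop)) 1
      (Eventually.of_forall fun z => by
        rw [Real.norm_of_nonneg (by positivity), div_le_one (hpos z)]
        linarith [sq_nonneg ‖z - a‖])
  have iz : Integrable (fun z => (z - a) / ((l ^ 2 + ‖z - a‖ ^ 2 : ℝ) : ℂ)) ν :=
    Integrable.of_bound (Measurable.aestronglyMeasurable (by fun_prop)) (1 / l)
      (Eventually.of_forall fun z => by
        rw [norm_div, Complex.norm_real, Real.norm_of_nonneg (hpos z).le,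
          div_le_div_iff₀ (hpos z) hl]
        nlinarith [sq_nonneg (l - ‖z - a‖), norm_nonneg (z - a)])
  refine ⟨a, l, hl, ?_, ?_⟩
  · set Z := ∫ z, (z - a) / ((l ^ 2 + ‖z - a‖ ^ 2 : ℝ) : ℂ) ∂ν with hZ
    have hb : ∀ b : ℂ, -2 * (b.re * Z.re + b.im * Z.im) = 0 := by
      intro b
      refine quad_zero (B := ‖b‖ ^ 2 / l ^ 2 * ∫ z, l ^ 2 / (l ^ 2 + ‖z - a‖ ^ 2) ∂ν) fun t => ?_
      have j1 := (iz.re.const_mul (-2 * t * b.re))
      have j2 := (iz.im.const_mul (-2 * t * b.im))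
      have j3 := iw.const_mul (t ^ 2 * ‖b‖ ^ 2 / l ^ 2)
      have := key (a + t * b) l _ hl ((j1.add j2).add j3) fun z => by
        have := hpos z
        simp only [Pi.add_apply, RCLike.re_to_complex, RCLike.im_to_complex, Complex.div_ofReal_re,
          Complex.div_ofReal_im]
        generalize hh : l ^ 2 + ‖z - a‖ ^ 2 = h at this
        have e : l ^ 2 + ‖z - (a + t * b)‖ ^ 2 = h - 2 * t * (b.re * (z - a).re + b.im * (z - a).im)
            + t ^ 2 * ‖b‖ ^ 2 := by
          rw [← hh]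
          simp only [nsq, Complex.sub_re, Complex.sub_im, Complex.add_re, Complex.add_im,
            Complex.re_ofReal_mul, Complex.im_ofReal_mul]
          ring
        rw [e]
        field_simp
        ring
      rw [integral_add' (j1.add j2) j3, integral_add' j1 j2, integral_const_mul, integral_const_mul,
        integral_const_mul, integral_re iz, integral_im iz] at this
      simp only [RCLike.re_to_complex, RCLike.im_to_complex, ← hZ] at this
      refine this.trans (le_of_eq ?_)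
      ring
    have h1 := hb 1
    have h2 := hb Complex.I
    simp only [Complex.one_re, Complex.one_im, Complex.I_re, Complex.I_im] at h1 h2
    exact Complex.ext (by simp only [Complex.zero_re]; linarith)
      (by simp only [Complex.zero_im]; linarith)
  · set A := ∫ z, l ^ 2 / (l ^ 2 + ‖z - a‖ ^ 2) ∂ν with hA
    set M := ν.real univ with hMd
    have hs : ∀ s : ℝ, 0 < s → 0 ≤ (s - 1) * (s * A - (M - A)) := by
      intro s hs
      have j1 := iw.const_mul (s - 1 / s)
      have j2 : Integrable (fun _ : ℂ => 1 / s - 1) ν := integrable_const _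
      have := key a (s * l) _ (by positivity) (j1.add j2) fun z => by
        have := hpos z
        simp only [Pi.add_apply]
        field_simp
        ring
      simp only [Pi.add_apply] at this
      rw [integral_add j1 j2, integral_const_mul, integral_const, smul_eq_mul, ← hA, ← hMd] at this
      have e : (s - 1) * (s * A - (M - A)) = s * ((s - 1 / s) * A + M * (1 / s - 1)) := by
        field_simp; ring
      rw [e]
      positivity
    have hA0 : 0 ≤ A := integral_nonneg fun z => by positivity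
    have : 2 * A - M = 0 := by
      refine quad_zero (B := A + |2 * A - M|) fun t => ?_
      by_cases ht : -1 < t
      · have := hs (1 + t) (by linarith)
        nlinarith [mul_nonneg (sq_nonneg t) (abs_nonneg (2 * A - M))]
      · push Not at ht
        have h1 : -t ≤ t ^ 2 := by nlinarith
        have h2 := mul_le_mul_of_nonneg_right h1 (abs_nonneg (2 * A - M))
        have h3 : (-t) * (2 * A - M) ≤ (-t) * |2 * A - M| :=
          mul_le_mul_of_nonneg_left (le_abs_self _) (by linarith)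
        nlinarith [mul_nonneg (sq_nonneg t) hA0]
    linarith

end Pool.Agent.MP_2c73ad_mp.H42
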