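import Pool.Agent.MP_2c73ad_mp.H42.Direction
import Pool.Agent.MP_2c73ad_mp.H42.Hersch

/-! The two-particle field: a vortex around a well chosen axis. -/

open MeasureTheory Metric Set Filter Topology Real
open scoped ENNReal NNReal

namespace Pool.Agent.MP_2c73ad_mp.H42

theorem exists_coords (ω : EuclideanSpace ℝ (Fin 3)) (h : ‖ω‖ = 1) :
    ∃ (Ψ : ℝ × ℂ → Fin 3 → ℝ) (p : (Fin 3 → ℝ) →L[ℝ] ℂ), MeasurePreserving Ψ volume volume ∧
      (∀ t z, p (Ψ (t, z)) = z) ∧ (∀ t τ z, Ψ (t + τ, z) = Ψ (t, z) + τ • ω.ofLp) ∧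
      ∑ k, ‖p (Pi.single k 1)‖ ^ 2 = 2 ∧
      ∀ z : ℂ, ∑ k, (z.re * (p (Pi.single k 1)).re + z.im * (p (Pi.single k 1)).im) ^ 2 =
        ‖z‖ ^ 2 := by
  obtain ⟨b, hb⟩ := Orthonormal.exists_orthonormalBasis_extension_of_card_eq (𝕜 := ℝ)
    (ι := Fin 3) (by simp) (v := fun _ => ω) (s := {0}) (by
      refine ⟨fun _ => h, fun i j hij => ?_⟩
      exact (hij (Subsingleton.elim _ _)).elim)
  have hb0 : b 0 = ω := hb 0 rfl
  have ho : ∀ i j, b i 0 * b j 0 + b i 1 * b j 1 + b i 2 * b j 2 = if i = j then 1 else 0 := by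
    intro i j
    rw [← orthonormal_iff_ite.1 b.orthonormal i j, PiLp.inner_apply, Fin.sum_univ_three]
    simp only [RCLike.inner_apply, conj_trivial]
    ring
  have m := (PiLp.volume_preserving_ofLp (Fin 3)).comp (b.measurePreserving_repr_symm.comp
    ((PiLp.volume_preserving_toLp (Fin 3)).comp
      ((volume_preserving_piFinSuccAbove (fun _ : Fin 3 => ℝ) 0).symm.comp
        ((MeasurePreserving.id (volume : Measure ℝ)).prod Complex.volume_preserving_equiv_pi))))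
  have o11 := ho 1 1
  have o22 := ho 2 2
  have o12 := ho 1 2
  have o01 := ho 0 1
  have o02 := ho 0 2
  simp only [if_true, Fin.isValue, Fin.reduceEq, if_false] at o11 o22 o12 o01 o02
  refine ⟨fun q k => q.1 * b 0 k + q.2.re * b 1 k + q.2.im * b 2 k,
    ∑ k, (ContinuousLinearMap.proj (R := ℝ) (φ := fun _ : Fin 3 => ℝ) k).smulRight
      (⟨b 1 k, b 2 k⟩ : ℂ), ?_, ?_, ?_, ?_, ?_⟩
  · obtain ⟨Ψ, m, hΨ⟩ : ∃ Ψ : ℝ × ℂ → Fin 3 → ℝ, MeasurePreserving Ψ volume volume ∧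
        Ψ = fun q k => q.1 * b 0 k + q.2.re * b 1 k + q.2.im * b 2 k := by
      refine ⟨_, m, ?_⟩
      funext q k
      simp [← b.sum_repr_symm, Fin.sum_univ_three, MeasurableEquiv.piFinSuccAbove_symm_apply,
        Fin.insertNthEquiv]
    exact hΨ ▸ m
  · intro t z
    apply Complex.ext
    · simp [Fin.sum_univ_three]
      linear_combination t * o01 + z.re * o11 + z.im * o12
    · simp [Fin.sum_univ_three]
      linear_combination t * o02 + z.re * o12 + z.im * o22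
  · intro t τ z
    funext k
    simp only [Pi.add_apply, Pi.smul_apply, smul_eq_mul, hb0]
    ring
  · simp [Fin.sum_univ_three, nsq]
    linear_combination o11 + o22
  · intro z
    simp [Fin.sum_univ_three, nsq]
    linear_combination z.re ^ 2 * o11 + z.im ^ 2 * o22 + 2 * z.re * z.im * o12

theorem normalise {H X : Type} [NormedAddCommGroup H] [InnerProductSpace ℝ H]
    [NormedAddCommGroup X] [NormedSpace ℝ X] {s : X → H} {A : X →L[ℝ] H} {x : X}
    (hs : HasFDerivAt s A x) (h0 : s x ≠ 0) :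
    DifferentiableAt ℝ (fun y => ‖s y‖⁻¹ • s y) x ∧ ∀ v,
      ‖fderiv ℝ (fun y => ‖s y‖⁻¹ • s y) x v‖ ^ 2 =
        ‖A v‖ ^ 2 / ‖s x‖ ^ 2 - (inner ℝ (s x) (A v)) ^ 2 / (‖s x‖ ^ 2) ^ 2 := by
  have n0 : ‖s x‖ ≠ 0 := norm_ne_zero_iff.2 h0
  have h1 := (hs.norm_sq.sqrt (pow_ne_zero 2 n0))
  simp only [Real.sqrt_sq (norm_nonneg _)] at h1
  have h2 := ((hasDerivAt_inv n0).comp_hasFDerivAt x h1).smul hs
  have h3 : HasFDerivAt (fun y => ‖s y‖⁻¹ • s y) _ x := h2
  refine ⟨h3.differentiableAt, fun v => ?_⟩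
  rw [h3.fderiv]
  simp only [add_apply, smul_apply,
    ContinuousLinearMap.smulRight_apply, Function.comp, ContinuousLinearMap.comp_apply,
    innerSL_apply_apply, smul_eq_mul, nsmul_eq_mul]
  rw [norm_add_sq_real, inner_smul_left, inner_smul_right, norm_smul, norm_smul, real_inner_comm]
  simp only [conj_trivial, mul_pow, Real.norm_eq_abs, sq_abs]
  push_cast
  field_simp
  ring

theorem vortex_field (p : (Fin 3 → ℝ) →L[ℝ] ℂ) (a : ℂ) {l : ℝ} (hl : 0 < l)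
    (h1 : ∑ k, ‖p (Pi.single k 1)‖ ^ 2 = 2)
    (h2 : ∀ z : ℂ, ∑ k, (z.re * (p (Pi.single k 1)).re + z.im * (p (Pi.single k 1)).im) ^ 2 =
      ‖z‖ ^ 2) :
    ∃ (u : (Fin 3 → ℝ) → EuclideanSpace ℂ (Fin 2)) (K : ℝ≥0), LipschitzWith K u ∧
      (∀ x, ‖u x‖ = 1) ∧
      (∀ x, (starRingEnd ℂ) (u x 0) * u x 0 = ((l ^ 2 / (l ^ 2 + ‖p x - a‖ ^ 2) : ℝ) : ℂ)) ∧
      (∀ x, (starRingEnd ℂ) (u x 1) * u x 1 = ((1 - l ^ 2 / (l ^ 2 + ‖p x - a‖ ^ 2) : ℝ) : ℂ)) ∧
      (∀ x, (starRingEnd ℂ) (u x 0) * u x 1 =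
        l * ((p x - a) / ((l ^ 2 + ‖p x - a‖ ^ 2 : ℝ) : ℂ))) ∧
      ∀ x, ∑ k, ‖fderiv ℝ u x (Pi.single k 1)‖ ^ 2 =
        (2 * l ^ 2 + ‖p x - a‖ ^ 2) / (l ^ 2 + ‖p x - a‖ ^ 2) ^ 2 := by
  obtain ⟨A, hA0, hA1⟩ : ∃ A : (Fin 3 → ℝ) →L[ℝ] EuclideanSpace ℂ (Fin 2),
      (∀ v, A v 0 = 0) ∧ ∀ v, A v 1 = p v := by
    refine ⟨(((ContinuousLinearMap.id ℂ ℂ).smulRight
      (EuclideanSpace.single 1 1 : EuclideanSpace ℂ (Fin 2))).restrictScalars ℝ).comp p, ?_, ?_⟩
    · intro v; simp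
    · intro v; simp
  set s : (Fin 3 → ℝ) → EuclideanSpace ℂ (Fin 2) := fun x => A x + !₂[(l : ℂ), -a] with hs
  have s0 : ∀ x, s x 0 = l := fun x => by simp [hs, hA0]
  have s1 : ∀ x, s x 1 = p x - a := fun x => by simp [hs, hA1, sub_eq_add_neg]
  have ns : ∀ x, ‖s x‖ ^ 2 = l ^ 2 + ‖p x - a‖ ^ 2 := fun x => by
    rw [EuclideanSpace.norm_sq_eq, Fin.sum_univ_two, s0, s1, Complex.norm_real, Real.norm_eq_abs,
      sq_abs]
  have nA : ∀ v, ‖A v‖ ^ 2 = ‖p v‖ ^ 2 := fun v => by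
    rw [EuclideanSpace.norm_sq_eq, Fin.sum_univ_two, hA0, hA1]; simp
  have iA : ∀ x v, inner ℝ (s x) (A v) = (p x - a).re * (p v).re + (p x - a).im * (p v).im := by
    intro x v
    rw [PiLp.inner_apply, Fin.sum_univ_two, hA0, hA1, s1, inner_zero_right, zero_add,
      Complex.inner]
    simp only [Complex.mul_re, Complex.conj_re, Complex.conj_im]
    ring
  have sp : ∀ x, 0 < ‖s x‖ := fun x => by
    have : 0 < ‖s x‖ ^ 2 := by rw [ns]; positivity
    exact lt_of_le_of_ne (norm_nonneg _) fun h => by rw [← h] at this; simp at this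
  have hd : ∀ x, HasFDerivAt s A x := fun x => A.hasFDerivAt.add_const _
  have hn := fun x => normalise (hd x) (norm_pos_iff.1 (sp x))
  have cs : ∀ x, ((‖s x‖ : ℝ) : ℂ) * ‖s x‖ = ((l ^ 2 + ‖p x - a‖ ^ 2 : ℝ) : ℂ) := fun x => by
    rw [← ns, ← Complex.ofReal_mul, sq]
  have c0 : ∀ x, ((‖s x‖ : ℝ) : ℂ) ≠ 0 := fun x => by exact_mod_cast (sp x).ne'
  refine ⟨fun y => ‖s y‖⁻¹ • s y, (‖A‖ / l).toNNReal, ?_, ?_, ?_, ?_, ?_, ?_⟩
  · refine lipschitzWith_of_nnnorm_fderiv_le (𝕜 := ℝ) (fun x => (hn x).1) fun x => ?_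
    rw [← NNReal.coe_le_coe, coe_nnnorm, Real.coe_toNNReal _ (by positivity)]
    refine ContinuousLinearMap.opNorm_le_bound _ (by positivity) fun v => ?_
    refine le_of_sq_le_sq ?_ (by positivity)
    rw [(hn x).2]
    have a1 : ‖A v‖ ^ 2 / ‖s x‖ ^ 2 ≤ (‖A‖ * ‖v‖) ^ 2 / l ^ 2 := by
      have := A.le_opNorm v
      rw [ns]
      gcongr
      linarith [sq_nonneg ‖p x - a‖]
    have a2 : 0 ≤ (inner ℝ (s x) (A v)) ^ 2 / (‖s x‖ ^ 2) ^ 2 := by positivity
    calc _ ≤ (‖A‖ * ‖v‖) ^ 2 / l ^ 2 := by linarith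
      _ = _ := by ring
  · intro x
    rw [norm_smul, norm_inv, norm_norm, inv_mul_cancel₀ (sp x).ne']
  · intro x
    simp only [PiLp.smul_apply, s0, Complex.real_smul, map_mul, Complex.conj_ofReal]
    rw [Complex.ofReal_div, ← cs]
    have := c0 x
    push_cast
    field_simp
  · intro x
    have e : (starRingEnd ℂ) (p x - a) * (p x - a) = ((‖p x - a‖ ^ 2 : ℝ) : ℂ) := by
      rw [Complex.conj_mul']; push_cast; ring
    have e2 : 1 - l ^ 2 / (l ^ 2 + ‖p x - a‖ ^ 2) = ‖p x - a‖ ^ 2 / (l ^ 2 + ‖p x - a‖ ^ 2) := by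
      field_simp; ring
    simp only [PiLp.smul_apply, s1, Complex.real_smul, map_mul, Complex.conj_ofReal]
    rw [e2, Complex.ofReal_div, ← cs, ← e]
    have := c0 x
    push_cast
    field_simp
  · intro x
    simp only [PiLp.smul_apply, s0, s1, Complex.real_smul, map_mul, Complex.conj_ofReal]
    rw [← cs]
    have := c0 x
    push_cast
    field_simp
  · intro x
    simp only [(hn x).2, nA, iA, ns]
    rw [Finset.sum_sub_distrib, ← Finset.sum_div, ← Finset.sum_div, h1, h2]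
    field_simp
    ring

theorem exists_vortex (f : (Fin 3 → ℝ) → ℝ) (μ : Measure (Fin 3 → ℝ)) [IsFiniteMeasure μ]
    (hf : Measurable f) (h0 : ∀ x, 0 ≤ f x)
    (hμ : μ = volume.withDensity (fun x => ENNReal.ofReal (f x))) (hN : μ.real univ = 2) :
    ∃ (u : (Fin 3 → ℝ) → EuclideanSpace ℂ (Fin 2)) (K : ℝ≥0), LipschitzWith K u ∧
      (∀ x, ‖u x‖ = 1) ∧
      (∀ b c, ∫ x, (starRingEnd ℂ) (u x b) * u x c ∂μ = if b = c then 1 else 0) ∧
      ∫⁻ x, ENNReal.ofReal (∑ k, ‖fderiv ℝ u x (Pi.single k 1)‖ ^ 2) ∂μ ≤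
        ENNReal.ofReal (√(7 / 3) * (64 * π / 25 + 15 / 4) / 2) *
          ∫⁻ x, ENNReal.ofReal (f x ^ (5 / 3 : ℝ)) := by
  have mL := PiLp.volume_preserving_ofLp (Fin 3)
  have hM : ∫⁻ x, ENNReal.ofReal (f x) = 2 := by
    have : μ univ = 2 := by
      rw [← ENNReal.ofReal_toReal (measure_ne_top μ univ), ← Measure.real, hN,
        ENNReal.ofReal_ofNat]
    rwa [hμ, withDensity_apply _ MeasurableSet.univ, Measure.restrict_univ] at this
  obtain ⟨ω, hω, hJ⟩ := exists_direction (f := fun x => f x.ofLp) (hf.comp mL.measurable)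
    (fun x => h0 _)
    ((mL.lintegral_comp (f := fun x => ENNReal.ofReal (f x)) (by fun_prop)).trans hM)
  have m0 : Measurable fun x : Fin 3 → ℝ => ∫⁻ τ : ℝ, ENNReal.ofReal (f (x + τ • ω.ofLp)) :=
    Measurable.lintegral_prod_right (by fun_prop)
  rw [mL.lintegral_comp (f := fun x => ENNReal.ofReal (f x ^ (5 / 3 : ℝ))) (by fun_prop)] at hJ
  have t1 := mL.lintegral_comp (f := fun x => ENNReal.ofReal (f x) *
    ∫⁻ τ : ℝ, ENNReal.ofReal (f (x + τ • ω.ofLp))) (by fun_prop)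
  simp only [WithLp.ofLp_add, WithLp.ofLp_smul] at hJ
  rw [t1] at hJ
  obtain ⟨Ψ, p, mΨ, hp, hΨ, g1, g2⟩ := exists_coords ω hω
  have mΨ' := mΨ.measurable
  set Q : ℂ → ℝ≥0∞ := fun z => ∫⁻ t, ENNReal.ofReal (f (Ψ (t, z))) with hQ
  have mQ : Measurable Q := Measurable.lintegral_prod_left (by fun_prop)
  have key : ∀ G : ℂ → ℝ≥0∞, Measurable G → ∫⁻ x, G (p x) ∂μ = ∫⁻ z, Q z * G z := by
    intro G hG
    rw [hμ, lintegral_withDensity_eq_lintegral_mul _ (by fun_prop) (by fun_prop),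
      ← mΨ.lintegral_comp (by fun_prop), Measure.volume_eq_prod,
      lintegral_prod_symm' _ (by fun_prop)]
    refine lintegral_congr fun z => ?_
    simp only [Pi.mul_apply, hp]
    rw [lintegral_mul_const _ (by fun_prop)]
  have hQQ : ∫⁻ z, Q z * Q z = ∫⁻ x, ENNReal.ofReal (f x) *
      ∫⁻ τ : ℝ, ENNReal.ofReal (f (x + τ • ω.ofLp)) := by
    rw [← mΨ.lintegral_comp (by fun_prop), Measure.volume_eq_prod,
      lintegral_prod_symm' _ (by fun_prop)]
    refine lintegral_congr fun z => ?_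
    simp only [← hΨ]
    have : ∀ t : ℝ, ∫⁻ τ, ENNReal.ofReal (f (Ψ (t + τ, z))) = Q z := fun t =>
      lintegral_add_left_eq_self (fun τ => ENNReal.ofReal (f (Ψ (τ, z)))) t
    simp only [this]
    rw [lintegral_mul_const _ (by fun_prop)]
  have mp : Measurable p := p.continuous.measurable
  set ν : Measure ℂ := μ.map p with hν
  have hν2 : ν.real univ = 2 := by
    rw [hν, Measure.real, Measure.map_apply mp MeasurableSet.univ, preimage_univ, ← Measure.real, hN]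
  have hνQ : ∀ s, MeasurableSet s → ν s = ∫⁻ z in s, Q z := by
    intro s hs
    rw [← lintegral_indicator_one hs, hν, lintegral_map (measurable_one.indicator hs) mp,
      key _ (measurable_one.indicator hs), ← lintegral_indicator hs]
    refine lintegral_congr fun z => ?_
    by_cases h : z ∈ s <;> simp [h]
  obtain ⟨a, l, hl, ha, hw⟩ := hersch ν (by rw [hν2]; norm_num) (by
    intro η hη
    obtain ⟨δ, hδ, hδ2⟩ := exists_pos_setLIntegral_lt_of_measure_lt (μ := volume) (f := Q)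
      (by rw [← setLIntegral_univ, ← hνQ _ MeasurableSet.univ]; exact measure_ne_top _ _)
      (ε := ENNReal.ofReal η) (by simpa using hη)
    obtain ⟨ε, hε, hε2⟩ : ∃ ε : ℝ, 0 < ε ∧ ENNReal.ofReal ε ^ 2 * NNReal.pi < δ := by
      have c1 : Tendsto (fun ε : ℝ => ENNReal.ofReal (ε ^ 2 * π)) (𝓝[>] 0) (𝓝 0) := by
        have : Tendsto (fun ε : ℝ => ENNReal.ofReal (ε ^ 2 * π)) (𝓝 0)
            (𝓝 (ENNReal.ofReal (0 ^ 2 * π))) :=
          (ENNReal.continuous_ofReal.comp (by fun_prop)).tendsto 0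
        simpa using this.mono_left nhdsWithin_le_nhds
      obtain ⟨ε, h1, h2⟩ := ((c1.eventually (gt_mem_nhds hδ)).and self_mem_nhdsWithin).exists
      refine ⟨ε, h2, ?_⟩
      rwa [ENNReal.ofReal_mul (sq_nonneg _), ENNReal.ofReal_pow (le_of_lt h2),
        ← NNReal.coe_real_pi, ENNReal.ofReal_coe_nnreal] at h1
    refine ⟨ε, hε, fun a => ENNReal.toReal_le_of_le_ofReal hη.le ?_⟩
    rw [hνQ _ measurableSet_ball]
    exact (hδ2 _ (by rwa [Complex.volume_ball])).le)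
  rw [hν, integral_map mp.aemeasurable (Measurable.aestronglyMeasurable (by fun_prop))] at ha hw
  rw [← hν, hν2] at hw
  have iw : Integrable (fun x => l ^ 2 / (l ^ 2 + ‖p x - a‖ ^ 2)) μ :=
    Integrable.of_bound (Measurable.aestronglyMeasurable (by fun_prop)) 1
      (Eventually.of_forall fun z => by
        rw [Real.norm_of_nonneg (by positivity), div_le_one (by positivity)]
        linarith [sq_nonneg ‖p z - a‖])
  obtain ⟨u, K, u1, u2, u3, u4, u5, u6⟩ := vortex_field p a hl g1 g2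
  refine ⟨u, K, u1, u2, ?_, ?_⟩
  · have o01 : ∫ x, (starRingEnd ℂ) (u x 0) * u x 1 ∂μ = 0 := by
      simp only [u5]
      rw [integral_const_mul, ha, mul_zero]
    intro b c
    fin_cases b <;> fin_cases c
    · simp only [Fin.zero_eta, u3, integral_complex_ofReal, hw]; norm_num
    · simpa using o01
    · have := congrArg (starRingEnd ℂ) o01
      rw [← integral_conj] at this
      simpa [mul_comm] using this
    · simp only [Fin.mk_one, u4, integral_complex_ofReal]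
      rw [integral_sub (integrable_const _) iw, hw, integral_const, hN]; norm_num
  · simp only [u6]
    rw [key (fun z => ENNReal.ofReal ((2 * l ^ 2 + ‖z - a‖ ^ 2) / (l ^ 2 + ‖z - a‖ ^ 2) ^ 2))
      (by fun_prop)]
    refine (plane mQ hl ?_).trans ?_
    · rw [← key (fun z => ENNReal.ofReal (l ^ 2 / (l ^ 2 + ‖z - a‖ ^ 2))) (by fun_prop),
        ← ofReal_integral_eq_lintegral_ofReal iw (Eventually.of_forall fun x => by positivity), hw]
      norm_num
    · rw [hQQ]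
      refine (mul_le_mul_right hJ _).trans (le_of_eq ?_)
      rw [← mul_assoc, ← ENNReal.ofReal_mul (by positivity)]
      congr 2
      field_simp

theorem const_le : √(7 / 3) * (64 * π / 25 + 15 / 4) / 2 ≤ 3 / 5 * (6 * π ^ 2) ^ (2 / 3 : ℝ) := by
  have h1 : √(7 / 3) ≤ (1.528 : ℝ) := Real.sqrt_le_iff.2 ⟨by norm_num, by norm_num⟩
  have h2 := Real.pi_lt_d4
  have h3 := Real.pi_gt_d2
  have h4 : (15.1 : ℝ) ≤ (6 * π ^ 2) ^ (2 / 3 : ℝ) := by
    have e : (15.1 : ℝ) = (15.1 ^ (3 / 2 : ℝ)) ^ (2 / 3 : ℝ) := by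
      rw [← Real.rpow_mul (by norm_num)]; norm_num
    rw [e]
    refine Real.rpow_le_rpow (by positivity) ?_ (by norm_num)
    refine le_of_sq_le_sq ?_ (by positivity)
    rw [← Real.rpow_natCast, ← Real.rpow_mul (by norm_num)]
    have : (59 : ℝ) ≤ 6 * π ^ 2 := by nlinarith
    norm_num
    nlinarith
  have h5 : √(7 / 3) * (64 * π / 25 + 15 / 4) ≤ 1.528 * (64 * 3.1416 / 25 + 15 / 4) := by
    gcongr
  linarith

end Pool.Agent.MP_2c73ad_mp.H42
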