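import Pool.Agent.MP_2c73ad_mp.H42.Spin
import Pool.Agent.MP_2c73ad_mp.H42.Vortex

/-! The March-Young inequality with at most two particles per spin state. -/

open MeasureTheory Metric Set Filter Real
open scoped NNReal ENNReal

namespace Pool.Agent.MP_2c73ad_mp.H42

theorem exists_field_two (n : ℕ) (f : (Fin 3 → ℝ) → ℝ)
    (μ : Measure (Fin 3 → ℝ)) [IsFiniteMeasure μ] (hn : 0 < n) (hn2 : n ≤ 2) (hf : Measurable f)
    (hf0 : ∀ x, 0 ≤ f x) (hμ : μ = volume.withDensity (fun x => ENNReal.ofReal (f x)))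
    (hN : μ.real univ = n) :
    ∃ (u : (Fin 3 → ℝ) → EuclideanSpace ℂ (Fin n)) (K : ℝ≥0), LipschitzWith K u ∧ (∀ x, ‖u x‖ = 1) ∧
      (∀ b c, ∫ x, (starRingEnd ℂ) (u x b) * u x c ∂μ = if b = c then 1 else 0) ∧
      ∫⁻ x, ENNReal.ofReal (∑ k, ‖fderiv ℝ u x (Pi.single k 1)‖ ^ 2) ∂μ ≤
        ENNReal.ofReal (if 2 ≤ n then 3 / 5 * (6 * π ^ 2) ^ (2 / 3 : ℝ) else 0) *
          ∫⁻ x, ENNReal.ofReal (f x ^ (5 / 3 : ℝ)) := by
  by_cases h2 : 2 ≤ n
  · obtain rfl : n = 2 := by omega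
    obtain ⟨u, K, h1, h3, h4, h5⟩ := exists_vortex f μ hf hf0 hμ (by exact_mod_cast hN)
    refine ⟨u, K, h1, h3, h4, h5.trans ?_⟩
    rw [if_pos h2]
    exact mul_le_mul_left (ENNReal.ofReal_le_ofReal const_le) _
  · obtain rfl : n = 1 := by omega
    refine ⟨fun _ => EuclideanSpace.single 0 1, 0, LipschitzWith.const _, by simp, ?_, by simp⟩
    intro b c
    obtain rfl : b = 0 := Subsingleton.elim _ _
    obtain rfl : c = 0 := Subsingleton.elim _ _
    simp [hN]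

theorem sum_lt (q m : ℕ) : ∑ σ : Fin q, (if (σ : ℕ) < m then 1 else 0) = min m q := by
  rw [Fin.sum_univ_eq_sum_range (fun s => if s < m then 1 else 0), Finset.sum_boole]
  have : (Finset.range q).filter (fun s => s < m) = Finset.range (min m q) := by
    ext s
    simp only [Finset.mem_filter, Finset.mem_range]
    omega
  rw [this, Finset.card_range, Nat.cast_id]

theorem exists_split_two (q N : ℕ) (h : N ≤ 2 * q) :
    ∃ n : Fin q → ℕ, ∑ σ, n σ = N ∧ (∀ σ, n σ ≤ 2) ∧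
      ∑ σ, (if 2 ≤ n σ then 1 else 0) = N - q := by
  refine ⟨fun σ => (if (σ : ℕ) < N - q then 1 else 0) + if (σ : ℕ) < N then 1 else 0, ?_,
    fun σ => ?_, ?_⟩
  · rw [Finset.sum_add_distrib, sum_lt, sum_lt]; omega
  · simp only; split_ifs <;> omega
  · have : ∀ σ : Fin q, (if 2 ≤ (if (σ : ℕ) < N - q then 1 else 0) + (if (σ : ℕ) < N then 1 else 0)
        then 1 else 0) = if (σ : ℕ) < N - q then 1 else 0 := fun σ => by
      split_ifs <;> omega
    simp only [this]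
    rw [sum_lt]; omega

theorem pair_ineq {q N : ℝ} (hq : 0 < q) (h1 : q ≤ N) (h2 : N ≤ 2 * q) :
    (N - q) * (2 / N) ^ (5 / 3 : ℝ) ≤ q ^ (-(2 / 3) : ℝ) := by
  have hN : 0 < N := hq.trans_le h1
  refine le_of_pow_le_pow_left₀ (n := 3) (by norm_num) (by positivity) ?_
  rw [mul_pow, ← Real.rpow_natCast (_ ^ (5 / 3 : ℝ)), ← Real.rpow_mul (by positivity),
    ← Real.rpow_natCast (_ ^ (-(2 / 3) : ℝ)), ← Real.rpow_mul hq.le]
  have e1 : (5 / 3 : ℝ) * (3 : ℕ) = (5 : ℕ) := by norm_num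
  have e2 : (-(2 / 3) : ℝ) * (3 : ℕ) = -(2 : ℕ) := by norm_num
  rw [e1, e2, Real.rpow_neg hq.le, Real.rpow_natCast, Real.rpow_natCast, div_pow, ← mul_div_assoc,
    inv_eq_one_div, div_le_div_iff₀ (by positivity) (by positivity)]
  obtain ⟨m, rfl⟩ : ∃ m, N = q + m := ⟨N - q, by ring⟩
  have m0 : 0 ≤ m := by linarith
  have m1 : 0 ≤ q - m := by linarith
  have : 0 ≤ (q - m) * (q ^ 4 + 6 * q ^ 3 * m + 9 * q ^ 2 * m ^ 2 + 6 * q * m ^ 2 * (q - m) +
      m ^ 2 * (q - m) * (q + m)) := by positivity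
  nlinarith

theorem core_two (n : ℕ) (hn2 : n ≤ 2) (ρ : (Fin 3 → ℝ) → ℝ) (G : Fin 3 → (Fin 3 → ℝ) → ℝ) :
    (∀ x, 0 ≤ ρ x) → ∫ x, ρ x = n → InH1 (fun x => √(ρ x)) G →
    ∃ (φ : Fin n → (Fin 3 → ℝ) → ℂ) (D : Fin n → Fin 3 → (Fin 3 → ℝ) → ℂ),
      (∀ a, InH1 (φ a) (D a)) ∧
      (∀ a b, ∫ x, (starRingEnd ℂ) (φ a x) * φ b x = if a = b then 1 else 0) ∧
      (∀ᵐ x, ∑ a, ‖φ a x‖ ^ 2 = ρ x) ∧
      ENNReal.ofReal (∑ a, ∑ k, ∫ x, ‖D a k x‖ ^ 2) ≤
        ENNReal.ofReal (if 2 ≤ n then 3 / 5 * (6 * π ^ 2) ^ (2 / 3 : ℝ) else 0) * (∫⁻ x, ENNReal.ofReal (ρ x ^ (5 / 3 : ℝ))) +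
          ENNReal.ofReal (∑ k, ∫ x, G k x ^ 2) := by
  intro h0 hN hH
  have iρ : Integrable ρ := by
    have := hH.1.integrable_sq
    simpa only [Real.sq_sqrt (h0 _)] using this
  rcases Nat.eq_zero_or_pos n with rfl | hn
  · refine ⟨fun a => a.elim0, fun a => a.elim0, fun a => a.elim0, fun a => a.elim0, ?_, by simp⟩
    have := (integral_eq_zero_iff_of_nonneg h0 iρ).1 (by simpa using hN)
    filter_upwards [this] with x hx
    simp [hx]
  set f : (Fin 3 → ℝ) → ℝ := fun x => max (iρ.aemeasurable.mk ρ x) 0 with hf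
  have mf : Measurable f := iρ.aemeasurable.measurable_mk.max measurable_const
  have f0 : ∀ x, 0 ≤ f x := fun x => le_max_right _ _
  have fρ : ∀ᵐ x, f x = ρ x := by
    filter_upwards [iρ.aemeasurable.ae_eq_mk] with x hx
    simp only [hf, ← hx]
    exact max_eq_left (h0 x)
  have i_f : Integrable f := iρ.congr (fρ.mono fun x hx => hx.symm)
  set μ : Measure (Fin 3 → ℝ) := volume.withDensity fun x => ENNReal.ofReal (f x) with hμ
  have : IsFiniteMeasure μ := isFiniteMeasure_withDensity_ofReal i_f.2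
  have hint : ∀ F : (Fin 3 → ℝ) → ℂ, ∫ x, F x ∂μ = ∫ x, (ρ x : ℂ) * F x := by
    intro F
    rw [hμ, integral_withDensity_eq_integral_toReal_smul (by fun_prop) (by simp)]
    refine integral_congr_ae ?_
    filter_upwards [fρ] with x hx
    rw [ENNReal.toReal_ofReal (f0 x), hx, Complex.real_smul]
  have hμN : μ.real univ = n := by
    have := hint fun _ => 1
    simp only [integral_const, mul_one, integral_complex_ofReal, hN, Complex.real_smul] at this
    exact_mod_cast this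
  obtain ⟨u, K, hL, hu1, hu2, hu3⟩ := exists_field_two n f μ hn hn2 mf f0 hμ hμN
  have hLa : ∀ a, LipschitzWith K fun x => u x a := fun a =>
    LipschitzWith.of_dist_le_mul fun x y => (PiLp.dist_apply_le _ _ a).trans (hL.dist_le_mul x y)
  have hba : ∀ a x, ‖u x a‖ ≤ 1 := fun a x => (hu1 x) ▸ PiLp.norm_apply_le (u x) a
  have ms : AEStronglyMeasurable (fun x => ((√(ρ x) : ℝ) : ℂ)) volume :=
    Complex.continuous_ofReal.comp_aestronglyMeasurable hH.1.1
  have mD : ∀ a k, MemLp (fun x => (G k x : ℂ) * u x a +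
      ((√(ρ x) : ℝ) : ℂ) * fderiv ℝ (fun y => u y a) x (Pi.single k 1)) 2 volume := by
    intro a k
    refine MemLp.add (f := fun x => (G k x : ℂ) * u x a) ?_ ?_
    · refine (hH.2 k).1.of_le ((Complex.continuous_ofReal.comp_aestronglyMeasurable
        (hH.2 k).1.1).mul (hLa a).continuous.aestronglyMeasurable) (Eventually.of_forall fun x => ?_)
      rw [norm_mul, Complex.norm_real]
      exact mul_le_of_le_one_right (norm_nonneg _) (hba a x)
    · refine hH.1.of_le_mul (c := K) (ms.mul (measurable_fderiv_apply_const ℝ _ _).aestronglyMeasurable)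
        (Eventually.of_forall fun x => ?_)
      rw [norm_mul, Complex.norm_real, mul_comm]
      gcongr
      refine (ContinuousLinearMap.le_opNorm _ _).trans ?_
      rw [Pi.norm_single, norm_one, mul_one]
      exact norm_fderiv_le_of_lipschitz ℝ (hLa a)
  refine ⟨fun a x => ((√(ρ x) : ℝ) : ℂ) * u x a, fun a k x => (G k x : ℂ) * u x a +
      ((√(ρ x) : ℝ) : ℂ) * fderiv ℝ (fun y => u y a) x (Pi.single k 1), ?_, ?_, ?_, ?_⟩
  · intro a
    refine ⟨hH.1.of_le (ms.mul (hLa a).continuous.aestronglyMeasurable)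
      (Eventually.of_forall fun x => ?_), fun k => ⟨mD a k, ?_⟩⟩
    · rw [norm_mul, Complex.norm_real]
      exact mul_le_of_le_one_right (norm_nonneg _) (hba a x)
    · exact weak_mul (hH.1.locallyIntegrable one_le_two) ((hH.2 k).1.locallyIntegrable one_le_two)
        (hH.2 k).2 (hLa a) (hba a)
  · intro a b
    rw [← hu2 a b, hint]
    refine integral_congr_ae (Eventually.of_forall fun x => ?_)
    have : ((√(ρ x) : ℝ) : ℂ) * ((√(ρ x) : ℝ) : ℂ) = ρ x := by
      rw [← Complex.ofReal_mul, Real.mul_self_sqrt (h0 x)]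
    simp only [map_mul, Complex.conj_ofReal]
    rw [← this]; ring
  · refine Eventually.of_forall fun x => ?_
    simp only [norm_mul, mul_pow, Complex.norm_real, Real.norm_eq_abs, sq_abs, Real.sq_sqrt (h0 x)]
    rw [← Finset.mul_sum, ← EuclideanSpace.norm_sq_eq, hu1]; ring
  · have iG : ∀ k, Integrable fun x => G k x ^ 2 := fun k => (hH.2 k).1.integrable_sq
    have iE : ∀ k, Integrable fun x => ρ x * ‖fderiv ℝ u x (Pi.single k 1)‖ ^ 2 := fun k => by
      refine iρ.mul_bdd (c := K ^ 2)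
        ((measurable_fderiv_apply_const ℝ u _).norm.pow_const 2).aestronglyMeasurable
        (Eventually.of_forall fun x => ?_)
      rw [Real.norm_of_nonneg (sq_nonneg _)]
      gcongr
      refine (ContinuousLinearMap.le_opNorm _ _).trans ?_
      rw [Pi.norm_single, norm_one, mul_one]
      exact norm_fderiv_le_of_lipschitz ℝ hL
    have e1 : ∀ k, ∑ a, ∫ x, ‖(G k x : ℂ) * u x a +
        ((√(ρ x) : ℝ) : ℂ) * fderiv ℝ (fun y => u y a) x (Pi.single k 1)‖ ^ 2 =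
        (∫ x, ρ x * ‖fderiv ℝ u x (Pi.single k 1)‖ ^ 2) + ∫ x, G k x ^ 2 := by
      intro k
      rw [← integral_finsetSum _ fun a _ => (mD a k).norm.integrable_sq, ← integral_add (iE k) (iG k)]
      refine integral_congr_ae ?_
      filter_upwards [hL.ae_differentiableAt (μ := volume)] with x hx
      rw [norm_sq_split hu1 hx, Real.sq_sqrt (h0 x), add_comm]
    have e2 : ENNReal.ofReal (∑ k, ∫ x, ρ x * ‖fderiv ℝ u x (Pi.single k 1)‖ ^ 2) ≤
        ENNReal.ofReal (if 2 ≤ n then 3 / 5 * (6 * π ^ 2) ^ (2 / 3 : ℝ) else 0) *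
          ∫⁻ x, ENNReal.ofReal (ρ x ^ (5 / 3 : ℝ)) := by
      rw [← integral_finsetSum _ fun k _ => iE k,
        ofReal_integral_eq_lintegral_ofReal (integrable_finsetSum _ fun k _ => iE k)
        (Eventually.of_forall fun x => Finset.sum_nonneg fun k _ => mul_nonneg (h0 x) (sq_nonneg _))]
      convert hu3 using 1
      · rw [hμ, lintegral_withDensity_eq_lintegral_mul _ (by fun_prop)
          (Finset.measurable_fun_sum _ fun k _ =>
            (measurable_fderiv_apply_const ℝ u _).norm.pow_const 2).ennreal_ofReal]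
        refine lintegral_congr_ae ?_
        filter_upwards [fρ] with x hx
        rw [Pi.mul_apply, hx, ← Finset.mul_sum, ENNReal.ofReal_mul (h0 x)]
      · congr 1
        refine lintegral_congr_ae ?_
        filter_upwards [fρ] with x hx
        rw [hx]
    rw [Finset.sum_comm]
    simp only [e1]
    rw [Finset.sum_add_distrib]
    exact ENNReal.ofReal_add_le.trans (add_le_add e2 le_rfl)

theorem spin_two : ∀ (q N : ℕ), 1 ≤ q → 1 ≤ N → N ≤ 2 * q →
    ∀ (ρ : (Fin 3 → ℝ) → ℝ) (G : Fin 3 → (Fin 3 → ℝ) → ℝ),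
      (∀ x, 0 ≤ ρ x) → ∫ x, ρ x = N → InH1 (fun x => √(ρ x)) G →
      ∃ (φ : Fin N → Fin q → (Fin 3 → ℝ) → ℂ) (D : Fin N → Fin q → Fin 3 → (Fin 3 → ℝ) → ℂ),
        (∀ i σ, InH1 (φ i σ) (D i σ)) ∧
        (∀ i j, ∑ σ, ∫ x, (starRingEnd ℂ) (φ i σ x) * φ j σ x = if i = j then 1 else 0) ∧
        (∀ᵐ x, ∑ i, ∑ σ, ‖φ i σ x‖ ^ 2 = ρ x) ∧
        ENNReal.ofReal (∑ i, ∑ σ, ∑ k, ∫ x, ‖D i σ k x‖ ^ 2) ≤
          ENNReal.ofReal ((q : ℝ) ^ (-(2 / 3) : ℝ) * (3 / 5 * (6 * π ^ 2) ^ (2 / 3 : ℝ))) *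
              (∫⁻ x, ENNReal.ofReal (ρ x ^ (5 / 3 : ℝ))) +
            ENNReal.ofReal (∑ k, ∫ x, G k x ^ 2) := by
  intro q N hq hN hNq ρ G h0 hρ hH
  obtain ⟨n, hn, hn2, hn3⟩ := exists_split_two q N hNq
  have hN' : (0 : ℝ) < N := by exact_mod_cast hN
  have hq' : (0 : ℝ) < q := by exact_mod_cast hq
  set c : Fin q → ℝ := fun σ => n σ / N with hc
  have c0 : ∀ σ, 0 ≤ c σ := fun σ => by positivity
  have c1 : ∑ σ, c σ = 1 := by
    rw [← Finset.sum_div, ← Nat.cast_sum, hn, div_self hN'.ne']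
  choose φ D h1 h2 h3 h4 using fun σ => core_two (n σ) (hn2 σ) (fun x => c σ * ρ x)
    (fun k x => √(c σ) * G k x) (fun x => mul_nonneg (c0 σ) (h0 x))
    (by rw [integral_const_mul, hρ, hc]; field_simp)
    (by simpa only [Real.sqrt_mul (c0 σ)] using hH.const_mul (√(c σ)))
  obtain ⟨e⟩ : Nonempty (Fin N ≃ Σ σ : Fin q, Fin (n σ)) :=
    ⟨Fintype.equivOfCardEq (by simp [hn])⟩
  set Φ : (Σ σ : Fin q, Fin (n σ)) → Fin q → (Fin 3 → ℝ) → ℂ :=
    fun p σ x => if p.1 = σ then φ p.1 p.2 x else 0 with hΦ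
  set Δ : (Σ σ : Fin q, Fin (n σ)) → Fin q → Fin 3 → (Fin 3 → ℝ) → ℂ :=
    fun p σ k x => if p.1 = σ then D p.1 p.2 k x else 0 with hΔ
  refine ⟨fun i => Φ (e i), fun i => Δ (e i), ?_, ?_, ?_, ?_⟩
  · intro i σ
    by_cases h : (e i).1 = σ
    · simpa only [hΦ, hΔ, if_pos h] using h1 _ _
    · simpa only [hΦ, hΔ, if_neg h] using InH1.zero
  · intro i j
    have key : ∀ p p' : (Σ σ : Fin q, Fin (n σ)),
        ∑ σ, ∫ x, (starRingEnd ℂ) (Φ p σ x) * Φ p' σ x = if p = p' then 1 else 0 := by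
      rintro ⟨s, a⟩ ⟨s', a'⟩
      rw [Finset.sum_eq_single s]
      · by_cases h : s' = s
        · subst h
          simp only [hΦ, if_true, h2, Sigma.mk.injEq, heq_eq_eq, true_and]
        · have : (⟨s, a⟩ : Σ σ : Fin q, Fin (n σ)) ≠ ⟨s', a'⟩ := fun hh =>
            h (congrArg Sigma.fst hh).symm
          simp [hΦ, h, this]
      · intro σ _ hσ
        simp [hΦ, hσ.symm]
      · simp
    rw [key]
    simp only [e.apply_eq_iff_eq]
  · filter_upwards [ae_all_iff.2 h3] with x hx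
    rw [e.sum_comp fun p => ∑ σ, ‖Φ p σ x‖ ^ 2]
    have : ∀ p : (Σ σ : Fin q, Fin (n σ)), ∑ σ, ‖Φ p σ x‖ ^ 2 = ‖φ p.1 p.2 x‖ ^ 2 := by
      intro p
      rw [Finset.sum_eq_single p.1]
      · simp [hΦ]
      · intro σ _ hσ
        simp [hΦ, hσ.symm]
      · simp
    simp only [this]
    rw [Fintype.sum_sigma]
    simp only [hx]
    rw [← Finset.sum_mul, c1, one_mul]
  · rw [e.sum_comp fun p => ∑ σ, ∑ k, ∫ x, ‖Δ p σ k x‖ ^ 2]
    have : ∀ p : (Σ σ : Fin q, Fin (n σ)), ∑ σ, ∑ k, ∫ x, ‖Δ p σ k x‖ ^ 2 =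
        ∑ k, ∫ x, ‖D p.1 p.2 k x‖ ^ 2 := by
      intro p
      rw [Finset.sum_eq_single p.1]
      · simp [hΔ]
      · intro σ _ hσ
        simp [hΔ, hσ.symm]
      · simp
    simp only [this]
    rw [Fintype.sum_sigma, ENNReal.ofReal_sum_of_nonneg fun σ _ => Finset.sum_nonneg fun a _ =>
      Finset.sum_nonneg fun k _ => integral_nonneg fun x => sq_nonneg _]
    refine (Finset.sum_le_sum fun σ _ => h4 σ).trans ?_
    rw [Finset.sum_add_distrib]
    set J := ∫⁻ x, ENNReal.ofReal (ρ x ^ (5 / 3 : ℝ)) with hJ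
    set C : ℝ := 3 / 5 * (6 * π ^ 2) ^ (2 / 3 : ℝ) with hC
    have hC0 : 0 ≤ C := by positivity
    refine add_le_add ?_ (le_of_eq ?_)
    · have b : ∀ σ, ENNReal.ofReal (if 2 ≤ n σ then C else 0) *
          ∫⁻ x, ENNReal.ofReal ((c σ * ρ x) ^ (5 / 3 : ℝ)) =
          ENNReal.ofReal ((if 2 ≤ n σ then 1 else 0) * ((2 / N : ℝ) ^ (5 / 3 : ℝ) * C)) * J := by
        intro σ
        split_ifs with h
        · have e1 : ∀ x, ENNReal.ofReal ((c σ * ρ x) ^ (5 / 3 : ℝ)) =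
              ENNReal.ofReal (c σ ^ (5 / 3 : ℝ)) * ENNReal.ofReal (ρ x ^ (5 / 3 : ℝ)) := fun x => by
            rw [Real.mul_rpow (c0 σ) (h0 x), ENNReal.ofReal_mul (Real.rpow_nonneg (c0 σ) _)]
          simp only [e1]
          rw [lintegral_const_mul' _ _ ENNReal.ofReal_ne_top, ← mul_assoc,
            ← ENNReal.ofReal_mul hC0]
          have e2 : c σ = 2 / N := by
            simp only [hc, le_antisymm (hn2 σ) h]; norm_num
          rw [e2, one_mul, mul_comm C]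
        · simp
      simp only [b]
      rw [← Finset.sum_mul, ← ENNReal.ofReal_sum_of_nonneg fun σ _ => by positivity,
        ← Finset.sum_mul, ← mul_assoc]
      refine mul_le_mul_left (ENNReal.ofReal_le_ofReal (mul_le_mul_of_nonneg_right ?_ hC0)) _
      have e3 : ∑ σ, (if 2 ≤ n σ then (1 : ℝ) else 0) = ((N - q : ℕ) : ℝ) := by
        rw [← hn3]; push_cast; rfl
      rw [e3]
      rcases le_total N q with h | h
      · rw [Nat.sub_eq_zero_of_le h, Nat.cast_zero, zero_mul]; positivity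
      · rw [Nat.cast_sub h]
        exact pair_ineq hq' (by exact_mod_cast h) (by exact_mod_cast hNq)
    · rw [← ENNReal.ofReal_sum_of_nonneg fun σ _ => Finset.sum_nonneg fun k _ =>
        integral_nonneg fun x => sq_nonneg _]
      congr 1
      simp only [mul_pow, Real.sq_sqrt (c0 _), integral_const_mul, ← Finset.mul_sum]
      rw [← Finset.sum_mul, c1, one_mul]

end Pool.Agent.MP_2c73ad_mp.H42
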