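import Mathlib

/-! Radial integrals and the planar estimate. -/

open MeasureTheory Metric Set Filter Topology Real
open scoped ENNReal

namespace Pool.Agent.MP_2c73ad_mp.H42

theorem lint_radial {E : Type} [NormedAddCommGroup E] [NormedSpace ℝ E] [MeasurableSpace E]
    [Nontrivial E] (μ : Measure E) [FiniteDimensional ℝ E] [BorelSpace E] [μ.IsAddHaarMeasure]
    {φ : ℝ → ℝ} (h0 : ∀ y, 0 ≤ y → 0 ≤ φ y)
    (hi : IntegrableOn (fun y : ℝ => y ^ (Module.finrank ℝ E - 1) • φ y) (Ioi 0)) :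
    ∫⁻ x, ENNReal.ofReal (φ ‖x‖) ∂μ = ENNReal.ofReal (Module.finrank ℝ E * (μ.real (ball 0 1) *
      ∫ y in Ioi (0 : ℝ), y ^ (Module.finrank ℝ E - 1) • φ y)) := by
  rw [← ofReal_integral_eq_lintegral_ofReal ((integrable_fun_norm_addHaar μ).2 hi)
    (Eventually.of_forall fun x => h0 _ (norm_nonneg _)), integral_fun_norm_addHaar, nsmul_eq_mul,
    smul_eq_mul]

theorem lint_smul {E : Type} [NormedAddCommGroup E] [NormedSpace ℝ E] [MeasurableSpace E]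
    (μ : Measure E) [FiniteDimensional ℝ E] [BorelSpace E] [μ.IsAddHaarMeasure]
    {g : E → ℝ≥0∞} (hg : Measurable g) {r : ℝ} (hr : r ≠ 0) :
    ∫⁻ x, g (r • x) ∂μ = ENNReal.ofReal |(r ^ Module.finrank ℝ E)⁻¹| * ∫⁻ x, g x ∂μ := by
  rw [← lintegral_map hg (measurable_const_smul r), Measure.map_addHaar_smul μ hr,
    lintegral_smul_measure, smul_eq_mul]

theorem plane_radial {l : ℝ} (a : ℂ) {φ g : ℝ → ℝ} (h0 : ∀ y, 0 ≤ φ y)
    (hd : ∀ w, HasDerivAt g (φ w) w) (hl : 0 < l) :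
    ∫⁻ z, ENNReal.ofReal ((l ^ 2 / (l ^ 2 + ‖z - a‖ ^ 2)) ^ 2 * φ (l ^ 2 / (l ^ 2 + ‖z - a‖ ^ 2)))
      = ENNReal.ofReal (π * l ^ 2 * (g 1 - g 0)) := by
  rw [lintegral_sub_right_eq_self (fun z : ℂ => ENNReal.ofReal ((l ^ 2 / (l ^ 2 + ‖z‖ ^ 2)) ^ 2 *
    φ (l ^ 2 / (l ^ 2 + ‖z‖ ^ 2)))) a]
  have hder : ∀ y ∈ Ici (0 : ℝ), HasDerivAt (fun y => -(l ^ 2 / 2) * g (l ^ 2 / (l ^ 2 + y ^ 2)))
      (y ^ (2 - 1) • ((l ^ 2 / (l ^ 2 + y ^ 2)) ^ 2 * φ (l ^ 2 / (l ^ 2 + y ^ 2)))) y := by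
    intro y _
    have hp : l ^ 2 + y ^ 2 ≠ 0 := by positivity
    have h1 : HasDerivAt (fun y : ℝ => l ^ 2 + y ^ 2) (2 * y) y := by
      simpa using (hasDerivAt_pow 2 y).const_add (l ^ 2)
    have h2 := ((hd _).comp y ((hasDerivAt_const y (l ^ 2)).div h1 hp)).const_mul (-(l ^ 2 / 2))
    refine h2.congr_deriv ?_
    simp only [smul_eq_mul, Pi.div_apply]
    field_simp
    ring
  have hpos : ∀ y ∈ Ioi (0 : ℝ),
      0 ≤ y ^ (2 - 1) • ((l ^ 2 / (l ^ 2 + y ^ 2)) ^ 2 * φ (l ^ 2 / (l ^ 2 + y ^ 2))) := by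
    intro y hy
    have : 0 < y := hy
    have := h0 (l ^ 2 / (l ^ 2 + y ^ 2))
    rw [smul_eq_mul]; positivity
  have hlim : Tendsto (fun y : ℝ => -(l ^ 2 / 2) * g (l ^ 2 / (l ^ 2 + y ^ 2))) atTop
      (𝓝 (-(l ^ 2 / 2) * g 0)) := by
    refine Tendsto.const_mul _ ((hd 0).continuousAt.tendsto.comp ?_)
    exact tendsto_const_nhds.div_atTop
      (tendsto_atTop_add_const_left _ _ (tendsto_pow_atTop two_ne_zero))
  have := lint_radial (volume : Measure ℂ) (φ := fun y => (l ^ 2 / (l ^ 2 + y ^ 2)) ^ 2 *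
    φ (l ^ 2 / (l ^ 2 + y ^ 2))) (fun y _ => mul_nonneg (sq_nonneg _) (h0 _))
    (by rw [Complex.finrank_real_complex]; exact integrableOn_Ioi_deriv_of_nonneg' hder hpos hlim)
  rw [this, Complex.finrank_real_complex, integral_Ioi_of_hasDerivAt_of_nonneg' hder hpos hlim]
  congr 1
  have e : l ^ 2 / (l ^ 2 + 0 ^ 2) = 1 := by field_simp; ring
  rw [e, Measure.real, Complex.volume_ball]
  simp only [ENNReal.ofReal_one, one_pow, one_mul, ENNReal.coe_toReal, NNReal.coe_real_pi]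
  push_cast
  ring

theorem cauchy {α : Type} [MeasurableSpace α] (μ : Measure α) {f g : α → ℝ≥0∞}
    (hf : Measurable f) (hg : Measurable g) :
    ∫⁻ x, f x * g x ∂μ ≤ (∫⁻ x, f x * f x ∂μ) ^ (1 / 2 : ℝ) * (∫⁻ x, g x * g x ∂μ) ^ (1 / 2 : ℝ) := by
  have := ENNReal.lintegral_mul_le_Lp_mul_Lq μ Real.HolderConjugate.two_two hf.aemeasurable
    hg.aemeasurable
  simpa only [Pi.mul_apply, ENNReal.rpow_two, sq] using this

theorem plane {Q : ℂ → ℝ≥0∞} (hQ : Measurable Q) {a : ℂ} {l : ℝ} (hl : 0 < l)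
    (h1 : ∫⁻ z, Q z * ENNReal.ofReal (l ^ 2 / (l ^ 2 + ‖z - a‖ ^ 2)) = 1) :
    ∫⁻ z, Q z * ENNReal.ofReal ((2 * l ^ 2 + ‖z - a‖ ^ 2) / (l ^ 2 + ‖z - a‖ ^ 2) ^ 2) ≤
      ENNReal.ofReal (π * √(7 / 3)) * ∫⁻ z, Q z * Q z := by
  have a1 := cauchy volume hQ (g := fun z => ENNReal.ofReal (l ^ 2 / (l ^ 2 + ‖z - a‖ ^ 2)))
    (by fun_prop)
  have a2 := cauchy volume hQ (g := fun z =>
    ENNReal.ofReal ((2 * l ^ 2 + ‖z - a‖ ^ 2) / (l ^ 2 + ‖z - a‖ ^ 2) ^ 2)) (by fun_prop)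
  have b1 := plane_radial a (φ := fun _ => 1) (g := fun w => w) (fun _ => zero_le_one)
    (fun w => hasDerivAt_id w) hl
  have b2 := plane_radial a (φ := fun w => (1 + w) ^ 2 / l ^ 4) (g := fun w => (1 + w) ^ 3 / (3 * l ^ 4))
    (fun _ => by positivity) (fun w => by
      have := (((hasDerivAt_id w).const_add 1).pow 3).div_const (3 * l ^ 4)
      refine this.congr_deriv ?_
      simp only [id]
      field_simp
      push_cast
      ring) hl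
  have c1 : ∀ z : ℂ, ENNReal.ofReal (l ^ 2 / (l ^ 2 + ‖z - a‖ ^ 2)) *
      ENNReal.ofReal (l ^ 2 / (l ^ 2 + ‖z - a‖ ^ 2)) =
      ENNReal.ofReal ((l ^ 2 / (l ^ 2 + ‖z - a‖ ^ 2)) ^ 2 * 1) := fun z => by
    rw [← ENNReal.ofReal_mul (by positivity)]; congr 1; ring
  have c2 : ∀ z : ℂ, ENNReal.ofReal ((2 * l ^ 2 + ‖z - a‖ ^ 2) / (l ^ 2 + ‖z - a‖ ^ 2) ^ 2) *
      ENNReal.ofReal ((2 * l ^ 2 + ‖z - a‖ ^ 2) / (l ^ 2 + ‖z - a‖ ^ 2) ^ 2) =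
      ENNReal.ofReal ((l ^ 2 / (l ^ 2 + ‖z - a‖ ^ 2)) ^ 2 *
        ((1 + l ^ 2 / (l ^ 2 + ‖z - a‖ ^ 2)) ^ 2 / l ^ 4)) := fun z => by
    rw [← ENNReal.ofReal_mul (by positivity)]; congr 1; field_simp; ring
  have d1 : π * l ^ 2 * (1 - 0) = π * l ^ 2 := by ring
  have d2 : π * l ^ 2 * ((1 + 1) ^ 3 / (3 * l ^ 4) - (1 + 0) ^ 3 / (3 * l ^ 4)) =
      7 / 3 * π / l ^ 2 := by field_simp; ring
  simp only [c1, b1, h1, d1] at a1
  simp only [c2, b2, d2] at a2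
  set X := ∫⁻ z, Q z * Q z
  calc _ ≤ _ * 1 := (mul_one _).ge
    _ ≤ _ := mul_le_mul' a2 a1
    _ = _ := by
      rw [mul_mul_mul_comm, ← ENNReal.rpow_add_of_nonneg _ _ (by norm_num) (by norm_num),
        ← ENNReal.mul_rpow_of_nonneg _ _ (by norm_num), ← ENNReal.ofReal_mul (by positivity),
        ENNReal.ofReal_rpow_of_nonneg (by positivity) (by norm_num), mul_comm]
      have e1 : (1 / 2 + 1 / 2 : ℝ) = 1 := by norm_num
      have e2 : 7 / 3 * π / l ^ 2 * (π * l ^ 2) = π ^ 2 * (7 / 3) := by field_simp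
      rw [e1, ENNReal.rpow_one, e2, ← Real.sqrt_eq_rpow, Real.sqrt_mul (sq_nonneg _),
        Real.sqrt_sq pi_pos.le]

end Pool.Agent.MP_2c73ad_mp.H42
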