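import Pool.Agent.MP_2c73ad_mp.H42.Core

/-! Distribution over the spin states. -/

open MeasureTheory Filter
open scoped ENNReal

namespace Pool.Agent.MP_2c73ad_mp.H42

theorem InH1.zero : InH1 (fun _ => (0 : ℂ)) (fun _ _ => 0) :=
  ⟨MemLp.zero', fun _ => ⟨MemLp.zero', fun _ _ _ => by simp⟩⟩

theorem InH1.const_mul {f : (Fin 3 → ℝ) → ℝ} {G : Fin 3 → (Fin 3 → ℝ) → ℝ} (h : InH1 f G) (c : ℝ) :
    InH1 (fun x => c * f x) (fun k x => c * G k x) := by
  refine ⟨h.1.const_mul c, fun k => ⟨(h.2 k).1.const_mul c, fun ϕ h1 h2 => ?_⟩⟩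
  have := (h.2 k).2 ϕ h1 h2
  simp only [smul_eq_mul] at this ⊢
  simp only [mul_left_comm _ c, integral_const_mul, this, mul_neg]

theorem exists_split (q N : ℕ) (hq : 1 ≤ q) :
    ∃ n : Fin q → ℕ, ∑ σ, n σ = N ∧ ∀ σ, 2 ≤ n σ → q * n σ ≤ 2 * N := by
  refine ⟨fun σ => N / q + if (σ : ℕ) < N % q then 1 else 0, ?_, fun σ h => ?_⟩
  · rw [Finset.sum_add_distrib, Finset.sum_const, Finset.card_univ, Fintype.card_fin, smul_eq_mul,
      Fin.sum_univ_eq_sum_range (fun s => if s < N % q then 1 else 0), Finset.sum_boole]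
    have : (Finset.range q).filter (fun s => s < N % q) = Finset.range (N % q) := by
      ext s
      have := Nat.mod_lt N hq
      simp only [Finset.mem_filter, Finset.mem_range]
      omega
    rw [this, Finset.card_range]
    exact Nat.div_add_mod N q
  · have h1 : q * (N / q) ≤ N := Nat.mul_div_le N q
    have h2 : N / q + (if (σ : ℕ) < N % q then 1 else 0) ≤ 2 * (N / q) := by
      simp only at h
      split_ifs at h ⊢ <;> omega
    calc _ ≤ q * (2 * (N / q)) := Nat.mul_le_mul_left _ h2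
      _ = 2 * (q * (N / q)) := by ring
      _ ≤ 2 * N := by omega

theorem spin : ∃ C : ℝ, 0 < C ∧ ∀ (q N : ℕ), 1 ≤ q → 1 ≤ N →
    ∀ (ρ : (Fin 3 → ℝ) → ℝ) (G : Fin 3 → (Fin 3 → ℝ) → ℝ),
      (∀ x, 0 ≤ ρ x) → ∫ x, ρ x = N → InH1 (fun x => √(ρ x)) G →
      ∃ (φ : Fin N → Fin q → (Fin 3 → ℝ) → ℂ) (D : Fin N → Fin q → Fin 3 → (Fin 3 → ℝ) → ℂ),
        (∀ i σ, InH1 (φ i σ) (D i σ)) ∧
        (∀ i j, ∑ σ, ∫ x, (starRingEnd ℂ) (φ i σ x) * φ j σ x = if i = j then 1 else 0) ∧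
        (∀ᵐ x, ∑ i, ∑ σ, ‖φ i σ x‖ ^ 2 = ρ x) ∧
        ENNReal.ofReal (∑ i, ∑ σ, ∑ k, ∫ x, ‖D i σ k x‖ ^ 2) ≤
          ENNReal.ofReal (C * (q : ℝ) ^ (-(2 / 3) : ℝ)) *
              (∫⁻ x, ENNReal.ofReal (ρ x ^ (5 / 3 : ℝ))) +
            ENNReal.ofReal (∑ k, ∫ x, G k x ^ 2) := by
  obtain ⟨C, hC, hcore⟩ := core
  refine ⟨C * 2 ^ (2 / 3 : ℝ), by positivity, ?_⟩
  intro q N hq hN ρ G h0 hρ hH
  obtain ⟨n, hn, hn2⟩ := exists_split q N hq
  have hN' : (0 : ℝ) < N := by exact_mod_cast hN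
  have hq' : (0 : ℝ) < q := by exact_mod_cast hq
  set c : Fin q → ℝ := fun σ => n σ / N with hc
  have c0 : ∀ σ, 0 ≤ c σ := fun σ => by positivity
  have c1 : ∑ σ, c σ = 1 := by
    rw [← Finset.sum_div, ← Nat.cast_sum, hn, div_self hN'.ne']
  choose φ D h1 h2 h3 h4 using fun σ => hcore (n σ) (fun x => c σ * ρ x)
    (fun k x => √(c σ) * G k x) (fun x => mul_nonneg (c0 σ) (h0 x))
    (by rw [integral_const_mul, hρ, hc]; field_simp)
    (by simpa only [Real.sqrt_mul (c0 σ)] using hH.const_mul (√(c σ)))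
  obtain ⟨e⟩ : Nonempty (Fin N ≃ Σ σ : Fin q, Fin (n σ)) :=
    ⟨Fintype.equivOfCardEq (by simp [hn])⟩
  set Φ : (Σ σ : Fin q, Fin (n σ)) → Fin q → (Fin 3 → ℝ) → ℂ :=
    fun p σ x => if p.1 = σ then φ p.1 p.2 x else 0 with hΦ
  set Δ : (Σ σ : Fin q, Fin (n σ)) → Fin q → Fin 3 → (Fin 3 → ℝ) → ℂ :=
    fun p σ k x => if p.1 = σ then D p.1 p.2 k x else 0 with hΔ
  refine ⟨fun i => Φ (e i), fun i => Δ (e i), ?_, ?_, ?_, ?_⟩
  · intro i σ
    by_cases h : (e i).1 = σ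
    · simpa only [hΦ, hΔ, if_pos h] using h1 _ _
    · simpa only [hΦ, hΔ, if_neg h] using InH1.zero
  · intro i j
    have key : ∀ p p' : (Σ σ : Fin q, Fin (n σ)),
        ∑ σ, ∫ x, (starRingEnd ℂ) (Φ p σ x) * Φ p' σ x = if p = p' then 1 else 0 := by
      rintro ⟨s, a⟩ ⟨s', a'⟩
      rw [Finset.sum_eq_single s]
      · by_cases h : s' = s
        · subst h
          simp only [hΦ, if_true, h2, Sigma.mk.injEq, heq_eq_eq, true_and]
        · have : (⟨s, a⟩ : Σ σ : Fin q, Fin (n σ)) ≠ ⟨s', a'⟩ := fun hh =>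
            h (congrArg Sigma.fst hh).symm
          simp [hΦ, h, this]
      · intro σ _ hσ
        simp [hΦ, hσ.symm]
      · simp
    rw [key]
    simp only [e.apply_eq_iff_eq]
  · filter_upwards [ae_all_iff.2 h3] with x hx
    rw [e.sum_comp fun p => ∑ σ, ‖Φ p σ x‖ ^ 2]
    have : ∀ p : (Σ σ : Fin q, Fin (n σ)), ∑ σ, ‖Φ p σ x‖ ^ 2 = ‖φ p.1 p.2 x‖ ^ 2 := by
      intro p
      rw [Finset.sum_eq_single p.1]
      · simp [hΦ]
      · intro σ _ hσ
        simp [hΦ, hσ.symm]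
      · simp
    simp only [this]
    rw [Fintype.sum_sigma]
    simp only [hx]
    rw [← Finset.sum_mul, c1, one_mul]
  · rw [e.sum_comp fun p => ∑ σ, ∑ k, ∫ x, ‖Δ p σ k x‖ ^ 2]
    have : ∀ p : (Σ σ : Fin q, Fin (n σ)), ∑ σ, ∑ k, ∫ x, ‖Δ p σ k x‖ ^ 2 =
        ∑ k, ∫ x, ‖D p.1 p.2 k x‖ ^ 2 := by
      intro p
      rw [Finset.sum_eq_single p.1]
      · simp [hΔ]
      · intro σ _ hσ
        simp [hΔ, hσ.symm]
      · simp
    simp only [this]
    rw [Fintype.sum_sigma, ENNReal.ofReal_sum_of_nonneg fun σ _ => Finset.sum_nonneg fun a _ =>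
      Finset.sum_nonneg fun k _ => integral_nonneg fun x => sq_nonneg _]
    refine (Finset.sum_le_sum fun σ _ => h4 σ).trans ?_
    rw [Finset.sum_add_distrib]
    set J := ∫⁻ x, ENNReal.ofReal (ρ x ^ (5 / 3 : ℝ)) with hJ
    set A := C * 2 ^ (2 / 3 : ℝ) * (q : ℝ) ^ (-(2 / 3) : ℝ) with hA
    have hA0 : 0 ≤ A := by positivity
    refine add_le_add ?_ (le_of_eq ?_)
    · have b : ∀ σ, ENNReal.ofReal (if 2 ≤ n σ then C else 0) *
          ∫⁻ x, ENNReal.ofReal ((c σ * ρ x) ^ (5 / 3 : ℝ)) ≤ ENNReal.ofReal (c σ * A) * J := by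
        intro σ
        split_ifs with h
        · have e1 : ∀ x, ENNReal.ofReal ((c σ * ρ x) ^ (5 / 3 : ℝ)) =
              ENNReal.ofReal (c σ ^ (5 / 3 : ℝ)) * ENNReal.ofReal (ρ x ^ (5 / 3 : ℝ)) := fun x => by
            rw [Real.mul_rpow (c0 σ) (h0 x), ENNReal.ofReal_mul (Real.rpow_nonneg (c0 σ) _)]
          simp only [e1]
          rw [lintegral_const_mul' _ _ ENNReal.ofReal_ne_top, ← mul_assoc,
            ← ENNReal.ofReal_mul hC.le]
          refine mul_le_mul_left (ENNReal.ofReal_le_ofReal ?_) _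
          have e2 : c σ ≤ 2 / q := by
            have : (q : ℝ) * n σ ≤ 2 * N := by exact_mod_cast hn2 σ h
            simp only [hc]
            rw [div_le_div_iff₀ hN' hq']; linarith
          have e3 : c σ ^ (2 / 3 : ℝ) ≤ 2 ^ (2 / 3 : ℝ) * (q : ℝ) ^ (-(2 / 3) : ℝ) := by
            rw [Real.rpow_neg hq'.le, ← div_eq_mul_inv, ← Real.div_rpow (by norm_num) hq'.le]
            exact Real.rpow_le_rpow (c0 σ) e2 (by norm_num)
          have e4 : (5 / 3 : ℝ) = 1 + 2 / 3 := by norm_num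
          rw [e4, Real.rpow_add' (c0 σ) (by norm_num), Real.rpow_one, hA]
          calc C * (c σ * c σ ^ (2 / 3 : ℝ))
              ≤ C * (c σ * (2 ^ (2 / 3 : ℝ) * (q : ℝ) ^ (-(2 / 3) : ℝ))) := by
                have := c0 σ
                gcongr
            _ = _ := by ring
        · simp
      refine (Finset.sum_le_sum fun σ _ => b σ).trans (le_of_eq ?_)
      rw [← Finset.sum_mul, ← ENNReal.ofReal_sum_of_nonneg fun σ _ => mul_nonneg (c0 σ) hA0,
        ← Finset.sum_mul, c1, one_mul]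
    · rw [← ENNReal.ofReal_sum_of_nonneg fun σ _ => Finset.sum_nonneg fun k _ =>
        integral_nonneg fun x => sq_nonneg _]
      congr 1
      simp only [mul_pow, Real.sq_sqrt (c0 _), integral_const_mul, ← Finset.mul_sum]
      rw [← Finset.sum_mul, c1, one_mul]

end Pool.Agent.MP_2c73ad_mp.H42
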