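import Pool.Agent.MP_2c73ad_mp.H42.Defs

/-! Weak derivatives: Lipschitz test functions and the product rule with Lipschitz factors. -/

open MeasureTheory Metric Set Filter Topology ContinuousLinearMap
open scoped Convolution NNReal

namespace Pool.Agent.MP_2c73ad_mp.H42

/-- a sequence of bump functions shrinking to the origin -/
noncomputable def bump (n : ℕ) : ContDiffBump (0 : Fin 3 → ℝ) where
  rIn := 1 / (n + 1) / 2
  rOut := 1 / (n + 1)
  rIn_pos := by positivity
  rIn_lt_rOut := half_lt_self (by positivity)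

theorem moll_tendsto {h F : (Fin 3 → ℝ) → ℝ} (hm : AEStronglyMeasurable h volume) {B : ℝ}
    (hB : ∀ x, ‖h x‖ ≤ B) {C : Set (Fin 3 → ℝ)} (hC : IsCompact C) (h0 : ∀ x, x ∉ C → h x = 0)
    (hF : LocallyIntegrable F volume) :
    Tendsto (fun n => ∫ x, ((bump n).normed volume ⋆[lsmul ℝ ℝ, volume] h) x * F x) atTop
      (𝓝 (∫ x, h x * F x)) := by
  have hloc : LocallyIntegrable h volume :=
    (memLp_top_of_bound hm B (Eventually.of_forall hB)).locallyIntegrable le_top
  have hK : IsCompact (cthickening 1 C) := hC.cthickening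
  apply tendsto_integral_of_dominated_convergence
    ((cthickening 1 C).indicator fun x => B * ‖F x‖)
  · intro n
    exact ((bump n).hasCompactSupport_normed.continuous_convolution_left _
      (bump n).continuous_normed hloc).aestronglyMeasurable.mul hF.aestronglyMeasurable
  · rw [integrable_indicator_iff hK.measurableSet]
    exact (hF.integrableOn_isCompact hK).norm.const_mul B
  · intro n
    filter_upwards with x
    by_cases hx : x ∈ cthickening 1 C
    · rw [indicator_of_mem hx, norm_mul]
      gcongr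
      rw [convolution_def]
      refine (norm_integral_le_of_norm_le ((bump n).integrable_normed.mul_const B)
        (Eventually.of_forall fun t => ?_)).trans ?_
      · rw [lsmul_apply, norm_smul, Real.norm_of_nonneg ((bump n).nonneg_normed t)]
        exact mul_le_mul_of_nonneg_left (hB _) ((bump n).nonneg_normed t)
      · rw [integral_mul_const, (bump n).integral_normed, one_mul]
    · rw [indicator_of_notMem hx, convolution_def]
      have : ∀ t, (lsmul ℝ ℝ ((bump n).normed volume t)) (h (x - t)) = 0 := by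
        intro t
        by_cases ht : t ∈ Function.support ((bump n).normed volume)
        · rw [h0, map_zero]
          intro hc
          apply hx
          rw [(bump n).support_normed_eq, mem_ball_zero_iff] at ht
          refine mem_cthickening_of_dist_le x _ 1 C hc ?_
          rw [dist_eq_norm, sub_sub_cancel]
          refine ht.le.trans ?_
          show 1 / ((n : ℝ) + 1) ≤ 1
          rw [div_le_one (by positivity)]
          linarith [Nat.cast_nonneg (α := ℝ) n]
        · rw [Function.notMem_support.1 ht]; simp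
      simp only [this, integral_zero, zero_mul, norm_zero, le_refl]
  · filter_upwards [ContDiffBump.ae_convolution_tendsto_right_of_locallyIntegrable
      (φ := bump) (l := atTop) (K := 2) tendsto_one_div_add_atTop_nhds_zero_nat
      (Eventually.of_forall fun n => le_of_eq (by simp only [bump]; ring)) hloc] with x hx
    exact hx.mul_const _

theorem fderiv_moll {ψ : (Fin 3 → ℝ) → ℝ} {K : ℝ≥0} (hψ : LipschitzWith K ψ) (n : ℕ)
    (x v : Fin 3 → ℝ) :
    fderiv ℝ ((bump n).normed volume ⋆[lsmul ℝ ℝ, volume] ψ) x v =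
      ((bump n).normed volume ⋆[lsmul ℝ ℝ, volume] fun y => fderiv ℝ ψ y v) x := by
  set η := (bump n).normed volume with hη
  have cη : Continuous η := (bump n).continuous_normed
  have cψ := hψ.continuous
  have hd : ∀ᵐ t, DifferentiableAt ℝ ψ (x - t) :=
    (Measure.measurePreserving_sub_left volume x).quasiMeasurePreserving.ae hψ.ae_differentiableAt
  have h := hasFDerivAt_integral_of_dominated_loc_of_lip (μ := volume) (x₀ := x) (s := univ)
    (F := fun x t => η t * ψ (x - t)) (F' := fun t => η t • fderiv ℝ ψ (x - t))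
    (bound := fun t => η t * K) univ_mem
    (Eventually.of_forall fun y => Continuous.aestronglyMeasurable (by fun_prop))
    (Continuous.integrable_of_hasCompactSupport (by fun_prop)
      (bump n).hasCompactSupport_normed.mul_right)
    (cη.aestronglyMeasurable.smul
      ((measurable_fderiv ℝ ψ).comp (measurable_const.sub measurable_id)).aestronglyMeasurable)
    (Eventually.of_forall fun t => LipschitzWith.lipschitzOnWith (LipschitzWith.of_dist_le_mul
      fun a b => by
        have := hψ.dist_le_mul (a - t) (b - t)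
        rw [dist_sub_right] at this
        rw [Real.dist_eq, ← mul_sub, abs_mul, Real.coe_nnabs, abs_mul, NNReal.abs_eq, mul_assoc]
        exact mul_le_mul_of_nonneg_left this (abs_nonneg _)))
    ((bump n).integrable_normed.mul_const _)
    (hd.mono fun t ht => by
      have := (ht.hasFDerivAt.comp x ((hasFDerivAt_id x).sub_const t)).const_mul (η t)
      simpa using this)
  have e : (η ⋆[lsmul ℝ ℝ, volume] ψ) = fun x => ∫ t, η t * ψ (x - t) := rfl
  rw [e, h.2.fderiv, integral_apply h.1]
  rfl

theorem weak_lip {k : Fin 3} {f g : (Fin 3 → ℝ) → ℝ} (hf : LocallyIntegrable f volume)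
    (hg : LocallyIntegrable g volume) (hw : WeakPartial k f g) {ψ : (Fin 3 → ℝ) → ℝ} {K : ℝ≥0}
    (hψ : LipschitzWith K ψ) (hc : HasCompactSupport ψ) :
    ∫ x, fderiv ℝ ψ x (Pi.single k 1) * f x = -∫ x, ψ x * g x := by
  obtain ⟨B, hB⟩ := hc.exists_bound_of_continuous hψ.continuous
  have h1 := moll_tendsto (h := fun y => fderiv ℝ ψ y (Pi.single k 1))
    (measurable_fderiv_apply_const ℝ ψ _).aestronglyMeasurable (B := K * ‖(Pi.single k 1 : Fin 3 → ℝ)‖)
    (fun x => (le_opNorm _ _).trans
      (mul_le_mul_of_nonneg_right (norm_fderiv_le_of_lipschitz ℝ hψ) (norm_nonneg _)))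
    hc (fun x hx => by rw [fderiv_of_notMem_tsupport ℝ hx]; rfl) hf
  have h2 := (moll_tendsto hψ.continuous.aestronglyMeasurable hB hc
    (fun x hx => image_eq_zero_of_notMem_tsupport hx) hg).neg
  refine tendsto_nhds_unique h1 (h2.congr fun n => ?_)
  have := hw ((bump n).normed volume ⋆[lsmul ℝ ℝ, volume] ψ)
    ((bump n).hasCompactSupport_normed.contDiff_convolution_left _ (bump n).contDiff_normed
      hψ.continuous.locallyIntegrable) ((bump n).hasCompactSupport_normed.convolution _ hc)
  simp only [fderiv_moll hψ, smul_eq_mul] at this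
  exact this.symm

theorem weak_mul {k : Fin 3} {f g : (Fin 3 → ℝ) → ℝ} (hf : LocallyIntegrable f volume)
    (hg : LocallyIntegrable g volume) (hw : WeakPartial k f g) {w : (Fin 3 → ℝ) → ℂ} {K : ℝ≥0}
    (hL : LipschitzWith K w) (hb : ∀ x, ‖w x‖ ≤ 1) :
    WeakPartial k (fun x => (f x : ℂ) * w x)
      (fun x => (g x : ℂ) * w x + (f x : ℂ) * fderiv ℝ w x (Pi.single k 1)) := by
  intro ϕ hϕ hc
  set e : Fin 3 → ℝ := Pi.single k 1 with he
  obtain ⟨Kϕ, hKϕ⟩ := hϕ.lipschitzWith_of_hasCompactSupport hc (by simp)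
  obtain ⟨B, hB⟩ := hc.exists_bound_of_continuous hϕ.continuous
  have hB0 : 0 ≤ B := (norm_nonneg _).trans (hB 0)
  have cd : Continuous fun x => fderiv ℝ ϕ x e :=
    (hϕ.continuous_fderiv (by simp)).clm_apply continuous_const
  have i1 : Integrable (fun x => ((fderiv ℝ ϕ x e * f x : ℝ) : ℂ) * w x) :=
    (hf.integrable_smul_left_of_hasCompactSupport cd (hc.fderiv_apply ℝ e)).ofReal.mul_bdd
      hL.continuous.aestronglyMeasurable (Eventually.of_forall hb)
  have i2 : Integrable (fun x => ((ϕ x * g x : ℝ) : ℂ) * w x) :=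
    (hg.integrable_smul_left_of_hasCompactSupport hϕ.continuous hc).ofReal.mul_bdd
      hL.continuous.aestronglyMeasurable (Eventually.of_forall hb)
  have i3 : Integrable (fun x => ((ϕ x * f x : ℝ) : ℂ) * fderiv ℝ w x e) :=
    (hf.integrable_smul_left_of_hasCompactSupport hϕ.continuous hc).ofReal.mul_bdd
      (measurable_fderiv_apply_const ℝ w _).aestronglyMeasurable (c := K * ‖e‖)
      (Eventually.of_forall fun x => (le_opNorm _ _).trans
        (mul_le_mul_of_nonneg_right (norm_fderiv_le_of_lipschitz ℝ hL) (norm_nonneg _)))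
  have key : ∀ L : ℂ →L[ℝ] ℝ, L (∫ x, (((fderiv ℝ ϕ x e * f x : ℝ) : ℂ) * w x +
      ((ϕ x * f x : ℝ) : ℂ) * fderiv ℝ w x e)) = L (-∫ x, ((ϕ x * g x : ℝ) : ℂ) * w x) := by
    intro L
    have hLw : LipschitzWith (‖L‖₊ * K) fun x => L (w x) := L.lipschitz.comp hL
    have hLb : ∀ x, |L (w x)| ≤ ‖L‖ := fun x =>
      (L.le_opNorm _).trans (mul_le_of_le_one_right (norm_nonneg _) (hb x))
    have hlip : LipschitzWith (B.toNNReal * (‖L‖₊ * K) + ‖L‖₊ * Kϕ) fun x => ϕ x * L (w x) := by
      refine LipschitzWith.of_dist_le_mul fun a b => ?_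
      have a1 := hLw.dist_le_mul a b
      have a2 := hKϕ.dist_le_mul a b
      rw [Real.dist_eq] at a1 a2 ⊢
      have e1 : ϕ a * L (w a) - ϕ b * L (w b) =
          ϕ a * (L (w a) - L (w b)) + L (w b) * (ϕ a - ϕ b) := by ring
      rw [e1]
      refine (abs_add_le _ _).trans ?_
      rw [abs_mul, abs_mul]
      push_cast at a1 ⊢
      rw [Real.coe_toNNReal B hB0]
      have a3 : |ϕ a| * |L (w a) - L (w b)| ≤ B * (‖L‖ * K * dist a b) :=
        mul_le_mul (hB a) a1 (abs_nonneg _) hB0
      have a4 : |L (w b)| * |ϕ a - ϕ b| ≤ ‖L‖ * (Kϕ * dist a b) :=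
        mul_le_mul (hLb b) a2 (abs_nonneg _) (norm_nonneg _)
      linarith
    have h := weak_lip hf hg hw hlip hc.mul_right
    have hr : ∀ (a : ℝ) (z : ℂ), L ((a : ℂ) * z) = a * L z := fun a z => by
      rw [← Complex.real_smul, map_smul, smul_eq_mul]
    have i13 : Integrable (fun x => ((fderiv ℝ ϕ x e * f x : ℝ) : ℂ) * w x +
      ((ϕ x * f x : ℝ) : ℂ) * fderiv ℝ w x e) := i1.add i3
    rw [map_neg, ← L.integral_comp_comm i13, ← L.integral_comp_comm i2]
    simp only [hr]
    convert h using 1
    · refine integral_congr_ae ?_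
      filter_upwards [hL.ae_differentiableAt (μ := volume)] with x hx
      have d1 := (hϕ.differentiable (by simp) x).hasFDerivAt.mul
        (L.hasFDerivAt.comp x hx.hasFDerivAt)
      have d2 : HasFDerivAt (fun x => ϕ x * L (w x)) _ x := d1
      rw [d2.fderiv]
      simp only [map_add, hr, add_apply, smul_apply, comp_apply, smul_eq_mul,
        Function.comp]
      ring
    · congr 1
      refine integral_congr_ae (Eventually.of_forall fun x => ?_)
      ring
  have h : ∫ x, (((fderiv ℝ ϕ x e * f x : ℝ) : ℂ) * w x +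
      ((ϕ x * f x : ℝ) : ℂ) * fderiv ℝ w x e) = -∫ x, ((ϕ x * g x : ℝ) : ℂ) * w x :=
    Complex.ext (key Complex.reCLM) (key Complex.imCLM)
  rw [integral_add i1 i3] at h
  have e1 : ∀ x, fderiv ℝ ϕ x e • ((f x : ℂ) * w x) = ((fderiv ℝ ϕ x e * f x : ℝ) : ℂ) * w x :=
    fun x => by rw [Complex.real_smul]; push_cast; ring
  have e2 : ∀ x, ϕ x • ((g x : ℂ) * w x + (f x : ℂ) * fderiv ℝ w x e) =
      ((ϕ x * g x : ℝ) : ℂ) * w x + ((ϕ x * f x : ℝ) : ℂ) * fderiv ℝ w x e :=
    fun x => by rw [Complex.real_smul]; push_cast; ring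
  simp only [e1, e2]
  rw [integral_add i2 i3]
  linear_combination h

end Pool.Agent.MP_2c73ad_mp.H42
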